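import Mathlib
import Pool.Agent.H13.T2

set_option autoImplicit false

namespace Pool.Agent.H92.T3

open Pool.Agent.H13 MvPolynomial

/-- The class with degree `2 F` and multiplicities
`(c₁, c₁, c₂, c₂, c₃, c₃, 2 s, 2 s, e - 2 s, e - s, 0, …)`, where `e = 3 F - c₁ - c₂ - c₃`. -/
def class10 (n : ℕ) (F c₁ c₂ c₃ s : ℝ) : ℝ × (Fin n → ℝ) :=
  (2 * F, fun i => ([c₁, c₁, c₂, c₂, c₃, c₃, 2 * s, 2 * s, 3 * F - c₁ - c₂ - c₃ - 2 * s,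
    3 * F - c₁ - c₂ - c₃ - s] : List ℝ).getD i 0)

/-- The numbers defining the special plane configuration. -/
structure Data where
  a : ℂ
  x : Fin 3 → ℂ
  y : Fin 3 → ℂ
  ha : a ^ 2 + 4 * a + 2 = 0
  hx : ∀ i, 4 * x i ^ 3 - 5 * x i + 4 = 0
  hy : ∀ i, y i ^ 2 = 8 - 3 * x i ^ 2
  x_inj : Function.Injective x
  /-- the only integral relations -/
  indep : ∀ C : Fin 7 → ℤ, (4 * C 0 + a * C 1 + (-4 - a) * C 2 + 2 * x 0 * C 3 + 2 * x 1 * C 4 +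
    2 * x 2 * C 5 - 2 * C 6 : ℂ) = 0 →
    C 1 = C 2 ∧ C 3 = C 4 ∧ C 4 = C 5 ∧ C 6 = 2 * (C 0 - C 1)

namespace Data

variable (S : Data)

/-- The eleven special points of the plane: `a₁, a₂, a₃` on the axis `ζ = 0`, three pairs on the
conic `3 υ² + ζ² = 8` and the pair `(0, ± 2)`. -/
noncomputable def pt : Fin 11 → Fin 2 → ℂ :=
  ![![4, 0], ![S.a, 0], ![-4 - S.a, 0], ![S.x 0, S.y 0], ![S.x 0, -S.y 0], ![S.x 1, S.y 1],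
    ![S.x 1, -S.y 1], ![S.x 2, S.y 2], ![S.x 2, -S.y 2], ![0, 2], ![0, -2]]

/-- Representatives of the orbits of the involution `ζ ↦ -ζ`. -/
noncomputable def rep : Fin 7 → Fin 2 → ℂ :=
  ![![4, 0], ![S.a, 0], ![-4 - S.a, 0], ![S.x 0, S.y 0], ![S.x 1, S.y 1], ![S.x 2, S.y 2],
    ![0, 2]]

end Data

/-- The linear conditions and positivity: `d = b₁ + b₂ + b₃`, `a₁ = d - 3 s`, `a₂ + a₃ = 2 s`
for the class `(d; a₁, a₂, a₃, b₁, b₁, b₂, b₂, b₃, b₃, s, s)`. -/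
def Cond3 (d : ℝ) (D : Fin 7 → ℝ) : Prop :=
  0 ≤ d ∧ D 3 + D 4 + D 5 = d ∧ D 0 = d - 3 * D 6 ∧ D 1 + D 2 = 2 * D 6 ∧
    ∑ i, w2 i * D i ^ 2 ≤ d ^ 2

theorem Cond3.cond2 {d : ℝ} {D : Fin 7 → ℝ} (h : Cond3 d D) : Cond2 d D := by
  obtain ⟨h1, h2, h3, h4, h5⟩ := h
  exact ⟨h1, h2, by linarith, h5⟩

end Pool.Agent.H92.T3
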