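import Mathlib
import Pool.Agent.H92.T3.Defs

/-!
# T3-D: from the inequality at special points (over any field) to the theorem on very general points

`thm3_of_special`: if for some ten points over some field every curve of class `(δ; m)` satisfies the
inequality `D.(δ; m) ≥ 0` for all classes `D` of the five-dimensional space `class10` in the positive cone, then
for very general complex points these classes are nef, and `Curv = C = Pos = Nef` on this space.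
-/

set_option autoImplicit false

namespace Pool.Agent.H92.T3

open Pool.Agent.H13 MvPolynomial

theorem class10_fst (n : ℕ) (F c₁ c₂ c₃ s : ℝ) : (class10 n F c₁ c₂ c₃ s).1 = 2 * F := rfl

theorem class10_snd_ge {n : ℕ} (F c₁ c₂ c₃ s : ℝ) (i : Fin n) (hi : 10 ≤ (i : ℕ)) :
    (class10 n F c₁ c₂ c₃ s).2 i = 0 := by
  simp only [class10]
  rw [List.getD_eq_default]
  simpa using hi

theorem class10_add (n : ℕ) (F c₁ c₂ c₃ s F' c₁' c₂' c₃' s' : ℝ) :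
    class10 n F c₁ c₂ c₃ s + class10 n F' c₁' c₂' c₃' s' =
      class10 n (F + F') (c₁ + c₁') (c₂ + c₂') (c₃ + c₃') (s + s') := by
  apply Prod.ext
  · simp only [class10, Prod.fst_add]; ring
  · funext i
    obtain ⟨i, hi⟩ := i
    simp only [class10, Prod.snd_add, Pi.add_apply]
    match i with
    | 0 => simp
    | 1 => simp
    | 2 => simp
    | 3 => simp
    | 4 => simp
    | 5 => simp
    | 6 => simp; ring
    | 7 => simp; ring
    | 8 => simp; ring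
    | 9 => simp; ring
    | (k + 10) => simp

theorem class10_smul (n : ℕ) (c F c₁ c₂ c₃ s : ℝ) :
    c • class10 n F c₁ c₂ c₃ s = class10 n (c * F) (c * c₁) (c * c₂) (c * c₃) (c * s) := by
  apply Prod.ext
  · simp only [class10, Prod.smul_fst, smul_eq_mul]; ring
  · funext i
    obtain ⟨i, hi⟩ := i
    simp only [class10, Prod.smul_snd, Pi.smul_apply, smul_eq_mul]
    match i with
    | 0 => simp
    | 1 => simp
    | 2 => simp
    | 3 => simp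
    | 4 => simp
    | 5 => simp
    | 6 => simp; ring
    | 7 => simp; ring
    | 8 => simp; ring
    | 9 => simp; ring
    | (k + 10) => simp

/-- the five-dimensional space of classes -/
def L10 (n : ℕ) : Submodule ℝ (ℝ × (Fin n → ℝ)) where
  carrier := {y | ∃ F c₁ c₂ c₃ s, y = class10 n F c₁ c₂ c₃ s}
  add_mem' := by
    rintro _ _ ⟨F, c₁, c₂, c₃, s, rfl⟩ ⟨F', c₁', c₂', c₃', s', rfl⟩
    exact ⟨_, _, _, _, _, class10_add n _ _ _ _ _ _ _ _ _ _⟩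
  zero_mem' := by
    refine ⟨0, 0, 0, 0, 0, ?_⟩
    have h := class10_smul n 0 0 0 0 0 0
    rw [zero_smul] at h
    rw [h]
    simp
  smul_mem' := by
    rintro c _ ⟨F, c₁, c₂, c₃, s, rfl⟩
    exact ⟨_, _, _, _, _, class10_smul n _ _ _ _ _ _⟩

theorem sum_class10 {n : ℕ} (hn : 10 ≤ n) (F c₁ c₂ c₃ s : ℝ) (g : Fin n → ℝ → ℝ)
    (hg : ∀ i, g i 0 = 0) :
    ∑ i, g i ((class10 n F c₁ c₂ c₃ s).2 i) =
      ∑ j : Fin 10, g (Fin.castLE hn j) ((![c₁, c₁, c₂, c₂, c₃, c₃, 2 * s, 2 * s,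
        3 * F - c₁ - c₂ - c₃ - 2 * s, 3 * F - c₁ - c₂ - c₃ - s] : Fin 10 → ℝ) j) := by
  rw [sum_castLE hn (fun i => g i ((class10 n F c₁ c₂ c₃ s).2 i)) (fun i hi => by
    rw [class10_snd_ge _ _ _ _ _ i hi, hg])]
  refine Finset.sum_congr rfl fun j _ => ?_
  congr 1
  fin_cases j <;> rfl

theorem class10_sq {n : ℕ} (hn : 10 ≤ n) (F c₁ c₂ c₃ s : ℝ) :
    ∑ i, ((class10 n F c₁ c₂ c₃ s).2 i) ^ 2 =
      2 * c₁ ^ 2 + 2 * c₂ ^ 2 + 2 * c₃ ^ 2 + 8 * s ^ 2 +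
        (3 * F - c₁ - c₂ - c₃ - 2 * s) ^ 2 + (3 * F - c₁ - c₂ - c₃ - s) ^ 2 := by
  rw [sum_class10 hn _ _ _ _ _ (fun _ x => x ^ 2) (fun _ => by norm_num)]
  simp only [Fin.sum_univ_succ, Fin.sum_univ_zero]
  simp
  ring

/-- The class on the plane model with eleven points. -/
def D7 (F c₁ c₂ c₃ s : ℝ) : Fin 7 → ℝ :=
  ![3 * F - c₁ - c₂ - c₃ - 3 * s, 2 * F - c₁ - c₂ - c₃ + s, s + c₁ + c₂ + c₃ - 2 * F,
    F - c₁, F - c₂, F - c₃, s]

theorem cond3_of_pos {n : ℕ} (hn : 10 ≤ n) (F c₁ c₂ c₃ s : ℝ)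
    (h : class10 n F c₁ c₂ c₃ s ∈ Pos n) :
    Cond3 (3 * F - c₁ - c₂ - c₃) (D7 F c₁ c₂ c₃ s) := by
  obtain ⟨h1, h2⟩ := h
  rw [class10_sq hn] at h2
  rw [class10_fst] at h1 h2
  have hF : 0 ≤ F := by linarith
  refine ⟨?_, ?_, ?_, ?_, ?_⟩
  · by_contra hneg
    rw [not_le] at hneg
    have e1 : (c₁ + c₂ + c₃) ^ 2 ≤ 3 * (c₁ ^ 2 + c₂ ^ 2 + c₃ ^ 2) := by
      nlinarith [sq_nonneg (c₁ - c₂), sq_nonneg (c₁ - c₃), sq_nonneg (c₂ - c₃)]
    have e2 : (3 * F) * (3 * F) ≤ (c₁ + c₂ + c₃) * (3 * F) :=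
      mul_le_mul_of_nonneg_right (by linarith) (by linarith)
    have e3 : (c₁ + c₂ + c₃) * (3 * F) ≤ (c₁ + c₂ + c₃) * (c₁ + c₂ + c₃) :=
      mul_le_mul_of_nonneg_left (by linarith) (by linarith)
    have e4 : 0 < (c₁ + c₂ + c₃) * (c₁ + c₂ + c₃) := by
      have : 0 < c₁ + c₂ + c₃ := by linarith
      exact mul_pos this this
    nlinarith [sq_nonneg s, sq_nonneg (3 * F - c₁ - c₂ - c₃ - 2 * s),
      sq_nonneg (3 * F - c₁ - c₂ - c₃ - s)]
  · simp [D7]; ring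
  · simp [D7]
  · simp [D7]; ring
  · rw [sum_w2 (fun i => (D7 F c₁ c₂ c₃ s) i ^ 2)]
    simp [D7]
    nlinarith

theorem nonneg_of_cond3 {F c₁ c₂ c₃ s : ℝ}
    (h : Cond3 (3 * F - c₁ - c₂ - c₃) (D7 F c₁ c₂ c₃ s)) :
    0 ≤ F ∧ 0 ≤ c₁ ∧ 0 ≤ c₂ ∧ 0 ≤ c₃ ∧ 0 ≤ s ∧ 0 ≤ 3 * F - c₁ - c₂ - c₃ - 3 * s := by
  have h2 := h.cond2
  have hs : 0 ≤ s := h2.nonneg 6
  have h0 : 0 ≤ 3 * F - c₁ - c₂ - c₃ - 3 * s := h2.nonneg 0
  have h3 : 0 ≤ F - c₁ := h2.nonneg 3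
  have k1 := h2.cs 6 ![2, 3, 1, 2, 1, 1, 2] (by norm_num) (by simp; norm_num)
  have k2 := h2.cs 6 ![2, 3, 1, 1, 2, 1, 2] (by norm_num) (by simp; norm_num)
  have k3 := h2.cs 6 ![2, 3, 1, 1, 1, 2, 2] (by norm_num) (by simp; norm_num)
  simp [D7] at k1 k2 k3
  have c1 : 0 ≤ c₁ := by linarith
  have c2 : 0 ≤ c₂ := by linarith
  have c3 : 0 ≤ c₃ := by linarith
  exact ⟨by linarith, c1, c2, c3, hs, h0⟩

/-- The inequality to be proved at the special points. -/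
def Ineq10 {k : Type} [Field k] (P : Fin 10 → Fin 2 → k) : Prop :=
  ∀ F c₁ c₂ c₃ s : ℝ, Cond3 (3 * F - c₁ - c₂ - c₃) (D7 F c₁ c₂ c₃ s) →
    ∀ (dl : ℕ) (m : Fin 10 → ℕ), HasCurve P dl m →
      c₁ * (m 0 + m 1) + c₂ * (m 2 + m 3) + c₃ * (m 4 + m 5) + 2 * s * (m 6 + m 7) +
        (3 * F - c₁ - c₂ - c₃ - 2 * s) * m 8 + (3 * F - c₁ - c₂ - c₃ - s) * m 9 ≤ 2 * F * dl

/-- Classes of the positive cone in the five-dimensional space are nef. -/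
theorem nef10 {k : Type} [Field k] (P : Fin 10 → Fin 2 → k) (hP : Ineq10 P) (n : ℕ)
    (hn : 10 ≤ n) :
    VeryGeneral n (fun p => ∀ F c₁ c₂ c₃ s : ℝ, class10 n F c₁ c₂ c₃ s ∈ Pos n →
      ∀ v ∈ moriCone p, 0 ≤ BB (class10 n F c₁ c₂ c₃ s) v) := by
  obtain ⟨f, hf0, hf⟩ := transfer_all hn P
  refine ⟨f, hf0, fun p hp F c₁ c₂ c₃ s hpos v hv => ?_⟩
  have hC := cond3_of_pos hn _ _ _ _ _ hpos
  obtain ⟨nF, n1, n2, n3, ns, n0⟩ := nonneg_of_cond3 hC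
  refine BB_nonneg_closure _ (curveClasses p) ?_ v hv
  intro w hw
  rcases curveClasses_sub p hw with ⟨d, m, hc, rfl⟩ | ⟨i, rfl⟩
  · have hc' : HasCurve (fun i => p (Fin.castLE hn i)) d (fun j => m (Fin.castLE hn j)) := by
      obtain ⟨G, h0, h1, h2⟩ := hc
      exact ⟨G, h0, h1, fun i => h2 _⟩
    have h3 := hP F c₁ c₂ c₃ s hC d _ (hf p hp d _ hc')
    simp only [BB]
    have e : ∑ i, (class10 n F c₁ c₂ c₃ s).2 i * (m i : ℝ) =
        ∑ j : Fin 10, (![c₁, c₁, c₂, c₂, c₃, c₃, 2 * s, 2 * s,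
        3 * F - c₁ - c₂ - c₃ - 2 * s, 3 * F - c₁ - c₂ - c₃ - s] : Fin 10 → ℝ) j *
          (m (Fin.castLE hn j) : ℝ) :=
      sum_class10 hn F c₁ c₂ c₃ s (fun i x => x * (m i : ℝ)) (fun _ => zero_mul _)
    rw [e, class10_fst]
    simp only [Fin.sum_univ_succ, Fin.sum_univ_zero]
    simp
    linarith
  · simp only [BB, Pi.single_apply, mul_ite, mul_neg, mul_one, mul_zero,
      Finset.sum_ite_eq', Finset.mem_univ, if_true]
    have : 0 ≤ (class10 n F c₁ c₂ c₃ s).2 i := by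
      obtain ⟨i, hi⟩ := i
      simp only [class10]
      match i with
      | 0 => simpa using n1
      | 1 => simpa using n1
      | 2 => simpa using n2
      | 3 => simpa using n2
      | 4 => simpa using n3
      | 5 => simpa using n3
      | 6 => simpa using ns
      | 7 => simpa using ns
      | 8 => simp; linarith
      | 9 => simp; linarith
      | (k + 10) => simp
    linarith

/-- a class of positive square -/
theorem exists_big10 (n : ℕ) (hn : 10 ≤ n) :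
    class10 n 9 6 6 6 2 ∈ L10 n ∧ 0 < (class10 n 9 6 6 6 2).1 ∧
      0 < BB (class10 n 9 6 6 6 2) (class10 n 9 6 6 6 2) := by
  refine ⟨⟨_, _, _, _, _, rfl⟩, ?_, ?_⟩
  · rw [class10_fst]; norm_num
  · have e : ∀ i, (class10 n 9 6 6 6 2).2 i * (class10 n 9 6 6 6 2).2 i =
        ((class10 n 9 6 6 6 2).2 i) ^ 2 := fun i => by ring
    simp only [BB, e]
    rw [class10_sq hn, class10_fst]
    norm_num

/-- **Theorem T3**, from the inequality at the special points. -/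
theorem thm3_of_special {k : Type} [Field k] (P : Fin 10 → Fin 2 → k) (hP : Ineq10 P) (n : ℕ)
    (hn : 10 ≤ n) :
    VeryGeneral n (fun p => ∀ F c₁ c₂ c₃ s : ℝ, ∀ y : ℝ × (Fin n → ℝ),
      y = class10 n F c₁ c₂ c₃ s →
      ((y ∈ moriCone p ↔ y ∈ expectedCone p) ∧
        (y ∈ moriCone p ↔ 0 ≤ y.1 ∧ ∑ i, y.2 i ^ 2 ≤ y.1 ^ 2) ∧
        (y ∈ moriCone p ↔ ∀ v ∈ moriCone p, 0 ≤ y.1 * v.1 - ∑ i, y.2 i * v.2 i))) := by
  obtain ⟨f, hf0, hf⟩ := nef10 P hP n hn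
  refine ⟨f, hf0, fun p hp F c₁ c₂ c₃ s y hy => ?_⟩
  obtain ⟨hb1, hb2, hb3⟩ := exists_big10 n hn
  have hyL : y ∈ L10 n := ⟨_, _, _, _, _, hy⟩
  have hsep : y ∉ Pos n → ∃ x ∈ L10 n, x ∈ Pos n ∧ BB x y < 0 := fun h =>
    separateL (L10 n) _ hb1 hb2 hb3 y hyL h
  have hnef : ∀ x ∈ L10 n, x ∈ Pos n → ∀ v ∈ moriCone p, 0 ≤ BB x v := by
    rintro x ⟨F, c₁, c₂, c₃, s, rfl⟩ hx v hv
    exact hf p hp _ _ _ _ _ hx v hv
  have h1 : y ∈ moriCone p → y ∈ Pos n := by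
    intro hy
    by_contra hneg
    obtain ⟨x, hxL, hx, hlt⟩ := hsep hneg
    have := hnef x hxL hx y hy
    linarith
  have h2 : y ∈ Pos n → y ∈ expectedCone p := fun hy =>
    subset_closure (Submodule.subset_span (Or.inr hy))
  have h3 : y ∈ expectedCone p → y ∈ moriCone p := fun hy => expected_subset_mori p hy
  have h4 : y ∈ Pos n → ∀ v ∈ moriCone p, 0 ≤ y.1 * v.1 - ∑ i, y.2 i * v.2 i :=
    fun hy v hv => hnef y hyL hy v hv
  have h5 : (∀ v ∈ moriCone p, 0 ≤ y.1 * v.1 - ∑ i, y.2 i * v.2 i) → y ∈ Pos n := by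
    intro hnef'
    by_contra hneg
    obtain ⟨x, hxL, hx, hlt⟩ := hsep hneg
    have h6 : 0 ≤ BB y x := hnef' x (pos_subset_mori p hx)
    rw [BB_comm] at h6
    linarith
  exact ⟨⟨fun hy => h2 (h1 hy), h3⟩, ⟨h1, fun hy => h3 (h2 hy)⟩,
    ⟨fun hy => h4 (h1 hy), fun hy => h3 (h2 (h5 hy))⟩⟩

end Pool.Agent.H92.T3
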