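import Pool.Agent.H92.T3.Defs

/-!
# The degeneration of the plane to `P(1,1,4)` over `ℂ(t)`

`F` in `K[x,y]` of degree `≤ δ` is a combination of `x^e y^c ω^j`, `e ≤ 1`, `e + c + 2 j ≤ δ`, where
`y = x^2 + t ω`.  Scale the coefficients to `ℂ[t]`, not all divisible by `t`, and put `t = 0`.
-/

set_option autoImplicit false

namespace Pool.Agent.H92.T3

open Pool.Agent.H13 MvPolynomial

/-- the function field `ℂ(t)` -/
noncomputable abbrev KK := FractionRing (Polynomial ℂ)

namespace Deg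

/-- the polynomial ring `ℂ[t]` -/
abbrev AA := Polynomial ℂ

/-- the parameter `t` -/
noncomputable def tt : KK := algebraMap AA KK Polynomial.X

/-- constants -/
noncomputable def cc (a : ℂ) : KK := algebraMap AA KK (Polynomial.C a)

theorem tt_ne : tt ≠ 0 := by
  unfold tt
  rw [Ne, FaithfulSMul.algebraMap_eq_zero_iff]
  exact Polynomial.X_ne_zero

/-! ### Multiplicities and substitutions -/

section Gen

variable {k : Type*} [Field k]

theorem aeval_mem_Iord {p q : Fin 2 → k} {g : Fin 2 → MvPolynomial (Fin 2) k}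
    (hg : ∀ i, eval q (g i) = p i) {F : MvPolynomial (Fin 2) k} {N : ℕ} (hF : F ∈ Iord p N) :
    aeval g F ∈ Iord q N := by
  rw [mem_Iord] at *
  let h : Fin 2 → MvPolynomial (Fin 2) k := fun i => tr q (g i) - C (p i)
  have h1 : ∀ i, h i ∈ idealOfVars (Fin 2) k := by
    intro i
    have h2 : g i - C (p i) ∈ Iord q 1 := mem_Iord_one.2 (by simp [hg])
    rw [mem_Iord, pow_one, map_sub, tr_C] at h2
    exact h2
  have h2 : tr q (aeval g F) = aeval h (tr p F) := by
    have h3 : (tr q).comp (aeval g) = (aeval h).comp (tr p) := by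
      ext i
      simp [h]
    exact DFunLike.congr_fun h3 F
  rw [h2]
  have h3 : Ideal.map (aeval h) (idealOfVars (Fin 2) k) ≤ idealOfVars (Fin 2) k := by
    rw [Ideal.map_le_iff_le_comap]
    unfold idealOfVars
    rw [Ideal.span_le]
    rintro _ ⟨i, rfl⟩
    show aeval h (X i) ∈ Ideal.span _
    rw [aeval_X]
    exact h1 i
  have h4 : Ideal.map (aeval h) (idealOfVars (Fin 2) k ^ N) ≤ idealOfVars (Fin 2) k ^ N := by
    rw [Ideal.map_pow]
    exact Ideal.pow_right_mono h3 N
  exact h4 (Ideal.mem_map_of_mem _ hF)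

end Gen

/-- evaluation at `t = 0` -/
noncomputable def ev0 : AA →+* ℂ := Polynomial.evalRingHom 0

theorem coeff_of_K {f : MvPolynomial (Fin 2) AA} {q : Fin 2 → AA} {N : ℕ}
    (h : map (algebraMap AA KK) f ∈ Iord (fun i => algebraMap AA KK (q i)) N) (s : Fin 2 →₀ ℕ)
    (hs : s.degree < N) : coeff s (trG q f) = 0 := by
  rw [mem_Iord'] at h
  have h1 := h s hs
  rw [tr_eq_trG, ← map_trG, coeff_map, FaithfulSMul.algebraMap_eq_zero_iff] at h1
  exact h1

theorem reduce {f : MvPolynomial (Fin 2) AA} {q : Fin 2 → AA} {N : ℕ}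
    (h : map (algebraMap AA KK) f ∈ Iord (fun i => algebraMap AA KK (q i)) N) :
    map ev0 f ∈ Iord (fun i => ev0 (q i)) N := by
  rw [mem_Iord']
  intro s hs
  rw [tr_eq_trG, ← map_trG, coeff_map, coeff_of_K h s hs, map_zero]

theorem div_X {R : Type*} [CommRing R] (f : MvPolynomial (Fin 2) R) (N : ℕ)
    (h : ∀ s : Fin 2 →₀ ℕ, s.degree < N → coeff s f = 0) :
    ∃ f' : MvPolynomial (Fin 2) R, aeval ![X 0, X 0 * X 1] f = X 0 ^ N * f' := by
  show X 0 ^ N ∣ aeval ![X 0, X 0 * X 1] f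
  rw [aeval_def, eval₂_eq']
  apply Finset.dvd_sum
  intro s hs
  apply Dvd.dvd.mul_left
  rw [Fin.prod_univ_two]
  simp only [Matrix.cons_val_zero, Matrix.cons_val_one]
  rw [mul_pow, ← mul_assoc, ← pow_add]
  apply Dvd.dvd.mul_right
  apply pow_dvd_pow
  by_contra hlt
  rw [mem_support_iff] at hs
  apply hs
  apply h
  rw [Finsupp.degree_eq_sum, Fin.sum_univ_two]
  omega

theorem map_aeval_bl {R S : Type*} [CommRing R] [CommRing S] (φ : R →+* S)
    (f : MvPolynomial (Fin 2) R) :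
    aeval (![X 0, X 0 * X 1] : Fin 2 → MvPolynomial (Fin 2) S) (map φ f) =
      map φ (aeval (![X 0, X 0 * X 1] : Fin 2 → MvPolynomial (Fin 2) R) f) := by
  induction f using MvPolynomial.induction_on with
  | C a => simp
  | add p q hp hq => simp only [map_add, hp, hq]
  | mul_X p j hp =>
    rw [map_mul, map_mul, hp, map_mul, map_mul]
    congr 1
    fin_cases j <;> simp

/-! ### The basis -/

/-- the products `x ^ e * y ^ c * ω ^ j` -/
noncomputable def bb {R : Type*} [CommRing R] (t : R) (i : ℕ × ℕ × ℕ) : MvPolynomial (Fin 2) R :=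
  X 0 ^ i.1 * (X 0 ^ 2 + C t * X 1) ^ i.2.1 * X 1 ^ i.2.2

theorem map_bb {R S : Type*} [CommRing R] [CommRing S] (φ : R →+* S) (t : R) (i : ℕ × ℕ × ℕ) :
    map φ (bb t i) = bb (φ t) i := by
  simp [bb]

/-- the index set -/
def II (N : ℕ) : Finset (ℕ × ℕ × ℕ) :=
  ((Finset.range 2) ×ˢ (Finset.range (N + 1) ×ˢ Finset.range (N + 1))).filter
    (fun i => i.1 + i.2.1 + 2 * i.2.2 ≤ N)

theorem mem_II {N : ℕ} {i : ℕ × ℕ × ℕ} : i ∈ II N ↔ i.1 < 2 ∧ i.1 + i.2.1 + 2 * i.2.2 ≤ N := by
  simp only [II, Finset.mem_filter, Finset.mem_product, Finset.mem_range]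
  omega

theorem II_mono {M N : ℕ} (h : M ≤ N) : II M ⊆ II N := by
  intro i hi
  rw [mem_II] at *
  omega

section Span

variable {k : Type*} [Field k] (t : k)

/-- the span of the products -/
noncomputable def EE (N : ℕ) : Submodule k (MvPolynomial (Fin 2) k) :=
  Submodule.span k (bb t '' (II N : Set (ℕ × ℕ × ℕ)))

variable {t}

theorem EE_mono {M N : ℕ} (h : M ≤ N) : EE t M ≤ EE t N :=
  Submodule.span_mono (Set.image_mono (by exact_mod_cast II_mono h))

theorem bb_mem {N : ℕ} {i : ℕ × ℕ × ℕ} (hi : i ∈ II N) : bb t i ∈ EE t N :=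
  Submodule.subset_span ⟨i, by exact_mod_cast hi, rfl⟩

theorem X0_mul_mem {N : ℕ} {f : MvPolynomial (Fin 2) k} (hf : f ∈ EE t N) :
    X 0 * f ∈ EE t (N + 1) := by
  unfold EE at hf
  induction hf using Submodule.span_induction with
  | mem x hx =>
    obtain ⟨⟨e, c, j⟩, hi, rfl⟩ := hx
    have hi' := mem_II.1 (by exact_mod_cast hi : (e, c, j) ∈ II N)
    simp only at hi'
    obtain ⟨he, hle⟩ := hi'
    have he' : e = 0 ∨ e = 1 := by omega
    rcases he' with rfl | rfl
    · have : X 0 * bb t (0, c, j) = bb t (1, c, j) := by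
        simp only [bb]; ring
      rw [this]
      exact bb_mem (mem_II.2 (by simp only; omega))
    · have : X 0 * bb t (1, c, j) = bb t (0, c + 1, j) - t • bb t (0, c, j + 1) := by
        simp only [bb, smul_eq_C_mul]; ring
      rw [this]
      exact sub_mem (bb_mem (mem_II.2 (by simp only; omega)))
        (Submodule.smul_mem _ _ (bb_mem (mem_II.2 (by simp only; omega))))
  | zero => rw [mul_zero]; exact zero_mem _
  | add x y _ _ hx hy => rw [mul_add]; exact add_mem hx hy
  | smul a x _ hx => rw [mul_smul_comm]; exact Submodule.smul_mem _ _ hx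

theorem pow_mem (p q : ℕ) :
    X 0 ^ p * (X 0 ^ 2 + C t * X 1) ^ q ∈ EE t (p + q) := by
  induction p with
  | zero =>
    have : X 0 ^ 0 * (X 0 ^ 2 + C t * X 1) ^ q = bb t (0, q, 0) := by simp [bb]
    rw [this]
    exact bb_mem (mem_II.2 (by simp))
  | succ p ih =>
    have h := X0_mul_mem ih
    rw [show p + 1 + q = p + q + 1 by omega]
    rw [← mul_assoc, ← pow_succ'] at h
    exact h

theorem aeval_mem {F : MvPolynomial (Fin 2) k} {N : ℕ} (hF : F.totalDegree ≤ N) :
    aeval ![X 0, X 0 ^ 2 + C t * X 1] F ∈ EE t N := by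
  rw [aeval_def, eval₂_eq']
  apply Submodule.sum_mem
  intro s hs
  rw [Fin.prod_univ_two]
  simp only [Matrix.cons_val_zero, Matrix.cons_val_one]
  rw [← Algebra.smul_def]
  apply Submodule.smul_mem
  have h1 := le_totalDegree hs
  have h2 : (s.sum fun _ e => e) = s 0 + s 1 := by
    rw [Finsupp.sum_fintype _ _ (by intro; rfl), Fin.sum_univ_two]
  rw [h2] at h1
  exact EE_mono (h1.trans hF) (pow_mem _ _)

theorem exists_coeffs {f : MvPolynomial (Fin 2) k} {N : ℕ} (hf : f ∈ EE t N) :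
    ∃ a : ℕ × ℕ × ℕ → k, ∑ i ∈ II N, a i • bb t i = f :=
  (Submodule.mem_span_image_finset_iff_exists_fun' k).1 hf

end Span

/-! ### Scaling -/

theorem scale_aux {ι : Type*} (s : Finset ι) (a : ι → KK) (n : ℕ) : ∀ (l : KK) (r : ι → AA),
    l ≠ 0 → (∀ i ∈ s, algebraMap AA KK (r i) = l * a i) →
    (∃ i ∈ s, r i ≠ 0 ∧ (r i).natDegree ≤ n) →
    ∃ (l : KK) (r : ι → AA), l ≠ 0 ∧ (∀ i ∈ s, algebraMap AA KK (r i) = l * a i) ∧
      ∃ i ∈ s, ev0 (r i) ≠ 0 := by
  induction n with
  | zero =>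
    intro l r hl hr ⟨i, hi, hi0, hin⟩
    refine ⟨l, r, hl, hr, i, hi, ?_⟩
    obtain ⟨c, hc⟩ := Polynomial.natDegree_eq_zero.1 (Nat.le_zero.1 hin)
    rw [← hc] at hi0 ⊢
    intro h
    apply hi0
    have : c = 0 := by simpa [ev0] using h
    rw [this, map_zero]
  | succ n ih =>
    intro l r hl hr ⟨i, hi, hi0, hin⟩
    by_cases h : ∃ i ∈ s, ev0 (r i) ≠ 0
    · exact ⟨l, r, hl, hr, h⟩
    · push Not at h
      have hX : ∀ i ∈ s, r i = (r i).divX * Polynomial.X := by
        intro i hi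
        have h1 := Polynomial.divX_mul_X_add (r i)
        have h2 : (r i).coeff 0 = 0 := by
          rw [Polynomial.coeff_zero_eq_eval_zero]
          exact h i hi
        rw [h2, map_zero, add_zero] at h1
        exact h1.symm
      refine ih (l / tt) (fun i => (r i).divX) (div_ne_zero hl tt_ne) ?_ ⟨i, hi, ?_, ?_⟩
      · intro i hi
        have h1 := hr i hi
        rw [hX i hi, map_mul] at h1
        rw [div_mul_eq_mul_div, eq_div_iff tt_ne]
        exact h1
      · intro h0
        apply hi0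
        rw [hX i hi, h0, zero_mul]
      · rw [Polynomial.natDegree_divX_eq_natDegree_tsub_one]
        omega

theorem scale {ι : Type*} (s : Finset ι) (a : ι → KK) (ha : ∃ i ∈ s, a i ≠ 0) :
    ∃ (l : KK) (r : ι → AA), l ≠ 0 ∧ (∀ i ∈ s, algebraMap AA KK (r i) = l * a i) ∧
      ∃ i ∈ s, ev0 (r i) ≠ 0 := by
  classical
  obtain ⟨b, hb⟩ := IsLocalization.exist_integer_multiples (nonZeroDivisors AA) s a
  have hb0 : algebraMap AA KK b ≠ 0 := by
    rw [Ne, FaithfulSMul.algebraMap_eq_zero_iff]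
    exact nonZeroDivisors.ne_zero b.2
  let r : ι → AA := fun i => if h : i ∈ s then (hb i h).choose else 0
  have hr : ∀ i ∈ s, algebraMap AA KK (r i) = algebraMap AA KK b * a i := by
    intro i hi
    have h1 := (hb i hi).choose_spec
    simp only [r, dif_pos hi]
    rw [h1, Algebra.smul_def]
  obtain ⟨i, hi, hai⟩ := ha
  refine scale_aux s a _ _ r hb0 hr ⟨i, hi, ?_, le_rfl⟩
  intro h0
  have h1 := hr i hi
  rw [h0, map_zero] at h1
  exact mul_ne_zero hb0 hai h1.symm

theorem bb_zero (i : ℕ × ℕ × ℕ) :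
    bb (0 : ℂ) i = monomial (expo (i.1 + 2 * i.2.1, i.2.2)) 1 := by
  have : monomial (expo (i.1 + 2 * i.2.1, i.2.2)) (1 : ℂ) =
      X 0 ^ (i.1 + 2 * i.2.1) * X 1 ^ i.2.2 := by
    rw [monomial_eq, Finsupp.prod_fintype _ _ (by intro; simp), Fin.prod_univ_two]
    simp
  rw [this]
  simp only [bb, C_0, zero_mul, add_zero]
  rw [pow_add, pow_mul]

theorem idx_inj {N : ℕ} {i j : ℕ × ℕ × ℕ} (hi : i ∈ II N) (hj : j ∈ II N)
    (h : expo (i.1 + 2 * i.2.1, i.2.2) = expo (j.1 + 2 * j.2.1, j.2.2)) : i = j := by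
  have h1 := expo_inj h
  rw [mem_II] at hi hj
  simp only [Prod.mk.injEq] at h1
  obtain ⟨i1, i2, i3⟩ := i
  obtain ⟨j1, j2, j3⟩ := j
  simp only [Prod.mk.injEq] at *
  omega

end Deg

open Deg

/-- ten points over `ℂ(t)`, degenerating -/
noncomputable def degPt (X W : Fin 8 → ℂ) (tau : ℂ) : Fin 10 → Fin 2 → KK := fun i =>
  if h : (i : ℕ) < 8 then ![cc (X ⟨i, h⟩), cc (X ⟨i, h⟩) ^ 2 + tt * cc (W ⟨i, h⟩)]
  else if (i : ℕ) = 8 then ![tt, tt ^ 2 + tt * (cc tau * tt)] else ![0, 0]

/-- Degeneration of the plane to `P(1,1,4)`: a curve over `ℂ(t)` has a limit. -/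
theorem degen (X W : Fin 8 → ℂ) (tau : ℂ) (dl : ℕ) (m : Fin 10 → ℕ)
    (h : HasCurve (degPt X W tau) dl m) :
    ∃ g g' : MvPolynomial (Fin 2) ℂ, g ≠ 0 ∧ (∀ s ∈ g.support, s 0 + 4 * s 1 ≤ 2 * dl) ∧
      (∀ i : Fin 8, g ∈ Iord ![X i, W i] (m (Fin.castLE (by norm_num) i))) ∧
      aeval ![MvPolynomial.X 0, MvPolynomial.X 0 * MvPolynomial.X 1] g =
        MvPolynomial.X 0 ^ (m 9) * g' ∧ g' ∈ Iord ![0, tau] (m 8) := by
  classical
  obtain ⟨F, hF0, hFd, hF⟩ := h
  set gF : Fin 2 → MvPolynomial (Fin 2) KK :=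
    ![MvPolynomial.X 0, MvPolynomial.X 0 ^ 2 + C tt * MvPolynomial.X 1] with hgF
  set G := aeval gF F with hG
  have hG0 : G ≠ 0 := by
    intro h0
    apply hF0
    let gB : Fin 2 → MvPolynomial (Fin 2) KK :=
      ![MvPolynomial.X 0, C tt⁻¹ * (MvPolynomial.X 1 - MvPolynomial.X 0 ^ 2)]
    have h1 : (aeval gB).comp (aeval gF) = AlgHom.id KK _ := by
      ext i
      fin_cases i
      · simp [gB, hgF]
      · simp only [gB, hgF, AlgHom.comp_apply, aeval_X, AlgHom.id_apply]
        simp only [Fin.mk_one, Matrix.cons_val_one, Matrix.cons_val_zero, map_add, map_pow,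
          map_mul, aeval_X, algHom_C, algebraMap_eq, Matrix.cons_val_fin_one]
        rw [← mul_assoc, ← C_mul, mul_inv_cancel₀ tt_ne, C_1, one_mul]
        exact add_sub_cancel _ _
    have h2 := DFunLike.congr_fun h1 F
    rw [AlgHom.comp_apply, ← hG, h0, map_zero] at h2
    exact h2.symm
  obtain ⟨a, ha⟩ := exists_coeffs (aeval_mem (t := tt) hFd)
  rw [← hgF, ← hG] at ha
  have ha0 : ∃ i ∈ II dl, a i ≠ 0 := by
    by_contra hcon
    push Not at hcon
    apply hG0
    rw [← ha]
    exact Finset.sum_eq_zero fun i hi => by rw [hcon i hi, zero_smul]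
  obtain ⟨l, r, hl, hr, i₀, hi₀, hi₀'⟩ := scale (II dl) a ha0
  set P : MvPolynomial (Fin 2) AA := ∑ i ∈ II dl, C (r i) * bb Polynomial.X i with hP
  have hPK : map (algebraMap AA KK) P = C l * G := by
    rw [hP, map_sum, ← ha, Finset.mul_sum]
    refine Finset.sum_congr rfl fun i hi => ?_
    rw [map_mul, map_C, map_bb, hr i hi, smul_eq_C_mul, C_mul, mul_assoc]
    rfl
  have hmem : ∀ (p : Fin 2 → KK) (q : Fin 2 → AA) (N : ℕ), F ∈ Iord p N →
      (∀ i, eval (fun j => algebraMap AA KK (q j)) (gF i) = p i) →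
      map (algebraMap AA KK) P ∈ Iord (fun j => algebraMap AA KK (q j)) N := by
    intro p q N hp hq
    rw [hPK]
    exact Ideal.mul_mem_left _ _ (aeval_mem_Iord hq hp)
  set g : MvPolynomial (Fin 2) ℂ := map ev0 P with hg
  have hgsum : g = ∑ i ∈ II dl, monomial (expo (i.1 + 2 * i.2.1, i.2.2)) (ev0 (r i)) := by
    rw [hg, hP, map_sum]
    refine Finset.sum_congr rfl fun i _ => ?_
    rw [map_mul, map_C, map_bb]
    have h0 : ev0 Polynomial.X = 0 := by simp [ev0]
    rw [h0, bb_zero, C_mul_monomial, mul_one]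
  -- ninth point
  have h9 := hF 9
  have e9 : degPt X W tau 9 = ![0, 0] := by
    unfold degPt
    rw [dif_neg (by decide), if_neg (by decide)]
  rw [e9] at h9
  have h9' := hmem _ (fun _ => 0) _ h9 (by
    intro i
    fin_cases i <;> simp [hgF])
  obtain ⟨P', hP'⟩ := div_X P (m 9) (fun s hs => by
    have h1 := coeff_of_K h9' s hs
    have h2 : trG (fun _ => (0 : AA)) P = P := by
      have h3 : trG (fun _ => (0 : AA)) = AlgHom.id AA (MvPolynomial (Fin 2) AA) := by
        ext i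
        simp [trG]
      rw [h3]; rfl
    rwa [h2] at h1)
  refine ⟨g, map ev0 P', ?_, ?_, ?_, ?_, ?_⟩
  · intro h0
    apply hi₀'
    have h1 := congrArg (coeff (expo (i₀.1 + 2 * i₀.2.1, i₀.2.2))) h0
    rw [hgsum, coeff_sum, Finset.sum_eq_single i₀] at h1
    · rwa [coeff_monomial, if_pos rfl, coeff_zero] at h1
    · intro j hj hne
      rw [coeff_monomial, if_neg]
      exact fun h2 => hne (idx_inj hj hi₀ h2)
    · intro h2; exact absurd hi₀ h2
  · intro s hs
    rw [mem_support_iff, hgsum, coeff_sum] at hs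
    obtain ⟨i, hi, hi'⟩ := Finset.exists_ne_zero_of_sum_ne_zero hs
    rw [coeff_monomial] at hi'
    by_cases h1 : expo (i.1 + 2 * i.2.1, i.2.2) = s
    · rw [mem_II] at hi
      rw [← h1, expo_zero, expo_one]
      simp only
      omega
    · rw [if_neg h1] at hi'
      exact absurd rfl hi'
  · intro i
    have h1 := hF (Fin.castLE (by norm_num) i)
    have e1 : degPt X W tau (Fin.castLE (by norm_num) i) =
        ![cc (X i), cc (X i) ^ 2 + tt * cc (W i)] := by
      unfold degPt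
      rw [dif_pos (by simp)]
      rfl
    rw [e1] at h1
    have h2 := hmem _ ![Polynomial.C (X i), Polynomial.C (W i)] _ h1 (by
      intro j
      fin_cases j <;> simp [hgF, cc])
    have h3 := reduce h2
    have h4 : (fun j => ev0 ((![Polynomial.C (X i), Polynomial.C (W i)] : Fin 2 → AA) j)) =
        ![X i, W i] := by
      funext j
      fin_cases j <;> simp [ev0]
    rwa [h4] at h3
  · have h1 := congrArg (map ev0) hP'
    rw [map_mul, map_pow, map_X] at h1
    rw [← h1, hg, map_aeval_bl]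
  · have h8 := hF 8
    have e8 : degPt X W tau 8 = ![tt, tt ^ 2 + tt * (cc tau * tt)] := by
      unfold degPt
      rw [dif_neg (by decide), if_pos (by decide)]
    rw [e8] at h8
    have h8' := hmem _ ![Polynomial.X, Polynomial.C tau * Polynomial.X] _ h8 (by
      intro j
      fin_cases j <;> simp [hgF, cc, tt])
    have h8'' := aeval_mem_Iord (q := ![tt, cc tau])
      (g := ![MvPolynomial.X 0, MvPolynomial.X 0 * MvPolynomial.X 1]) (by
        intro j
        fin_cases j
        · simp [tt]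
        · simp only [Fin.mk_one, Matrix.cons_val_one, Matrix.cons_val_zero, map_mul, eval_X,
            Matrix.cons_val_fin_one, tt, cc]
          exact mul_comm _ _) h8'
    have h1 := congrArg (map (algebraMap AA KK)) hP'
    rw [map_mul, map_pow, map_X] at h1
    rw [map_aeval_bl, h1] at h8''
    have h4 := mem_Iord_of_mul (by simp [tt_ne]) h8''
    have h5 : (![tt, cc tau] : Fin 2 → KK) =
        fun j => algebraMap AA KK ((![Polynomial.X, Polynomial.C tau] : Fin 2 → AA) j) := by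
      funext j
      fin_cases j <;> simp [tt, cc]
    rw [h5] at h4
    have h6 := reduce h4
    have h7 : (fun j => ev0 ((![Polynomial.X, Polynomial.C tau] : Fin 2 → AA) j)) =
        ![0, tau] := by
      funext j
      fin_cases j <;> simp [ev0]
    rwa [h7] at h6

end Pool.Agent.H92.T3
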