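import Mathlib
import Pool.Agent.H92.T3.Defs

set_option autoImplicit false

namespace Pool.Agent.H92.T3

open Pool.Agent.H13 MvPolynomial

variable {k : Type*} [Field k]

/-- The region `s₀ + q s₁ ≤ T`, `s₁ ≤ J`. -/
def Reg (q T J : ℕ) (g : MvPolynomial (Fin 2) k) : Prop :=
  ∀ s ∈ g.support, s 0 + q * s 1 ≤ T ∧ s 1 ≤ J

/-- The polynomial `U ^ T * Q ^ J * g (V / U, N / (U ^ q * Q))`. -/
noncomputable def Hm (q T J : ℕ) (V U N Q g : MvPolynomial (Fin 2) k) :
    MvPolynomial (Fin 2) k :=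
  ∑ s ∈ g.support, C (coeff s g) *
    (V ^ s 0 * U ^ (T - s 0 - q * s 1) * (N ^ s 1 * Q ^ (J - s 1)))

theorem map_Hm {K : Type*} [Field K] (φ : MvPolynomial (Fin 2) k →+* K) {q T J : ℕ}
    {V U N Q g : MvPolynomial (Fin 2) k} (hU : φ U ≠ 0) (hQ : φ Q ≠ 0) (hg : Reg q T J g) :
    φ (Hm q T J V U N Q g) =
      φ U ^ T * φ Q ^ J * eval₂ (φ.comp C) ![φ V / φ U, φ N / (φ U ^ q * φ Q)] g := by
  rw [eval₂_eq', Finset.mul_sum, Hm, map_sum]
  refine Finset.sum_congr rfl fun s hs => ?_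
  obtain ⟨h1, h2⟩ := hg s hs
  obtain ⟨r, hr⟩ := Nat.exists_eq_add_of_le h1
  obtain ⟨r', hr'⟩ := Nat.exists_eq_add_of_le h2
  have e1 : T - s 0 - q * s 1 = r := by omega
  have e2 : J - s 1 = r' := by omega
  rw [e1, e2, hr, hr']
  simp only [map_mul, map_pow, Fin.prod_univ_two, RingHom.comp_apply, Matrix.cons_val_zero,
    Matrix.cons_val_one]
  rw [div_pow, div_pow, mul_pow, ← pow_mul, pow_add, pow_add, pow_add]
  field_simp

theorem eval₂_tr {K : Type*} [Field K] (φ : k →+* K) (P : Fin 2 → k) (p : Fin 2 → K)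
    (g : MvPolynomial (Fin 2) k) :
    eval₂ φ p (tr P g) = eval₂ φ (fun i => p i + φ (P i)) g := by
  have : (eval₂Hom φ p).comp (tr P : MvPolynomial (Fin 2) k →+* MvPolynomial (Fin 2) k) =
      eval₂Hom φ (fun i => p i + φ (P i)) := by
    apply MvPolynomial.ringHom_ext
    · intro c; simp
    · intro i; simp
  exact DFunLike.congr_fun this g

theorem eval₂_aeval {K : Type*} [Field K] (φ : k →+* K) (p : Fin 2 → K)
    (g : MvPolynomial (Fin 2) k) :
    eval₂ φ p (aeval ![(X 0 : MvPolynomial (Fin 2) k), X 0 * X 1] g) =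
      eval₂ φ ![p 0, p 0 * p 1] g := by
  have : (eval₂Hom φ p).comp
      ((aeval ![(X 0 : MvPolynomial (Fin 2) k), X 0 * X 1] :
        MvPolynomial (Fin 2) k →ₐ[k] MvPolynomial (Fin 2) k) :
        MvPolynomial (Fin 2) k →+* MvPolynomial (Fin 2) k) =
      eval₂Hom φ ![p 0, p 0 * p 1] := by
    apply MvPolynomial.ringHom_ext
    · intro c; simp
    · intro i; fin_cases i <;> simp
  exact DFunLike.congr_fun this g

theorem mem_support_shift (a b : k) (n m : ℕ) (t : Fin 2 →₀ ℕ)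
    (ht : t ∈ ((X 0 + C a : MvPolynomial (Fin 2) k) ^ n * (X 1 + C b) ^ m).support) :
    t 0 ≤ n ∧ t 1 ≤ m := by
  have hx : ∀ (i j : Fin 2) (c : k),
      degreeOf j (X i + C c : MvPolynomial (Fin 2) k) ≤ if i = j then 1 else 0 := by
    intro i j c
    refine (degreeOf_add_le _ _ _).trans ?_
    rw [degreeOf_C, degreeOf_X]
    by_cases h : i = j
    · simp [h]
    · simp [h, Ne.symm h]
  have h0 := monomial_le_degreeOf 0 ht
  have h1 := monomial_le_degreeOf 1 ht
  have g0 := (degreeOf_mul_le 0 ((X 0 + C a : MvPolynomial (Fin 2) k) ^ n) ((X 1 + C b) ^ m))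
  have g1 := (degreeOf_mul_le 1 ((X 0 + C a : MvPolynomial (Fin 2) k) ^ n) ((X 1 + C b) ^ m))
  have p00 := degreeOf_pow_le 0 (X 0 + C a : MvPolynomial (Fin 2) k) n
  have p01 := degreeOf_pow_le 0 (X 1 + C b : MvPolynomial (Fin 2) k) m
  have p10 := degreeOf_pow_le 1 (X 0 + C a : MvPolynomial (Fin 2) k) n
  have p11 := degreeOf_pow_le 1 (X 1 + C b : MvPolynomial (Fin 2) k) m
  have x00 := hx 0 0 a
  have x01 := hx 0 1 a
  have x10 := hx 1 0 b
  have x11 := hx 1 1 b
  rw [if_pos rfl] at x00 x11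
  rw [if_neg (by decide)] at x01 x10
  constructor
  · have e1 : n * degreeOf 0 (X 0 + C a : MvPolynomial (Fin 2) k) ≤ n * 1 :=
      Nat.mul_le_mul_left _ x00
    have e2 : m * degreeOf 0 (X 1 + C b : MvPolynomial (Fin 2) k) ≤ m * 0 :=
      Nat.mul_le_mul_left _ x10
    omega
  · have e1 : n * degreeOf 1 (X 0 + C a : MvPolynomial (Fin 2) k) ≤ n * 0 :=
      Nat.mul_le_mul_left _ x01
    have e2 : m * degreeOf 1 (X 1 + C b : MvPolynomial (Fin 2) k) ≤ m * 1 :=
      Nat.mul_le_mul_left _ x11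
    omega

theorem mem_support_tr {P : Fin 2 → k} {g : MvPolynomial (Fin 2) k} {t : Fin 2 →₀ ℕ}
    (ht : t ∈ (tr P g).support) : ∃ s ∈ g.support, t 0 ≤ s 0 ∧ t 1 ≤ s 1 := by
  classical
  have h1 : tr P g = ∑ s ∈ g.support, C (coeff s g) *
      ((X 0 + C (P 0)) ^ s 0 * (X 1 + C (P 1)) ^ s 1) := by
    rw [tr, aeval_def, eval₂_eq']
    refine Finset.sum_congr rfl fun s _ => ?_
    rw [Fin.prod_univ_two]
    rfl
  rw [h1] at ht
  have h2 := support_sum ht
  rw [Finset.mem_biUnion] at h2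
  obtain ⟨s, hs, hts⟩ := h2
  refine ⟨s, hs, mem_support_shift (P 0) (P 1) _ _ t ?_⟩
  rw [mem_support_iff, coeff_C_mul] at hts
  rw [mem_support_iff]
  exact right_ne_zero_of_mul hts

theorem Reg.tr {q T J : ℕ} {g : MvPolynomial (Fin 2) k} (hg : Reg q T J g) (P : Fin 2 → k) :
    Reg q T J (tr P g) := by
  intro t ht
  obtain ⟨s, hs, h0, h1⟩ := mem_support_tr ht
  obtain ⟨g1, g2⟩ := hg s hs
  have : q * t 1 ≤ q * s 1 := Nat.mul_le_mul_left _ h1
  constructor <;> omega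

/-- Translation of the variables. -/
theorem Hm_tr {q T J : ℕ} {V U N Q g : MvPolynomial (Fin 2) k} (hU : U ≠ 0) (hQ : Q ≠ 0)
    (hg : Reg q T J g) (a b : k) :
    Hm q T J V U N Q g = Hm q T J (V - C a * U) U (N - C b * (U ^ q * Q)) Q (tr ![a, b] g) := by
  set φ := algebraMap (MvPolynomial (Fin 2) k) (FractionRing (MvPolynomial (Fin 2) k)) with hφ
  have hinj : Function.Injective φ := IsFractionRing.injective _ _
  have hU' : φ U ≠ 0 := by
    intro h; exact hU (hinj (by rw [h, map_zero]))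
  have hQ' : φ Q ≠ 0 := by
    intro h; exact hQ (hinj (by rw [h, map_zero]))
  apply hinj
  rw [map_Hm φ hU' hQ' hg, map_Hm φ hU' hQ' (hg.tr _), eval₂_tr]
  congr 2
  funext i
  fin_cases i
  · simp only [map_sub, map_mul, RingHom.comp_apply]
    simp
    field_simp
    ring
  · simp only [map_sub, map_mul, map_pow, RingHom.comp_apply]
    simp
    field_simp
    ring

theorem dvd_Hm {q T J m : ℕ} {V U N Q g p : MvPolynomial (Fin 2) k} (hV : p ∣ V) (hN : p ∣ N)
    (hg : ∀ s ∈ g.support, m ≤ s 0 + s 1) : p ^ m ∣ Hm q T J V U N Q g := by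
  refine Finset.dvd_sum fun s hs => ?_
  have h1 : p ^ m ∣ p ^ (s 0 + s 1) := pow_dvd_pow _ (hg s hs)
  refine h1.trans ?_
  rw [pow_add]
  have h2 : p ^ s 0 ∣ V ^ s 0 := pow_dvd_pow_of_dvd hV _
  have h3 : p ^ s 1 ∣ N ^ s 1 := pow_dvd_pow_of_dvd hN _
  refine Dvd.dvd.mul_left ?_ _
  exact mul_dvd_mul (h2.mul_right _) (h3.mul_right _)

/-- Divisibility at a point. -/
theorem dvd_Hm_of_mem {q T J m : ℕ} {V U N Q g p : MvPolynomial (Fin 2) k} (hU : U ≠ 0)
    (hQ : Q ≠ 0) (hg : Reg q T J g) (a b : k) (hV : p ∣ V - C a * U)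
    (hN : p ∣ N - C b * (U ^ q * Q)) (hm : g ∈ Iord ![a, b] m) :
    p ^ m ∣ Hm q T J V U N Q g := by
  rw [Hm_tr hU hQ hg a b]
  refine dvd_Hm hV hN fun s hs => ?_
  by_contra hlt
  rw [mem_Iord'] at hm
  have h1 := hm s (by
    rw [Finsupp.degree_eq_sum, Fin.sum_univ_two]; omega)
  exact (mem_support_iff.1 hs) h1

theorem Hm_mem_Iord {q T J a b : ℕ} {V U N Q g : MvPolynomial (Fin 2) k} {P : Fin 2 → k}
    (hg : Reg q T J g) (hV : V ∈ Iord P a) (hU : U ∈ Iord P a) (hQ : Q ∈ Iord P b)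
    (hN : N ∈ Iord P (q * a + b)) : Hm q T J V U N Q g ∈ Iord P (a * T + b * J) := by
  refine Ideal.sum_mem _ fun s hs => Ideal.mul_mem_left _ _ ?_
  obtain ⟨h1, h2⟩ := hg s hs
  have e1 := pow_mem_Iord hV (s 0)
  have e2 := pow_mem_Iord hU (T - s 0 - q * s 1)
  have e3 := pow_mem_Iord hN (s 1)
  have e4 := pow_mem_Iord hQ (J - s 1)
  have e5 := mul_mem_Iord (mul_mem_Iord e1 e2) (mul_mem_Iord e3 e4)
  refine Iord_mono P (le_of_eq ?_) e5
  obtain ⟨r, hr⟩ := Nat.exists_eq_add_of_le h1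
  obtain ⟨r', hr'⟩ := Nat.exists_eq_add_of_le h2
  have f1 : T - s 0 - q * s 1 = r := by omega
  have f2 : J - s 1 = r' := by omega
  rw [f1, f2, hr, hr']
  ring

theorem totalDegree_Hm {q T J a b : ℕ} {V U N Q g : MvPolynomial (Fin 2) k}
    (hg : Reg q T J g) (hV : V.totalDegree ≤ a) (hU : U.totalDegree ≤ a)
    (hQ : Q.totalDegree ≤ b) (hN : N.totalDegree ≤ q * a + b) :
    (Hm q T J V U N Q g).totalDegree ≤ a * T + b * J := by
  refine (totalDegree_finsetSum _ _).trans ?_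
  rw [Finset.sup_le_iff]
  intro s hs
  obtain ⟨h1, h2⟩ := hg s hs
  have e0 := totalDegree_mul (C (coeff s g) : MvPolynomial (Fin 2) k)
    (V ^ s 0 * U ^ (T - s 0 - q * s 1) * (N ^ s 1 * Q ^ (J - s 1)))
  rw [totalDegree_C, zero_add] at e0
  refine e0.trans ((totalDegree_mul _ _).trans ?_)
  have e1 := totalDegree_mul (V ^ s 0) (U ^ (T - s 0 - q * s 1))
  have e2 := totalDegree_mul (N ^ s 1) (Q ^ (J - s 1))
  have f1 := (totalDegree_pow V (s 0)).trans (Nat.mul_le_mul_left _ hV)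
  have f2 := (totalDegree_pow U (T - s 0 - q * s 1)).trans (Nat.mul_le_mul_left _ hU)
  have f3 := (totalDegree_pow N (s 1)).trans (Nat.mul_le_mul_left _ hN)
  have f4 := (totalDegree_pow Q (J - s 1)).trans (Nat.mul_le_mul_left _ hQ)
  have e3 : (V ^ s 0 * U ^ (T - s 0 - q * s 1)).totalDegree +
      (N ^ s 1 * Q ^ (J - s 1)).totalDegree ≤
      s 0 * a + (T - s 0 - q * s 1) * a + (s 1 * (q * a + b) + (J - s 1) * b) := by
    omega
  refine e3.trans (le_of_eq ?_)
  obtain ⟨r, hr⟩ := Nat.exists_eq_add_of_le h1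
  obtain ⟨r', hr'⟩ := Nat.exists_eq_add_of_le h2
  have g1 : T - s 0 - q * s 1 = r := by omega
  have g2 : J - s 1 = r' := by omega
  rw [g1, g2, hr, hr']
  ring

/-- Removing powers of `Q`. -/
theorem Hm_factor {q T J j : ℕ} {V U N Q g : MvPolynomial (Fin 2) k} (hj : j ≤ J)
    (hg : ∀ s ∈ g.support, s 1 ≤ j) :
    Hm q T J V U N Q g = Q ^ (J - j) * Hm q T j V U N Q g := by
  rw [Hm, Hm, Finset.mul_sum]
  refine Finset.sum_congr rfl fun s hs => ?_
  have h1 := hg s hs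
  have h2 : J - s 1 = (J - j) + (j - s 1) := by omega
  rw [h2, pow_add]
  ring

/-- Evaluation at a point of `Q = 0`. -/
theorem eval_Hm_zero {q T j : ℕ} {V U N Q g : MvPolynomial (Fin 2) k} {P : Fin 2 → k} (μ : k)
    (hg : Reg q T j g) (hQ : eval P Q = 0) (hU : eval P U = μ * eval P V) :
    eval P (Hm q T j V U N Q g) = eval P V ^ (T - q * j) * eval P N ^ j *
      (∑ s ∈ g.support, if s 1 = j then coeff s g * μ ^ (T - s 0 - q * j) else 0) := by
  rw [Hm, map_sum, Finset.mul_sum]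
  refine Finset.sum_congr rfl fun s hs => ?_
  obtain ⟨h1, h2⟩ := hg s hs
  simp only [map_mul, map_pow, eval_C]
  rw [hQ, hU]
  by_cases h : s 1 = j
  · rw [if_pos h, h, Nat.sub_self, pow_zero, mul_one]
    have e : T - q * j = s 0 + (T - s 0 - q * j) := by
      rw [h] at h1; omega
    rw [e, pow_add, mul_pow]
    have e2 : s 0 + (T - s 0 - q * j) - s 0 = T - s 0 - q * j := by omega
    ring
  · rw [if_neg h]
    have : j - s 1 ≠ 0 := by omega
    rw [zero_pow this]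
    ring

/-- The blow-up of the origin. -/
theorem mem_support_blow {g g' : MvPolynomial (Fin 2) k} {m : ℕ}
    (h : aeval ![(X 0 : MvPolynomial (Fin 2) k), X 0 * X 1] g = X 0 ^ m * g') {s : Fin 2 →₀ ℕ}
    (hs : s ∈ g'.support) : ∃ t ∈ g.support, s 0 + m = t 0 + t 1 ∧ s 1 = t 1 := by
  classical
  have h1 : aeval ![(X 0 : MvPolynomial (Fin 2) k), X 0 * X 1] g =
      ∑ t ∈ g.support, monomial (expo (t 0 + t 1, t 1)) (coeff t g) := by
    rw [aeval_def, eval₂_eq']
    refine Finset.sum_congr rfl fun t _ => ?_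
    rw [Fin.prod_univ_two, monomial_eq, Finsupp.prod_fintype _ _ (by intro; simp),
      Fin.prod_univ_two]
    simp only [Matrix.cons_val_zero, Matrix.cons_val_one, expo_zero, expo_one, algebraMap_eq]
    ring
  have h2 : coeff (expo (s 0 + m, s 1)) (X 0 ^ m * g') = coeff s g' := by
    have e : expo (s 0 + m, s 1) = Finsupp.single 0 m + s := by
      ext i
      fin_cases i
      · simp [add_comm]
      · simp
    rw [e, X_pow_eq_monomial, coeff_monomial_mul, one_mul]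
  rw [mem_support_iff, ← h2, ← h, h1, coeff_sum] at hs
  obtain ⟨t, ht, hne⟩ := Finset.exists_ne_zero_of_sum_ne_zero hs
  refine ⟨t, ht, ?_⟩
  rw [coeff_monomial] at hne
  by_cases he : expo (t 0 + t 1, t 1) = expo (s 0 + m, s 1)
  · have := expo_inj he
    have e0 : t 0 + t 1 = s 0 + m := congrArg Prod.fst this
    have e1 : t 1 = s 1 := congrArg Prod.snd this
    exact ⟨e0.symm, e1.symm⟩
  · rw [if_neg he] at hne
    exact absurd rfl hne

theorem Hm_blow {q T J m : ℕ} {V U N Q g g' : MvPolynomial (Fin 2) k} (hU : U ≠ 0) (hQ : Q ≠ 0)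
    (hg : Reg (q + 1) T J g)
    (h : aeval ![(X 0 : MvPolynomial (Fin 2) k), X 0 * X 1] g = X 0 ^ m * g') :
    Reg q (T - m) J g' ∧
      Hm (q + 1) T J V U (V * N) Q g = V ^ m * Hm q (T - m) J V U N Q g' := by
  have hreg : Reg q (T - m) J g' := by
    intro s hs
    obtain ⟨t, ht, h0, h1⟩ := mem_support_blow h hs
    obtain ⟨g1, g2⟩ := hg t ht
    have e : (q + 1) * t 1 = q * t 1 + t 1 := by ring
    rw [h1]
    constructor <;> omega
  refine ⟨hreg, ?_⟩
  rcases eq_or_ne g' 0 with h0 | h0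
  · -- then g = 0 as well on the level of the substitution
    set φ := algebraMap (MvPolynomial (Fin 2) k) (FractionRing (MvPolynomial (Fin 2) k)) with hφ
    have hinj : Function.Injective φ := IsFractionRing.injective _ _
    have hU' : φ U ≠ 0 := by
      intro h; exact hU (hinj (by rw [h, map_zero]))
    have hQ' : φ Q ≠ 0 := by
      intro h; exact hQ (hinj (by rw [h, map_zero]))
    apply hinj
    have h3 := eval₂_aeval (φ.comp C) ![φ V / φ U, φ N / (φ U ^ q * φ Q)] g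
    rw [h, h0, mul_zero, eval₂_zero] at h3
    rw [map_Hm φ hU' hQ' hg, h0, Hm]
    simp only [support_zero, Finset.sum_empty, mul_zero, map_zero]
    have e : (![φ V / φ U, φ (V * N) / (φ U ^ (q + 1) * φ Q)] :
        Fin 2 → FractionRing (MvPolynomial (Fin 2) k)) =
        ![(![φ V / φ U, φ N / (φ U ^ q * φ Q)] : Fin 2 → _) 0,
          (![φ V / φ U, φ N / (φ U ^ q * φ Q)] : Fin 2 → _) 0 *
          (![φ V / φ U, φ N / (φ U ^ q * φ Q)] : Fin 2 → _) 1] := by
      funext i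
      fin_cases i
      · rfl
      · simp [pow_succ]
        field_simp
    rw [e, ← h3, mul_zero]
  · have hmT : m ≤ T := by
      obtain ⟨s, hs⟩ := support_nonempty.2 h0
      obtain ⟨t, ht, e0, e1⟩ := mem_support_blow h hs
      obtain ⟨g1, g2⟩ := hg t ht
      have e : (q + 1) * t 1 = q * t 1 + t 1 := by ring
      omega
    set φ := algebraMap (MvPolynomial (Fin 2) k) (FractionRing (MvPolynomial (Fin 2) k)) with hφ
    have hinj : Function.Injective φ := IsFractionRing.injective _ _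
    have hU' : φ U ≠ 0 := by
      intro h; exact hU (hinj (by rw [h, map_zero]))
    have hQ' : φ Q ≠ 0 := by
      intro h; exact hQ (hinj (by rw [h, map_zero]))
    apply hinj
    have h3 := eval₂_aeval (φ.comp C) ![φ V / φ U, φ N / (φ U ^ q * φ Q)] g
    rw [h, eval₂_mul, eval₂_pow, eval₂_X] at h3
    rw [map_mul, map_pow, map_Hm φ hU' hQ' hg, map_Hm φ hU' hQ' hreg]
    have e : (![φ V / φ U, φ (V * N) / (φ U ^ (q + 1) * φ Q)] :
        Fin 2 → FractionRing (MvPolynomial (Fin 2) k)) =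
        ![(![φ V / φ U, φ N / (φ U ^ q * φ Q)] : Fin 2 → _) 0,
          (![φ V / φ U, φ N / (φ U ^ q * φ Q)] : Fin 2 → _) 0 *
          (![φ V / φ U, φ N / (φ U ^ q * φ Q)] : Fin 2 → _) 1] := by
      funext i
      fin_cases i
      · rfl
      · simp [pow_succ]
        field_simp
    rw [e, ← h3]
    have e2 : (![φ V / φ U, φ N / (φ U ^ q * φ Q)] :
        Fin 2 → FractionRing (MvPolynomial (Fin 2) k)) 0 = φ V / φ U := rfl
    rw [e2]
    obtain ⟨r, hr⟩ := Nat.exists_eq_add_of_le hmT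
    have e3 : T - m = r := by omega
    rw [e3, hr, pow_add, div_pow]
    field_simp

end Pool.Agent.H92.T3
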