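import Mathlib
import Pool.Agent.H92.T3.Hom

set_option autoImplicit false

namespace Pool.Agent.H92.T3

open Pool.Agent.H13 MvPolynomial

namespace Data

variable (S : Data)

/-! ### Numbers -/

noncomputable def al : ℂ := -4 - S.a
noncomputable def be : ℂ := 5 * S.a
noncomputable def ga : ℂ := 2 * S.a + 4
noncomputable def ub (i : Fin 3) : ℂ := (S.x i - 4) * (S.x i - S.a) - S.a * S.y i ^ 2
noncomputable def vb (i : Fin 3) : ℂ := S.x i * S.y i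
noncomputable def Xr (i : Fin 3) : ℂ := S.vb i / S.ub i
noncomputable def w (i : Fin 3) : ℂ := S.Xr i ^ 2
noncomputable def e1 : ℂ := S.w 0 + S.w 1 + S.w 2
noncomputable def e2 : ℂ := S.w 0 * S.w 1 + S.w 0 * S.w 2 + S.w 1 * S.w 2
noncomputable def e3 : ℂ := S.w 0 * S.w 1 * S.w 2
noncomputable def X7 : ℂ := -8 / 17 - 1 / 17 * S.a
noncomputable def Z7 : ℂ := -2 * S.X7
noncomputable def Q7 : ℂ := S.al + S.be * S.X7 ^ 2 + S.ga * S.Z7
noncomputable def N7 : ℂ := -(S.ga / S.be) * S.X7 ^ 4 * S.Z7 - (S.e1 + S.al / S.be) * S.X7 ^ 4 +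
  S.e2 * S.X7 ^ 2 - S.e3
noncomputable def W7 : ℂ := S.X7 * S.N7 / S.Q7
noncomputable def ta : ℂ := -S.e3 / S.al

theorem a_ne : S.a ≠ 0 := by
  intro h
  have := S.ha
  rw [h] at this
  norm_num at this

theorem be_ne : S.be ≠ 0 := mul_ne_zero (by norm_num) S.a_ne

theorem al_ne : S.al ≠ 0 := by
  intro h
  have h1 : S.a = -4 := by
    simp only [al] at h
    linear_combination -h
  have := S.ha
  rw [h1] at this
  norm_num at this

theorem ga_ne : S.ga ≠ 0 := by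
  intro h
  have h1 : S.a = -2 := by
    simp only [ga] at h
    linear_combination h / 2
  have := S.ha
  rw [h1] at this
  norm_num at this

theorem x_ne (i : Fin 3) : S.x i ≠ 0 := by
  intro h
  have := S.hx i
  rw [h] at this
  norm_num at this

theorem y_ne (i : Fin 3) : S.y i ≠ 0 := by
  intro h
  have hx := S.hx i
  have hy := S.hy i
  have key : S.y i ^ 2 * ((289 / 1880 : ℂ) - (18 / 235) * S.x i + (51 / 470) * S.x i ^ 2) = 1 := by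
    linear_combination ((51 / 470 : ℂ) * S.x i ^ 2 + (-18 / 235 : ℂ) * S.x i +
      (289 / 1880 : ℂ)) * hy + ((-153 / 1880 : ℂ) * S.x i + (27 / 470 : ℂ)) * hx
  rw [h] at key
  norm_num at key

theorem ub_ne (i : Fin 3) : S.ub i ≠ 0 := by
  intro h
  have ha := S.ha
  have hx := S.hx i
  have hy := S.hy i
  rw [ub] at h
  generalize S.a = a at *
  generalize S.x i = x at *
  generalize S.y i = y at *
  have key : ((x - 4) * (x - a) - a * y ^ 2) * ((-443 / 940 : ℂ) + 76 / 235 * x +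
      143 / 235 * x ^ 2 + a * (-501 / 3760 + 13 / 235 * x + 177 / 940 * x ^ 2)) = 1 := by
    linear_combination ((-177 / 940 : ℂ) * a ^ 2 * x ^ 2 + (-13 / 235 : ℂ) * a ^ 2 * x + (501 / 3760 : ℂ) * a ^ 2 + (-143 / 235 : ℂ) * a * x ^ 2 + (-76 / 235 : ℂ) * a * x + (443 / 940 : ℂ) * a) * hy + ((531 / 3760 : ℂ) * a ^ 2 * x + (-21 / 3760 : ℂ) * a ^ 2 + (1893 / 3760 : ℂ) * a * x + (-79 / 940 : ℂ) * a + (143 / 940 : ℂ) * x + (-124 / 235 : ℂ)) * hx + ((-118 / 235 : ℂ) * x ^ 2 + (-32 / 47 : ℂ) * x + (261 / 470 : ℂ)) * ha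
  rw [h] at key
  norm_num at key

theorem Qb (i : Fin 3) : S.al * S.ub i ^ 2 + S.be * S.vb i ^ 2 +
    S.ga * S.ub i * (S.x i * (S.x i - 4)) = 0 := by
  have ha := S.ha
  have hx := S.hx i
  have hy := S.hy i
  simp only [al, be, ga, ub, vb]
  generalize S.a = a at *
  generalize S.x i = x at *
  generalize S.y i = y at *
  linear_combination (3 * a ^ 3 * x ^ 2 + (-2) * a ^ 3 * x + (-1) * a ^ 3 * y ^ 2 + 12 * a ^ 2 * x ^ 2 + (-8) * a ^ 2 * x + (-4) * a ^ 2 * y ^ 2 + 9 * a * x ^ 2 + (-16) * a * x) * hy + ((-9 / 4 : ℂ) * a ^ 3 * x + (3 / 2 : ℂ) * a ^ 3 + (-9) * a ^ 2 * x + 6 * a ^ 2 + (-13 / 2 : ℂ) * a * x + 11 * a) * hx + ((47 / 4 : ℂ) * a * x ^ 2 + (17 / 2 : ℂ) * a * x + (-22) * a) * ha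

/-- `w` as a polynomial in `x` -/
noncomputable def om (i : Fin 3) : ℂ :=
  27 / 47 + 194 / 1175 * S.a + (-1424 / 1175 - 392 / 1175 * S.a) * S.x i +
    (-1304 / 1175 - 416 / 1175 * S.a) * S.x i ^ 2

theorem w_eq_om (i : Fin 3) : S.w i = S.om i := by
  have ha := S.ha
  have hx := S.hx i
  have hy := S.hy i
  have hu := S.ub_ne i
  rw [w, Xr, div_pow, div_eq_iff (pow_ne_zero 2 hu)]
  simp only [om, ub, vb]
  generalize S.a = a at *
  generalize S.x i = x at *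
  generalize S.y i = y at *
  symm
  linear_combination ((1248 / 1175 : ℂ) * a ^ 3 * x ^ 4 + (344 / 1175 : ℂ) * a ^ 3 * x ^ 3 + (-416 / 1175 : ℂ) * a ^ 3 * x ^ 2 * y ^ 2 + (-1366 / 1175 : ℂ) * a ^ 3 * x ^ 2 + (-392 / 1175 : ℂ) * a ^ 3 * x * y ^ 2 + (388 / 1175 : ℂ) * a ^ 3 * x + (194 / 1175 : ℂ) * a ^ 3 * y ^ 2 + (4744 / 1175 : ℂ) * a ^ 2 * x ^ 4 + (-176 / 235 : ℂ) * a ^ 2 * x ^ 3 + (-1304 / 1175 : ℂ) * a ^ 2 * x ^ 2 * y ^ 2 + (-8397 / 1175 : ℂ) * a ^ 2 * x ^ 2 + (-1424 / 1175 : ℂ) * a ^ 2 * x * y ^ 2 + (2902 / 1175 : ℂ) * a ^ 2 * x + (27 / 47 : ℂ) * a ^ 2 * y ^ 2 + (2608 / 1175 : ℂ) * a * x ^ 4 + (-7584 / 1175 : ℂ) * a * x ^ 3 + (-12742 / 1175 : ℂ) * a * x ^ 2 + (216 / 47 : ℂ) * a * x + (-1) * x ^ 2) * hy + ((-936 / 1175 : ℂ) * a ^ 3 * x ^ 3 + (-258 / 1175 : ℂ) * a ^ 3 * x ^ 2 + (4493 / 2350 : ℂ) * a ^ 3 * x + (3489 / 2350 : ℂ) * a ^ 3 + (-3558 / 1175 : ℂ) * a ^ 2 * x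 ^ 3 + (868 / 1175 : ℂ) * a ^ 2 * x ^ 2 + (38177 / 4700 : ℂ) * a ^ 2 * x + (9243 / 2350 : ℂ) * a ^ 2 + (-412 / 235 : ℂ) * a * x ^ 3 + (7074 / 1175 : ℂ) * a * x ^ 2 + (146 / 25 : ℂ) * a * x + (-5873 / 1175 : ℂ) * a + (-326 / 1175 : ℂ) * x ^ 3 + (2252 / 1175 : ℂ) * x ^ 2 + (-3451 / 2350 : ℂ) * x + (-781 / 235 : ℂ)) * hx + ((-3979 / 2350 : ℂ) * a * x ^ 2 + (-9967 / 2350 : ℂ) * a * x + (-3874 / 1175 : ℂ) * a + (-32471 / 4700 : ℂ) * x ^ 2 + (-12623 / 2350 : ℂ) * x + (1562 / 235 : ℂ)) * ha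

theorem x_eq (i : Fin 3) : (-229 / 144 - 613 / 864 * S.a) + (-505 / 108 - 95 / 18 * S.a) * S.om i +
    (5375 / 432 + 20125 / 864 * S.a) * S.om i ^ 2 = S.x i := by
  have ha := S.ha
  have hx := S.hx i
  simp only [om]
  generalize S.a = a at *
  generalize S.x i = x at *
  linear_combination ((217672 / 298215 : ℂ) * a ^ 3 * x + (410228 / 298215 : ℂ) * a ^ 3 + (493636 / 99405 : ℂ) * a ^ 2 * x + (998417 / 99405 : ℂ) * a ^ 2 + (1911827 / 198810 : ℂ) * a * x + (2051384 / 99405 : ℂ) * a + (1142467 / 298215 : ℂ) * x + (2495204 / 298215 : ℂ)) * hx + ((1049398 / 298215 : ℂ) * a * x ^ 2 + (415219 / 298215 : ℂ) * a * x + (-11612447 / 2385720 : ℂ) * a + (797843 / 59643 : ℂ) * x ^ 2 + (4131419 / 596430 : ℂ) * x + (-40126499 / 2385720 : ℂ)) * ha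

theorem w_inj : Function.Injective S.w := by
  intro i j h
  apply S.x_inj
  rw [w_eq_om, w_eq_om] at h
  rw [← S.x_eq i, ← S.x_eq j, h]

theorem Xr_ne (i : Fin 3) : S.Xr i ≠ 0 :=
  div_ne_zero (mul_ne_zero (S.x_ne i) (S.y_ne i)) (S.ub_ne i)

theorem w_ne_X7 (i : Fin 3) : S.w i ≠ S.X7 ^ 2 := by
  intro h
  rw [w_eq_om, ← sub_eq_zero] at h
  have ha := S.ha
  have hx := S.hx i
  simp only [om, X7] at h
  generalize S.a = a at *
  generalize S.x i = x at *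
  have key : (27 / 47 + 194 / 1175 * a + (-1424 / 1175 - 392 / 1175 * a) * x +
    (-1304 / 1175 - 416 / 1175 * a) * x ^ 2 - (-8 / 17 - 1 / 17 * a) ^ 2) *
    (-535123 / 171747 + 460528 / 57249 * x - 577688 / 171747 * x ^ 2 +
      a * (98170 / 171747 + 768104 / 171747 * x - 16544 / 19083 * x ^ 2)) = 1 := by
    linear_combination ((36608 / 477075 : ℂ) * a ^ 2 * x + (-65291008 / 201802725 : ℂ) * a ^ 2 + (108619648 / 201802725 : ℂ) * a * x + (-6321472 / 4484505 : ℂ) * a + (188326288 / 201802725 : ℂ) * x + (-244739456 / 201802725 : ℂ)) * hx + ((16544 / 5514987 : ℂ) * a * x ^ 2 + (-768104 / 49634883 : ℂ) * a * x + (-98170 / 49634883 : ℂ) * a + (-82013051288 / 58320987525 : ℂ) * x ^ 2 + (-6183798064 / 3888065835 : ℂ) * x + (80224976993 / 58320987525 : ℂ)) * ha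
  rw [h] at key
  norm_num at key

theorem hX7 : S.X7 * (S.a - 4) = 2 := by
  have ha := S.ha
  simp only [X7]
  linear_combination (-1 / 17 : ℂ) * ha

theorem X7_ne : S.X7 ≠ 0 := by
  intro h
  have := S.hX7
  rw [h] at this
  norm_num at this

theorem Q7_ne : S.Q7 ≠ 0 := by
  intro h
  have ha := S.ha
  simp only [Q7, al, be, ga, X7, Z7] at h
  generalize S.a = a at *
  have key : (-4 - a + 5 * a * (-8 / 17 - 1 / 17 * a) ^ 2 +
      (2 * a + 4) * (-2 * (-8 / 17 - 1 / 17 * a))) * (-20 / 27 - 7 / 54 * a) = 1 := by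
    linear_combination ((-35 / 15606 : ℂ) * a ^ 2 + (-548 / 7803 : ℂ) * a + (-379 / 918 : ℂ)) * ha
  rw [h] at key
  norm_num at key

theorem sextic {t : ℂ} {i : Fin 3} (ht : t ^ 2 = S.w i) :
    t ^ 6 - S.e1 * t ^ 4 + S.e2 * t ^ 2 - S.e3 = 0 := by
  have h1 : t ^ 6 - S.e1 * t ^ 4 + S.e2 * t ^ 2 - S.e3 =
      (t ^ 2 - S.w 0) * (t ^ 2 - S.w 1) * (t ^ 2 - S.w 2) := by
    simp only [e1, e2, e3]; ring
  rw [h1, ht]
  fin_cases i <;> simp

end Data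

end Pool.Agent.H92.T3
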