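import Mathlib
import Pool.Agent.H92.T3.Conf

set_option autoImplicit false

namespace Pool.Agent.H92.T3

open Pool.Agent.H13 MvPolynomial

theorem c4 : (C 4 : MvPolynomial (Fin 2) ℂ) = 4 := map_ofNat C 4
theorem c2 : (C 2 : MvPolynomial (Fin 2) ℂ) = 2 := map_ofNat C 2

/-- the product of the two coordinates -/
noncomputable def V : MvPolynomial (Fin 2) ℂ := X 0 * X 1
/-- the third quadratic form -/
noncomputable def Z : MvPolynomial (Fin 2) ℂ := X 0 * (X 0 - C 4)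
/-- the two special lines -/
noncomputable def L7 : MvPolynomial (Fin 2) ℂ := X 0 + C 2 * X 1 - C 4
noncomputable def L8 : MvPolynomial (Fin 2) ℂ := X 0 - C 2 * X 1 - C 4

namespace Data

variable (S : Data)

noncomputable def U : MvPolynomial (Fin 2) ℂ := (X 0 - C 4) * (X 0 - C S.a) - C S.a * X 1 ^ 2
noncomputable def Q : MvPolynomial (Fin 2) ℂ :=
  C S.al * S.U ^ 2 + C S.be * V ^ 2 + C S.ga * S.U * Z
noncomputable def N' : MvPolynomial (Fin 2) ℂ :=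
  -(C (S.ga / S.be) * V ^ 4 * Z) - C (S.e1 + S.al / S.be) * V ^ 4 * S.U +
    C S.e2 * V ^ 2 * S.U ^ 3 - C S.e3 * S.U ^ 5
noncomputable def N : MvPolynomial (Fin 2) ℂ := V * S.N'

/-! ### Identities -/

theorem UN : C S.be * (S.U * S.N) = V * (C S.be * ((V ^ 2 - C (S.w 0) * S.U ^ 2) *
    (V ^ 2 - C (S.w 1) * S.U ^ 2) * (V ^ 2 - C (S.w 2) * S.U ^ 2)) - V ^ 4 * S.Q) := by
  have h1 : (C S.be : MvPolynomial (Fin 2) ℂ) * C (S.ga / S.be) = C S.ga := by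
    rw [← C_mul, mul_div_cancel₀ _ S.be_ne]
  have h2 : (C S.be : MvPolynomial (Fin 2) ℂ) * C (S.al / S.be) = C S.al := by
    rw [← C_mul, mul_div_cancel₀ _ S.be_ne]
  rw [N, N', Q, e1, e2, e3]
  simp only [C_add, C_mul]
  linear_combination (-(S.U * V ^ 5 * Z)) * h1 - (S.U ^ 2 * V ^ 5) * h2

theorem dvd_N {t : ℂ} (ht : t ^ 6 - S.e1 * t ^ 4 + S.e2 * t ^ 2 - S.e3 = 0) :
    V - C t * S.U ∣ S.N - C (-t ^ 5 / S.be) * (S.U ^ 4 * S.Q) := by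
  have h2 : (C (-t ^ 5 / S.be) : MvPolynomial (Fin 2) ℂ) * C S.be = - C t ^ 5 := by
    rw [← C_mul, div_mul_cancel₀ _ S.be_ne, C_neg, C_pow]
  have h1 : (C (S.al / S.be) : MvPolynomial (Fin 2) ℂ) * C t ^ 5 =
      - C (-t ^ 5 / S.be) * C S.al := by
    rw [← C_pow, ← C_mul, ← C_neg, ← C_mul]
    congr 1
    have := S.be_ne
    field_simp
  have h3 : (C (S.ga / S.be) : MvPolynomial (Fin 2) ℂ) * C t ^ 5 =
      - C (-t ^ 5 / S.be) * C S.ga := by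
    rw [← C_pow, ← C_mul, ← C_neg, ← C_mul]
    congr 1
    have := S.be_ne
    field_simp
  have h4 : (C t : MvPolynomial (Fin 2) ℂ) ^ 6 - C S.e1 * C t ^ 4 + C S.e2 * C t ^ 2 -
      C S.e3 = 0 := by
    have := congrArg (C : ℂ → MvPolynomial (Fin 2) ℂ) ht
    simpa using this
  refine ⟨-((C (S.ga / S.be) * Z + C (S.e1 + S.al / S.be) * S.U) *
    (V ^ 4 + V ^ 3 * (C t * S.U) + V ^ 2 * (C t * S.U) ^ 2 + V * (C t * S.U) ^ 3 +
      (C t * S.U) ^ 4)) + C S.e2 * S.U ^ 3 * (V ^ 2 + V * (C t * S.U) + (C t * S.U) ^ 2) -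
      C S.e3 * S.U ^ 5 + C t ^ 5 * S.U ^ 4 * (V + C t * S.U), ?_⟩
  rw [N, N', Q]
  simp only [C_add]
  linear_combination (-(S.U ^ 6)) * h1 - (S.U ^ 4 * V ^ 2) * h2 - (S.U ^ 5 * Z) * h3 +
    (C t * S.U ^ 6) * h4

theorem dvd_V7 : L7 ∣ V - C S.X7 * S.U := by
  have h : (C S.X7 : MvPolynomial (Fin 2) ℂ) * (C S.a - 4) = 2 := by
    rw [← c4, ← C_sub, ← C_mul, S.hX7, c2]
  have hh : (C (2⁻¹) : MvPolynomial (Fin 2) ℂ) * 2 = 1 := by
    rw [← c2, ← C_mul]; norm_num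
  refine ⟨-(C S.X7 * (X 0 - C S.a - C (2⁻¹) * C S.a * X 1)), ?_⟩
  rw [V, U, L7, c4, c2]
  linear_combination (-(X 0 * X 1 * C (2⁻¹))) * h - (X 0 * X 1 * (1 + 2 * C S.X7) +
    C S.X7 * C S.a * X 1 ^ 2 - 2 * C S.X7 * C S.a * X 1) * hh

theorem dvd_V8 : L8 ∣ V - C (-S.X7) * S.U := by
  have h : (C S.X7 : MvPolynomial (Fin 2) ℂ) * (C S.a - 4) = 2 := by
    rw [← c4, ← C_sub, ← C_mul, S.hX7, c2]
  have hh : (C (2⁻¹) : MvPolynomial (Fin 2) ℂ) * 2 = 1 := by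
    rw [← c2, ← C_mul]; norm_num
  refine ⟨C S.X7 * (X 0 - C S.a + C (2⁻¹) * C S.a * X 1), ?_⟩
  rw [V, U, L8, c4, c2, C_neg]
  linear_combination (-(X 0 * X 1 * C (2⁻¹))) * h - (X 0 * X 1 * (1 + 2 * C S.X7) -
    C S.X7 * C S.a * X 1 ^ 2 - 2 * C S.X7 * C S.a * X 1) * hh

/-- The divisibility of `N - W U ^ 4 Q` along a curve on which `V = t U` and `Z = z U`. -/
theorem dvd_N_of {p : MvPolynomial (Fin 2) ℂ} {t z W : ℂ} (hV : p ∣ V - C t * S.U)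
    (hZ : p ∣ Z - C z * S.U)
    (hW : t * (-(S.ga / S.be) * t ^ 4 * z - (S.e1 + S.al / S.be) * t ^ 4 + S.e2 * t ^ 2 - S.e3) =
      W * (S.al + S.be * t ^ 2 + S.ga * z)) :
    p ∣ S.N - C W * (S.U ^ 4 * S.Q) := by
  set π := Ideal.Quotient.mk (Ideal.span {p}) with hπ
  have hdvd : ∀ f : MvPolynomial (Fin 2) ℂ, p ∣ f ↔ π f = 0 := by
    intro f
    rw [hπ, Ideal.Quotient.eq_zero_iff_mem, Ideal.mem_span_singleton]
  rw [hdvd, map_sub, sub_eq_zero, map_mul] at hV hZ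
  rw [hdvd]
  have h1 := congrArg (C : ℂ → MvPolynomial (Fin 2) ℂ) hW
  have h2 := congrArg π h1
  simp only [map_mul, map_add, map_sub, map_neg, map_pow] at h2
  rw [N, N', Q]
  simp only [map_mul, map_add, map_sub, map_neg, map_pow]
  rw [hV, hZ]
  linear_combination (π S.U ^ 6) * h2

theorem dvd_Z7 : L7 ∣ Z - C S.Z7 * S.U := by
  have h1 : L7 ∣ Z + 2 * V := by
    refine ⟨X 0, ?_⟩
    rw [Z, V, L7, c4, c2]; ring
  have h2 := S.dvd_V7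
  have e : Z - C S.Z7 * S.U = (Z + 2 * V) - 2 * (V - C S.X7 * S.U) := by
    rw [Z7, C_mul, C_neg, c2]; ring
  rw [e]
  exact dvd_sub h1 (h2.mul_left _)

theorem dvd_Z8 : L8 ∣ Z - C S.Z7 * S.U := by
  have h1 : L8 ∣ Z - 2 * V := by
    refine ⟨X 0, ?_⟩
    rw [Z, V, L8, c4, c2]; ring
  have h2 := S.dvd_V8
  have e : Z - C S.Z7 * S.U = (Z - 2 * V) + 2 * (V - C (-S.X7) * S.U) := by
    rw [Z7, C_mul, C_neg, C_neg, c2]; ring
  rw [e]
  exact dvd_add h1 (h2.mul_left _)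

theorem dvd_N7 : L7 ∣ S.N - C S.W7 * (S.U ^ 4 * S.Q) := by
  refine S.dvd_N_of S.dvd_V7 S.dvd_Z7 ?_
  have h := S.Q7_ne
  have e : S.al + S.be * S.X7 ^ 2 + S.ga * S.Z7 = S.Q7 := rfl
  rw [e, W7, div_mul_cancel₀ _ h, N7]

theorem dvd_N8 : L8 ∣ S.N - C (-S.W7) * (S.U ^ 4 * S.Q) := by
  refine S.dvd_N_of S.dvd_V8 S.dvd_Z8 ?_
  have h := S.Q7_ne
  have e : S.al + S.be * (-S.X7) ^ 2 + S.ga * S.Z7 = S.Q7 := by rw [Q7]; ring
  have e2 : -S.W7 * S.Q7 = -(S.X7 * S.N7) := by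
    rw [W7, neg_mul, div_mul_cancel₀ _ h]
  rw [e, e2, N7]
  ring

theorem dvd_N0 : (X 0 : MvPolynomial (Fin 2) ℂ) ∣ S.N' - C S.ta * (S.U ^ 3 * S.Q) := by
  have h : (C S.ta : MvPolynomial (Fin 2) ℂ) * C S.al = - C S.e3 := by
    rw [← C_mul, ta, div_mul_cancel₀ _ S.al_ne, C_neg]
  refine ⟨-(C (S.ga / S.be) * (X 0 ^ 4 * X 1 ^ 4 * (X 0 - C 4))) -
    C (S.e1 + S.al / S.be) * (X 0 ^ 3 * X 1 ^ 4) * S.U +
    C S.e2 * (X 0 * X 1 ^ 2) * S.U ^ 3 -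
    C S.ta * S.U ^ 3 * (C S.be * (X 0 * X 1 ^ 2) + C S.ga * S.U * (X 0 - C 4)), ?_⟩
  rw [N', Q, V, Z]
  linear_combination (-(S.U ^ 5)) * h

theorem dvd_V0 : (X 0 : MvPolynomial (Fin 2) ℂ) ∣ V := ⟨X 1, rfl⟩

/-! ### Evaluation -/

theorem eval_U (P : Fin 2 → ℂ) : eval P S.U = (P 0 - 4) * (P 0 - S.a) - S.a * P 1 ^ 2 := by
  simp [U]

theorem eval_V (P : Fin 2 → ℂ) : eval P V = P 0 * P 1 := by
  simp [V]

theorem eval_Z (P : Fin 2 → ℂ) : eval P Z = P 0 * (P 0 - 4) := by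
  simp [Z]

theorem U_ne : S.U ≠ 0 := by
  intro h
  have := S.eval_U 0
  rw [h, map_zero] at this
  have ha := S.a_ne
  simp at this
  exact ha this

theorem V_ne : V ≠ 0 := mul_ne_zero (X_ne_zero 0) (X_ne_zero 1)

theorem Q_ne : S.Q ≠ 0 := by
  intro h
  -- evaluate at a point of the line L7
  have h0 := congrArg (eval (![4, 1] : Fin 2 → ℂ)) h
  rw [Q] at h0
  simp only [map_add, map_mul, map_pow, eval_C, eval_U, eval_V, eval_Z, map_zero] at h0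
  have ha := S.ha
  have hne := S.a_ne
  have h1 : (82 : ℂ) * S.a = 0 := by
    simp [al, be, ga] at h0
    linear_combination h0 + S.a * ha
  exact hne (by simpa using h1)

theorem isRelPrime_UV : IsRelPrime S.U V := by
  have ha := S.a_ne
  have h0 : ∀ i : Fin 2, IsRelPrime S.U (X i : MvPolynomial (Fin 2) ℂ) := by
    intro i
    have hp : Prime (X i : MvPolynomial (Fin 2) ℂ) := X_prime
    refine (hp.irreducible.isRelPrime_iff_not_dvd.2 ?_).symm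
    rintro ⟨c, hc⟩
    have := congrArg (eval (0 : Fin 2 → ℂ)) hc
    rw [eval_U] at this
    simp at this
    exact ha this
  exact (h0 0).mul_right (h0 1)

end Data

end Pool.Agent.H92.T3
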