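import Mathlib
import Pool.Agent.H92.T3.Poly

set_option autoImplicit false

namespace Pool.Agent.H92.T3

open Pool.Agent.H13 MvPolynomial

/-- multiplicities of the conics `U = V = 0` at the special points -/
def ph : Fin 11 → ℕ := ![1, 1, 0, 0, 0, 0, 0, 0, 0, 1, 1]
/-- multiplicities of the quartic `Q` at the special points -/
def ch : Fin 11 → ℕ := ![2, 1, 1, 1, 1, 1, 1, 1, 1, 2, 2]

theorem C_mul_mem {P : Fin 2 → ℂ} {n : ℕ} {f : MvPolynomial (Fin 2) ℂ} (c : ℂ)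
    (h : f ∈ Iord P n) : C c * f ∈ Iord P n := Ideal.mul_mem_left _ _ h

namespace Data

variable (S : Data)

theorem pows {P : Fin 2 → ℂ} {f : MvPolynomial (Fin 2) ℂ} (h : f ∈ Iord P 1) (n : ℕ) :
    f ^ n ∈ Iord P n := by
  have := pow_mem_Iord h n
  rwa [one_mul] at this

theorem mem4 {P : Fin 2 → ℂ} {n : ℕ} {a b c d : MvPolynomial (Fin 2) ℂ} (ha : a ∈ Iord P n)
    (hb : b ∈ Iord P n) (hc : c ∈ Iord P n) (hd : d ∈ Iord P n) :
    -a - b + c - d ∈ Iord P n :=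
  sub_mem (add_mem (sub_mem (neg_mem ha) hb) hc) hd

theorem mem_of_both {P : Fin 2 → ℂ} (hU : S.U ∈ Iord P 1) (hV : V ∈ Iord P 1)
    (hZ : Z ∈ Iord P 1) : S.Q ∈ Iord P 2 ∧ S.N ∈ Iord P 6 := by
  have t4 := pows hV 4
  have t2 := pows hV 2
  have u2 := pows hU 2
  have u3 := pows hU 3
  have u5 := pows hU 5
  constructor
  · rw [Q]
    have h1 : S.U * Z ∈ Iord P 2 := mul_mem_Iord hU hZ
    have h2 : C S.ga * S.U * Z ∈ Iord P 2 := by
      rw [mul_assoc]; exact C_mul_mem _ h1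
    exact add_mem (add_mem (C_mul_mem _ u2) (C_mul_mem _ t2)) h2
  · rw [N]
    have h1 : C (S.ga / S.be) * V ^ 4 * Z ∈ Iord P 5 := by
      rw [mul_assoc]; exact C_mul_mem _ (mul_mem_Iord t4 hZ)
    have h2 : C (S.e1 + S.al / S.be) * V ^ 4 * S.U ∈ Iord P 5 := by
      rw [mul_assoc]; exact C_mul_mem _ (mul_mem_Iord t4 hU)
    have h3 : C S.e2 * V ^ 2 * S.U ^ 3 ∈ Iord P 5 := by
      rw [mul_assoc]; exact C_mul_mem _ (mul_mem_Iord t2 u3)
    have h5 : S.N' ∈ Iord P 5 := by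
      rw [N']
      exact mem4 h1 h2 h3 (C_mul_mem _ u5)
    exact mul_mem_Iord hV h5

theorem mem_of_UV {P : Fin 2 → ℂ} (hU : S.U ∈ Iord P 1) (hV : V ∈ Iord P 1) :
    S.Q ∈ Iord P 1 ∧ S.N ∈ Iord P 5 := by
  have t4 := pows hV 4
  have t2 := pows hV 2
  have u2 := pows hU 2
  have u3 := pows hU 3
  have u5 := pows hU 5
  constructor
  · rw [Q]
    have h2 : C S.ga * S.U * Z ∈ Iord P 1 := by
      rw [mul_assoc]; exact C_mul_mem _ (Ideal.mul_mem_right _ _ hU)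
    have u2' : S.U ^ 2 ∈ Iord P 1 := Iord_mono P (by norm_num) u2
    have t2' : V ^ 2 ∈ Iord P 1 := Iord_mono P (by norm_num) t2
    exact add_mem (add_mem (C_mul_mem _ u2') (C_mul_mem _ t2')) h2
  · rw [N]
    have h1 : C (S.ga / S.be) * V ^ 4 * Z ∈ Iord P 4 := by
      rw [mul_assoc]; exact C_mul_mem _ (Ideal.mul_mem_right _ _ t4)
    have h2 : C (S.e1 + S.al / S.be) * V ^ 4 * S.U ∈ Iord P 4 := by
      rw [mul_assoc]; exact C_mul_mem _ (Ideal.mul_mem_right _ _ t4)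
    have h3 : C S.e2 * V ^ 2 * S.U ^ 3 ∈ Iord P 4 := by
      have h : V ^ 2 * S.U ^ 3 ∈ Iord P 5 := mul_mem_Iord t2 u3
      rw [mul_assoc]; exact C_mul_mem _ (Iord_mono P (by norm_num) h)
    have u5' : S.U ^ 5 ∈ Iord P 4 := Iord_mono P (by norm_num) u5
    have h5 : S.N' ∈ Iord P 4 := by
      rw [N']
      exact mem4 h1 h2 h3 (C_mul_mem _ u5')
    have := mul_mem_Iord hV h5
    exact this

theorem eval_Q (P : Fin 2 → ℂ) : eval P S.Q = S.al * (eval P S.U) ^ 2 +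
    S.be * (eval P V) ^ 2 + S.ga * eval P S.U * eval P Z := by
  simp [Q]

/-- the value of `U` at the points `(x i, ± y i)` -/
theorem eval_U_b (i : Fin 3) (P : Fin 2 → ℂ) (h0 : P 0 = S.x i) (h1 : P 1 ^ 2 = S.y i ^ 2) :
    eval P S.U = S.ub i := by
  rw [eval_U, h0, h1, ub]

theorem eval_Q_b (i : Fin 3) (P : Fin 2 → ℂ) (h0 : P 0 = S.x i) (h1 : P 1 ^ 2 = S.y i ^ 2) :
    eval P S.Q = 0 := by
  have h2 : (eval P V) ^ 2 = S.vb i ^ 2 := by
    rw [eval_V, mul_pow, h0, h1, vb, mul_pow]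
  rw [eval_Q, S.eval_U_b i P h0 h1, h2, eval_Z, h0]
  exact S.Qb i

theorem eval_N_b (i : Fin 3) (P : Fin 2 → ℂ) (h0 : P 0 = S.x i) (h1 : P 1 ^ 2 = S.y i ^ 2) :
    eval P S.N = 0 := by
  have h2 : (eval P V) ^ 2 = S.vb i ^ 2 := by
    rw [eval_V, mul_pow, h0, h1, vb, mul_pow]
  have hu := S.eval_U_b i P h0 h1
  have hq := S.eval_Q_b i P h0 h1
  have hub := S.ub_ne i
  have key := congrArg (eval P) S.UN
  simp only [map_mul, map_sub, map_pow, eval_C] at key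
  rw [hq, hu, h2] at key
  have hw : S.vb i ^ 2 = S.w i * S.ub i ^ 2 := by
    rw [w, Xr]
    field_simp
  have hz : (S.vb i ^ 2 - S.w 0 * S.ub i ^ 2) * (S.vb i ^ 2 - S.w 1 * S.ub i ^ 2) *
      (S.vb i ^ 2 - S.w 2 * S.ub i ^ 2) = 0 := by
    rw [hw]
    fin_cases i <;> simp
  rw [hz] at key
  simp only [mul_zero, sub_zero] at key
  rcases mul_eq_zero.1 key with h | h
  · exact absurd h S.be_ne
  · rcases mul_eq_zero.1 h with h | h
    · exact absurd h hub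
    · exact h

/-- the index of the `b`-points -/
def bi : Fin 11 → Fin 3 := ![0, 0, 0, 0, 0, 1, 1, 2, 2, 0, 0]

theorem pt_b (k : Fin 11) (h3 : 3 ≤ (k : ℕ)) (h8 : (k : ℕ) ≤ 8) :
    S.pt k 0 = S.x (bi k) ∧ S.pt k 1 ^ 2 = S.y (bi k) ^ 2 := by
  fin_cases k
  · exact absurd h3 (by norm_num)
  · exact absurd h3 (by norm_num)
  · exact absurd h3 (by norm_num)
  · exact ⟨rfl, rfl⟩
  · exact ⟨rfl, neg_sq (S.y 0)⟩
  · exact ⟨rfl, rfl⟩
  · exact ⟨rfl, neg_sq (S.y 1)⟩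
  · exact ⟨rfl, rfl⟩
  · exact ⟨rfl, neg_sq (S.y 2)⟩
  · exact absurd h8 (by norm_num)
  · exact absurd h8 (by norm_num)

theorem pt0 : S.pt 0 = ![4, 0] := rfl
theorem pt1 : S.pt 1 = ![S.a, 0] := rfl
theorem pt2 : S.pt 2 = ![-4 - S.a, 0] := rfl
theorem pt9 : S.pt 9 = ![0, 2] := rfl
theorem pt10 : S.pt 10 = ![0, -2] := rfl

theorem mem_all (k : Fin 11) : V ∈ Iord (S.pt k) (ph k) ∧ S.U ∈ Iord (S.pt k) (ph k) ∧
    S.Q ∈ Iord (S.pt k) (ch k) ∧ S.N ∈ Iord (S.pt k) (4 * ph k + ch k) := by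
  have hb : ∀ k : Fin 11, 3 ≤ (k : ℕ) → (k : ℕ) ≤ 8 → S.Q ∈ Iord (S.pt k) 1 ∧
      S.N ∈ Iord (S.pt k) 1 := by
    intro k h3 h8
    obtain ⟨h0, h1⟩ := S.pt_b k h3 h8
    exact ⟨mem_Iord_one.2 (S.eval_Q_b _ _ h0 h1), mem_Iord_one.2 (S.eval_N_b _ _ h0 h1)⟩
  have hboth : ∀ P : Fin 2 → ℂ, eval P S.U = 0 → eval P V = 0 → eval P Z = 0 →
      V ∈ Iord P 1 ∧ S.U ∈ Iord P 1 ∧ S.Q ∈ Iord P 2 ∧ S.N ∈ Iord P 6 := by
    intro P h1 h2 h3
    rw [← mem_Iord_one] at h1 h2 h3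
    exact ⟨h2, h1, S.mem_of_both h1 h2 h3⟩
  have z0 : ∀ (P : Fin 2 → ℂ) (f : MvPolynomial (Fin 2) ℂ), f ∈ Iord P 0 := mem_Iord_zero
  fin_cases k
  · refine hboth (S.pt 0) ?_ ?_ ?_
    · rw [eval_U, pt0]; simp
    · rw [eval_V, pt0]; simp
    · rw [eval_Z, pt0]; simp
  · have h1 : S.U ∈ Iord (S.pt 1) 1 := by
      rw [mem_Iord_one, eval_U, pt1]; simp
    have h2 : V ∈ Iord (S.pt 1) 1 := by
      rw [mem_Iord_one, eval_V, pt1]; simp
    exact ⟨h2, h1, S.mem_of_UV h1 h2⟩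
  · refine ⟨z0 _ _, z0 _ _, ?_, ?_⟩
    · change S.Q ∈ Iord (S.pt 2) 1
      rw [mem_Iord_one, eval_Q, eval_U, eval_V, eval_Z, pt2, al, be, ga]
      simp
      ring
    · change S.N ∈ Iord (S.pt 2) 1
      rw [mem_Iord_one, N, map_mul, eval_V, pt2]
      simp
  · exact ⟨z0 _ _, z0 _ _, hb 3 (by norm_num) (by norm_num)⟩
  · exact ⟨z0 _ _, z0 _ _, hb 4 (by norm_num) (by norm_num)⟩
  · exact ⟨z0 _ _, z0 _ _, hb 5 (by norm_num) (by norm_num)⟩
  · exact ⟨z0 _ _, z0 _ _, hb 6 (by norm_num) (by norm_num)⟩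
  · exact ⟨z0 _ _, z0 _ _, hb 7 (by norm_num) (by norm_num)⟩
  · exact ⟨z0 _ _, z0 _ _, hb 8 (by norm_num) (by norm_num)⟩
  · refine hboth (S.pt 9) ?_ ?_ ?_
    · rw [eval_U, pt9]; simp; ring
    · rw [eval_V, pt9]; simp
    · rw [eval_Z, pt9]; simp
  · refine hboth (S.pt 10) ?_ ?_ ?_
    · rw [eval_U, pt10]; simp; ring
    · rw [eval_V, pt10]; simp
    · rw [eval_Z, pt10]; simp

/-! ### Degrees -/

theorem deg_X_sub (i : Fin 2) (c : ℂ) : (X i - C c : MvPolynomial (Fin 2) ℂ).totalDegree ≤ 1 := by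
  refine (totalDegree_sub _ _).trans ?_
  rw [totalDegree_X, totalDegree_C]
  simp

theorem deg_C_mul (c : ℂ) (f : MvPolynomial (Fin 2) ℂ) :
    (C c * f).totalDegree ≤ f.totalDegree := by
  refine (totalDegree_mul _ _).trans ?_
  rw [totalDegree_C, zero_add]

theorem deg_U : S.U.totalDegree ≤ 2 := by
  rw [U]
  refine (totalDegree_sub _ _).trans (max_le ?_ ?_)
  · refine (totalDegree_mul _ _).trans ?_
    have := deg_X_sub 0 4
    have := deg_X_sub 0 S.a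
    omega
  · refine (deg_C_mul _ _).trans ?_
    rw [totalDegree_X_pow]

theorem deg_V : V.totalDegree ≤ 2 := by
  rw [V]
  refine (totalDegree_mul _ _).trans ?_
  rw [totalDegree_X, totalDegree_X]

theorem deg_Z : Z.totalDegree ≤ 2 := by
  rw [Z]
  refine (totalDegree_mul _ _).trans ?_
  rw [totalDegree_X]
  have := deg_X_sub 0 4
  omega

theorem deg_pow {f : MvPolynomial (Fin 2) ℂ} {d : ℕ} (h : f.totalDegree ≤ d) (n : ℕ) :
    (f ^ n).totalDegree ≤ n * d := (totalDegree_pow _ _).trans (Nat.mul_le_mul_left _ h)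

theorem deg_mul {f g : MvPolynomial (Fin 2) ℂ} {d e : ℕ} (h : f.totalDegree ≤ d)
    (h' : g.totalDegree ≤ e) : (f * g).totalDegree ≤ d + e :=
  (totalDegree_mul _ _).trans (Nat.add_le_add h h')

theorem deg_Q : S.Q.totalDegree ≤ 4 := by
  have hU := S.deg_U
  have hV := deg_V
  have hZ := deg_Z
  rw [Q]
  refine (totalDegree_add _ _).trans (max_le ((totalDegree_add _ _).trans (max_le ?_ ?_)) ?_)
  · exact (deg_C_mul _ _).trans (deg_pow hU 2)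
  · exact (deg_C_mul _ _).trans (deg_pow hV 2)
  · rw [mul_assoc]; exact (deg_C_mul _ _).trans (deg_mul hU hZ)

theorem deg_N : S.N.totalDegree ≤ 12 := by
  have hU := S.deg_U
  have hV := deg_V
  have hZ := deg_Z
  have h5 : S.N'.totalDegree ≤ 10 := by
    rw [N']
    refine (totalDegree_sub _ _).trans (max_le ((totalDegree_add _ _).trans (max_le
      ((totalDegree_sub _ _).trans (max_le ?_ ?_)) ?_)) ?_)
    · rw [totalDegree_neg, mul_assoc]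
      exact (deg_C_mul _ _).trans (deg_mul (deg_pow hV 4) hZ)
    · rw [mul_assoc]
      exact (deg_C_mul _ _).trans (deg_mul (deg_pow hV 4) hU)
    · rw [mul_assoc]
      exact (deg_C_mul _ _).trans (deg_mul (deg_pow hV 2) (deg_pow hU 3))
    · exact (deg_C_mul _ _).trans (deg_pow hU 5)
  rw [N]
  exact deg_mul hV h5

end Data

end Pool.Agent.H92.T3
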