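import Mathlib
import Pool.Agent.H92.T3.Ord

set_option autoImplicit false

namespace Pool.Agent.H92.T3

open Pool.Agent.H13 MvPolynomial

/-- leading coefficient in the second variable as a polynomial in the slope -/
noncomputable def lead (T j : ℕ) (g : MvPolynomial (Fin 2) ℂ) : Polynomial ℂ :=
  ∑ s ∈ g.support, if s 1 = j then Polynomial.C (coeff s g) *
    Polynomial.X ^ (T - s 0 - 4 * j) else 0

theorem eval_lead (T j : ℕ) (g : MvPolynomial (Fin 2) ℂ) (μ : ℂ) :
    (lead T j g).eval μ =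
      ∑ s ∈ g.support, if s 1 = j then coeff s g * μ ^ (T - s 0 - 4 * j) else 0 := by
  rw [lead, Polynomial.eval_finsetSum]
  refine Finset.sum_congr rfl fun s _ => ?_
  split_ifs <;> simp

theorem lead_ne {T j : ℕ} {g : MvPolynomial (Fin 2) ℂ} (hg : Reg 4 T j g) {t : Fin 2 →₀ ℕ}
    (ht : t ∈ g.support) (htj : t 1 = j) : lead T j g ≠ 0 := by
  intro h
  have h1 := congrArg (fun p => Polynomial.coeff p (T - t 0 - 4 * j)) h
  simp only [Polynomial.coeff_zero] at h1
  rw [lead, Polynomial.finsetSum_coeff, Finset.sum_eq_single t] at h1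
  · rw [if_pos htj, Polynomial.coeff_C_mul, Polynomial.coeff_X_pow, if_pos rfl, mul_one] at h1
    exact (mem_support_iff.1 ht) h1
  · intro s hs hst
    by_cases hsj : s 1 = j
    · rw [if_pos hsj, Polynomial.coeff_C_mul, Polynomial.coeff_X_pow, if_neg, mul_zero]
      intro he
      apply hst
      obtain ⟨h3, h4⟩ := hg s hs
      obtain ⟨h5, h6⟩ := hg t ht
      rw [hsj] at h3
      rw [htj] at h5
      ext i
      fin_cases i
      · simp; omega
      · simp; omega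
    · rw [if_neg hsj, Polynomial.coeff_zero]
  · intro hn; exact absurd ht hn

theorem ne_of_coeff_zero {p : Polynomial ℂ} (h : p.eval 0 ≠ 0) : p ≠ 0 := by
  rintro rfl
  simp at h

theorem alg_point {a m p : ℂ} (ha : a ≠ 0) (d0 : p ^ 2 - a - m * p ≠ 0)
    (y0 : 4 * m - (4 - a) * p ≠ 0) (q1 : p - 2 ≠ 0) (q2 : p + 2 ≠ 0) :
    ∃ x y : ℂ, x ≠ 0 ∧ y ≠ 0 ∧ (x - 4) * (x - a) - a * y ^ 2 = m * (x * y) ∧
      x * (x - 4) = p * (x * y) := by
  obtain ⟨y, hyD⟩ : ∃ y, y * (p ^ 2 - a - m * p) = 4 * m - (4 - a) * p :=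
    ⟨(4 * m - (4 - a) * p) / (p ^ 2 - a - m * p), div_mul_cancel₀ _ d0⟩
  have hxD : (4 + p * y) * (p ^ 2 - a - m * p) = a * ((p - 2) * (p + 2)) := by
    linear_combination p * hyD
  refine ⟨4 + p * y, y, ?_, ?_, ?_, ?_⟩
  · intro h
    rw [h, zero_mul] at hxD
    exact (mul_ne_zero ha (mul_ne_zero q1 q2)) hxD.symm
  · intro h
    rw [h, zero_mul] at hyD
    exact y0 hyD.symm
  · have key : p * (4 + p * y - a) - a * y - m * (4 + p * y) = 0 := by
      have : (p * (4 + p * y - a) - a * y - m * (4 + p * y)) * (p ^ 2 - a - m * p) = 0 := by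
        linear_combination (p - m) * hxD - a * hyD
      exact (mul_eq_zero.1 this).resolve_right d0
    linear_combination y * key
  · ring

/-- A nonzero polynomial and finitely many others with nonzero constant term have a common
nonzero. -/
theorem exists_avoid {f : Polynomial ℂ} (hf : f ≠ 0) (l : List (Polynomial ℂ))
    (hl : ∀ p ∈ l, p ≠ 0) : ∃ m : ℂ, m ≠ 0 ∧ f.eval m ≠ 0 ∧ ∀ p ∈ l, p.eval m ≠ 0 := by
  have hprod : l.prod ≠ 0 := by
    rw [Ne, List.prod_eq_zero_iff]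
    intro h
    exact hl 0 h rfl
  have hR : Polynomial.X * f * l.prod ≠ 0 :=
    mul_ne_zero (mul_ne_zero Polynomial.X_ne_zero hf) hprod
  obtain ⟨m, hm⟩ : ∃ m, (Polynomial.X * f * l.prod).eval m ≠ 0 := by
    by_contra hcon
    push Not at hcon
    exact hR (Polynomial.funext (by simpa using hcon))
  rw [Polynomial.eval_mul, Polynomial.eval_mul, Polynomial.eval_X] at hm
  refine ⟨m, left_ne_zero_of_mul (left_ne_zero_of_mul hm),
    right_ne_zero_of_mul (left_ne_zero_of_mul hm), fun p hp h0 => ?_⟩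
  apply right_ne_zero_of_mul hm
  obtain ⟨q, hq⟩ := List.dvd_prod hp
  rw [hq, Polynomial.eval_mul, h0, zero_mul]

theorem exists_slope {f : Polynomial ℂ} (hf : f ≠ 0) {a al be ga : ℂ} (hbe : be ≠ 0)
    (hga : ga ≠ 0) (h4a : 4 - a ≠ 0) (w : Fin 3 → ℂ) :
    ∃ m p : ℂ, m ≠ 0 ∧ f.eval m ≠ 0 ∧ ga * m * p = -(al * m ^ 2 + be) ∧
      p ^ 2 - a - m * p ≠ 0 ∧ 4 * m - (4 - a) * p ≠ 0 ∧ p - 2 ≠ 0 ∧ p + 2 ≠ 0 ∧
      ∀ i, 1 - w i * m ^ 2 ≠ 0 := by
  let A : Polynomial ℂ := Polynomial.C al * Polynomial.X ^ 2 + Polynomial.C be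
  have evA : ∀ m, A.eval m = al * m ^ 2 + be := by intro m; simp [A]
  let p2 : Polynomial ℂ := A ^ 2 - Polynomial.C (a * ga ^ 2) * Polynomial.X ^ 2 +
    Polynomial.C ga * Polynomial.X ^ 2 * A
  let p3 : Polynomial ℂ := Polynomial.C (4 * ga) * Polynomial.X ^ 2 + Polynomial.C (4 - a) * A
  let p4 : Polynomial ℂ := A - Polynomial.C (2 * ga) * Polynomial.X
  let p5 : Polynomial ℂ := A + Polynomial.C (2 * ga) * Polynomial.X
  let q : Fin 3 → Polynomial ℂ := fun i => 1 - Polynomial.C (w i) * Polynomial.X ^ 2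
  have e2 : ∀ m, p2.eval m = (al * m ^ 2 + be) ^ 2 - a * ga ^ 2 * m ^ 2 +
      ga * m ^ 2 * (al * m ^ 2 + be) := by
    intro m
    simp only [p2, Polynomial.eval_add, Polynomial.eval_sub, Polynomial.eval_mul,
      Polynomial.eval_pow, Polynomial.eval_C, Polynomial.eval_X, evA]
  have e3 : ∀ m, p3.eval m = 4 * ga * m ^ 2 + (4 - a) * (al * m ^ 2 + be) := by
    intro m
    simp only [p3, Polynomial.eval_add, Polynomial.eval_mul,
      Polynomial.eval_pow, Polynomial.eval_C, Polynomial.eval_X, evA]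
  have e4 : ∀ m, p4.eval m = (al * m ^ 2 + be) - 2 * ga * m := by
    intro m
    simp only [p4, Polynomial.eval_sub, Polynomial.eval_mul,
      Polynomial.eval_C, Polynomial.eval_X, evA]
  have e5 : ∀ m, p5.eval m = (al * m ^ 2 + be) + 2 * ga * m := by
    intro m
    simp only [p5, Polynomial.eval_add, Polynomial.eval_mul,
      Polynomial.eval_C, Polynomial.eval_X, evA]
  have e6 : ∀ i m, (q i).eval m = 1 - w i * m ^ 2 := by
    intro i m
    simp only [q, Polynomial.eval_sub, Polynomial.eval_mul, Polynomial.eval_one,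
      Polynomial.eval_pow, Polynomial.eval_C, Polynomial.eval_X]
  obtain ⟨m, m1, hm, hl⟩ := exists_avoid hf [p2, p3, p4, p5, q 0, q 1, q 2] (by
    intro p hp
    simp only [List.mem_cons, List.not_mem_nil, or_false] at hp
    rcases hp with rfl | rfl | rfl | rfl | rfl | rfl | rfl
    · apply ne_of_coeff_zero; rw [e2]; simpa using hbe
    · apply ne_of_coeff_zero; rw [e3]; simp [hbe, h4a]
    · apply ne_of_coeff_zero; rw [e4]; simpa using hbe
    · apply ne_of_coeff_zero; rw [e5]; simpa using hbe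
    · apply ne_of_coeff_zero; rw [e6]; simp
    · apply ne_of_coeff_zero; rw [e6]; simp
    · apply ne_of_coeff_zero; rw [e6]; simp)
  have m2 := hl p2 (by simp)
  have m3 := hl p3 (by simp)
  have m4 := hl p4 (by simp)
  have m5 := hl p5 (by simp)
  have m6 := hl (q 0) (by simp)
  have m7 := hl (q 1) (by simp)
  have m8 := hl (q 2) (by simp)
  rw [e2] at m2
  rw [e3] at m3
  rw [e4] at m4
  rw [e5] at m5
  rw [e6] at m6 m7 m8
  have hgm : ga * m ≠ 0 := mul_ne_zero hga m1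
  obtain ⟨p, hpm⟩ : ∃ p, ga * m * p = -(al * m ^ 2 + be) :=
    ⟨-(al * m ^ 2 + be) / (ga * m), mul_div_cancel₀ _ hgm⟩
  refine ⟨m, p, m1, hm, hpm, ?_, ?_, ?_, ?_, ?_⟩
  · intro h
    apply m2
    linear_combination (ga * m) ^ 2 * h + ((al * m ^ 2 + be) - ga * m * p + ga * m ^ 2) * hpm
  · intro h
    apply m3
    linear_combination (ga * m) * h + (4 - a) * hpm
  · intro h
    apply m5
    linear_combination -(ga * m) * h + hpm
  · intro h
    apply m4
    linear_combination -(ga * m) * h + hpm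
  · intro i
    fin_cases i
    · exact m6
    · exact m7
    · exact m8

namespace Data

variable (S : Data)

theorem h4a : (4 : ℂ) - S.a ≠ 0 := by
  intro h
  have ha := S.ha
  have h1 : S.a = 4 := by linear_combination -h
  rw [h1] at ha
  norm_num at ha

/-- the points of the quartic `Q = 0` with prescribed ratio -/
theorem exists_point {f : Polynomial ℂ} (hf : f ≠ 0) :
    ∃ (m : ℂ) (P : Fin 2 → ℂ), f.eval m ≠ 0 ∧ eval P V ≠ 0 ∧ eval P S.U = m * eval P V ∧
      eval P S.Q = 0 ∧ eval P S.N ≠ 0 := by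
  obtain ⟨m, p, m1, hfm, hpm, d0, y0, q1, q2, hw⟩ :=
    exists_slope hf (al := S.al) S.be_ne S.ga_ne S.h4a S.w
  obtain ⟨x, y, hx, hy, hU, hZ⟩ := alg_point S.a_ne d0 y0 q1 q2
  have eV : eval (![x, y] : Fin 2 → ℂ) V = x * y := by rw [eval_V]; rfl
  have eU : eval (![x, y] : Fin 2 → ℂ) S.U = m * (x * y) := by
    rw [eval_U, ← hU]; rfl
  have eZ : eval (![x, y] : Fin 2 → ℂ) Z = p * (x * y) := by
    rw [eval_Z, ← hZ]; rfl
  have eQ : eval (![x, y] : Fin 2 → ℂ) S.Q = 0 := by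
    rw [eval_Q, eV, eU, eZ]
    linear_combination (x * y) ^ 2 * hpm
  refine ⟨m, ![x, y], hfm, ?_, ?_, eQ, ?_⟩
  · rw [eV]; exact mul_ne_zero hx hy
  · rw [eU, eV]
  · intro hN
    have key := congrArg (eval (![x, y] : Fin 2 → ℂ)) S.UN
    simp only [map_mul, map_sub, map_pow, eval_C] at key
    rw [hN, eQ, eU, eV] at key
    have h1 : S.be * (x * y) ^ 7 * ((1 - S.w 0 * m ^ 2) * (1 - S.w 1 * m ^ 2) *
        (1 - S.w 2 * m ^ 2)) = 0 := by
      generalize x * y = t at *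
      linear_combination -key
    exact (mul_ne_zero (mul_ne_zero S.be_ne (pow_ne_zero 7 (mul_ne_zero hx hy)))
      (mul_ne_zero (mul_ne_zero (hw 0) (hw 1)) (hw 2))) h1

theorem Hm_ne_zero {T J : ℕ} {g : MvPolynomial (Fin 2) ℂ} (hg0 : g ≠ 0) (hg : Reg 4 T J g) :
    Hm 4 T J V S.U S.N S.Q g ≠ 0 := by
  obtain ⟨t, ht, hmax⟩ := Finset.exists_max_image g.support (fun s => s 1)
    (support_nonempty.2 hg0)
  have hjJ : t 1 ≤ J := (hg t ht).2
  have hreg : Reg 4 T (t 1) g := fun s hs => ⟨(hg s hs).1, hmax s hs⟩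
  rw [Hm_factor hjJ hmax]
  refine mul_ne_zero (pow_ne_zero _ S.Q_ne) ?_
  intro h0
  obtain ⟨m, P, h1, h2, h3, h4, h5⟩ := S.exists_point (lead_ne hreg ht rfl)
  have h6 := eval_Hm_zero (N := S.N) m hreg h4 h3
  rw [h0, map_zero, ← eval_lead] at h6
  exact (mul_ne_zero (mul_ne_zero (pow_ne_zero _ h2) (pow_ne_zero _ h5)) h1) h6.symm

end Data

end Pool.Agent.H92.T3
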