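import Mathlib
import Pool.Agent.H13.T1
import Pool.Agent.H92.T3.Nonzero

set_option autoImplicit false

namespace Pool.Agent.H92.T3

open Pool.Agent.H13 MvPolynomial

theorem mult_one {P : Fin 2 → ℂ} {F : MvPolynomial (Fin 2) ℂ} (h0 : eval P F = 0) (i : Fin 2)
    (h1 : eval P (pderiv i F) ≠ 0) : mult P F = 1 := by
  have hF : F ≠ 0 := by
    rintro rfl
    rw [map_zero, map_zero] at h1
    exact h1 rfl
  have h2 : 1 ≤ mult P F := (mem_Iord_iff_le_mult hF).1 (mem_Iord_one.2 h0)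
  by_contra hne
  have h3 : F ∈ Iord P 2 := (mem_Iord_iff_le_mult hF).2 (by omega)
  exact h1 (mem_Iord_one.1 (pderiv_mem_Iord i h3))

theorem mult_ite {P : Fin 2 → ℂ} {F : MvPolynomial (Fin 2) ℂ} (i : Fin 2) (n : ℕ)
    (h : (n = 1 ∧ eval P F = 0 ∧ eval P (pderiv i F) ≠ 0) ∨ (n = 0 ∧ eval P F ≠ 0)) :
    mult P F = n := by
  rcases h with ⟨rfl, h0, h1⟩ | ⟨rfl, h0⟩
  · exact mult_one h0 i h1
  · refine mult_eq_zero ?_ h0
    rintro rfl
    rw [map_zero] at h0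
    exact h0 rfl

theorem deg_ge_one {F : MvPolynomial (Fin 2) ℂ} (i : Fin 2) (h : pderiv i F ≠ 0) :
    1 ≤ F.totalDegree := by
  by_contra hlt
  have h0 : F.totalDegree = 0 := by omega
  rw [totalDegree_eq_zero_iff_eq_C] at h0
  rw [h0, pderiv_C] at h
  exact h rfl

theorem deg_ge_two {F : MvPolynomial (Fin 2) ℂ} (i j : Fin 2) (h : pderiv j (pderiv i F) ≠ 0) :
    2 ≤ F.totalDegree := by
  have h1 := deg_ge_one j h
  have h2 := totalDegree_pderiv_le i F
  omega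

theorem p01 : pderiv (0 : Fin 2) (X 1 : MvPolynomial (Fin 2) ℂ) = 0 := pderiv_X_of_ne (by decide)
theorem p10 : pderiv (1 : Fin 2) (X 0 : MvPolynomial (Fin 2) ℂ) = 0 := pderiv_X_of_ne (by decide)

/-- the values of `V / U` at the `b`-points -/
noncomputable def Data.Xs (S : Data) : Fin 11 → ℂ :=
  ![0, 0, 0, S.Xr 0, -S.Xr 0, S.Xr 1, -S.Xr 1, S.Xr 2, -S.Xr 2, 0, 0]

namespace Data

variable (S : Data)

theorem Xs_sq (k : Fin 11) (h3 : 3 ≤ (k : ℕ)) (h8 : (k : ℕ) ≤ 8) : S.Xs k ^ 2 = S.w (bi k) := by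
  fin_cases k
  · exact absurd h3 (by decide)
  · exact absurd h3 (by decide)
  · exact absurd h3 (by decide)
  · rfl
  · exact neg_sq (S.Xr 0)
  · rfl
  · exact neg_sq (S.Xr 1)
  · rfl
  · exact neg_sq (S.Xr 2)
  · exact absurd h8 (by decide)
  · exact absurd h8 (by decide)

theorem Xs_ne (k : Fin 11) (h3 : 3 ≤ (k : ℕ)) (h8 : (k : ℕ) ≤ 8) : S.Xs k ≠ 0 := by
  intro h
  have h1 := S.Xs_sq k h3 h8
  rw [h] at h1
  have h2 : S.w (bi k) ≠ 0 := pow_ne_zero 2 (S.Xr_ne _)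
  apply h2
  rw [← h1]
  norm_num

theorem eq_of_Xs {k l : Fin 11} (hk3 : 3 ≤ (k : ℕ)) (hk8 : (k : ℕ) ≤ 8) (hl3 : 3 ≤ (l : ℕ))
    (hl8 : (l : ℕ) ≤ 8) (h : S.Xs k = S.Xs l) : k = l := by
  have hw : bi k = bi l := by
    apply S.w_inj
    rw [← S.Xs_sq k hk3 hk8, ← S.Xs_sq l hl3 hl8, h]
  have hneg : ∀ i : Fin 3, S.Xr i ≠ - S.Xr i := by
    intro i he
    have : (2 : ℂ) * S.Xr i = 0 := by linear_combination he
    exact S.Xr_ne i (by simpa using this)
  have hneg' : ∀ i : Fin 3, - S.Xr i ≠ S.Xr i := fun i he => hneg i he.symm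
  have hkl : k = l ∨ (k, l) ∈ [((3 : Fin 11), (4 : Fin 11)), (4, 3), (5, 6), (6, 5), (7, 8),
      (8, 7)] := by
    clear h hneg hneg'
    revert k l
    decide
  rcases hkl with h1 | h1
  · exact h1
  · exfalso
    simp only [List.mem_cons, Prod.mk.injEq, List.not_mem_nil, or_false] at h1
    rcases h1 with ⟨rfl, rfl⟩ | ⟨rfl, rfl⟩ | ⟨rfl, rfl⟩ | ⟨rfl, rfl⟩ | ⟨rfl, rfl⟩ | ⟨rfl, rfl⟩
    · exact hneg 0 h
    · exact hneg' 0 h
    · exact hneg 1 h
    · exact hneg' 1 h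
    · exact hneg 2 h
    · exact hneg' 2 h

/-- value of `V - t U` at a `b`-point -/
theorem eval_kap_b (t : ℂ) (k : Fin 11) (h3 : 3 ≤ (k : ℕ)) (h8 : (k : ℕ) ≤ 8) :
    eval (S.pt k) (V - C t * S.U) = S.ub (bi k) * (S.Xs k - t) := by
  obtain ⟨h0, h1⟩ := S.pt_b k h3 h8
  have hu := S.eval_U_b _ _ h0 h1
  have hv : eval (S.pt k) V = S.ub (bi k) * S.Xs k := by
    rw [eval_V]
    have hub : ∀ i, S.ub i * S.Xr i = S.x i * S.y i := by
      intro i
      rw [Xr, mul_div_cancel₀ _ (S.ub_ne i), vb]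
    fin_cases k
    · exact absurd h3 (by decide)
    · exact absurd h3 (by decide)
    · exact absurd h3 (by decide)
    · exact (hub 0).symm
    · change S.x 0 * (-S.y 0) = S.ub 0 * (-S.Xr 0)
      rw [mul_neg, mul_neg, hub]
    · exact (hub 1).symm
    · change S.x 1 * (-S.y 1) = S.ub 1 * (-S.Xr 1)
      rw [mul_neg, mul_neg, hub]
    · exact (hub 2).symm
    · change S.x 2 * (-S.y 2) = S.ub 2 * (-S.Xr 2)
      rw [mul_neg, mul_neg, hub]
    · exact absurd h8 (by decide)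
    · exact absurd h8 (by decide)
  rw [map_sub, map_mul, eval_C, hu, hv]
  ring

theorem pderiv1_kap (t : ℂ) :
    pderiv 1 (V - C t * S.U) = X 0 + C (2 * t * S.a) * X 1 := by
  rw [V, U]
  simp only [map_sub, pderiv_mul, pderiv_C, pderiv_pow, p10, pderiv_X_self, C_mul, c2]
  push_cast
  ring

theorem pderiv0_kap (t : ℂ) :
    pderiv 0 (V - C t * S.U) = X 1 - C t * (2 * X 0 - C 4 - C S.a) := by
  rw [V, U]
  simp only [map_sub, pderiv_mul, pderiv_C, pderiv_pow, p01, pderiv_X_self]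
  push_cast
  ring

theorem deg_kap (t : ℂ) : (V - C t * S.U).totalDegree = 2 := by
  apply le_antisymm
  · refine (totalDegree_sub _ _).trans (max_le deg_V ((deg_C_mul _ _).trans S.deg_U))
  · apply deg_ge_two 1 0
    rw [pderiv1_kap, map_add, pderiv_X_self, pderiv_C_mul, p01]
    simp

/-- the derivative at the `b`-points -/
theorem der_ne (i : Fin 3) :
    (S.x i - 4) * (S.x i - S.a) + S.a * S.y i ^ 2 ≠ 0 := by
  intro h
  have ha := S.ha
  have hx := S.hx i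
  have hy := S.hy i
  generalize S.a = a at *
  generalize S.x i = x at *
  generalize S.y i = y at *
  have key : ((x - 4) * (x - a) + a * y ^ 2) * ((376339 / 10528940 : ℂ) * a * x ^ 2 + (-128121 / 2632235 : ℂ) * a * x + (-306399 / 42115760 : ℂ) * a + (292257 / 2632235 : ℂ) * x ^ 2 + (-423052 / 2632235 : ℂ) * x + (-535957 / 10528940 : ℂ)) = 1 := by
    linear_combination ((376339 / 10528940 : ℂ) * a ^ 2 * x ^ 2 + (-128121 / 2632235 : ℂ) * a ^ 2 * x + (-306399 / 42115760 : ℂ) * a ^ 2 + (292257 / 2632235 : ℂ) * a * x ^ 2 + (-423052 / 2632235 : ℂ) * a * x + (-535957 / 10528940 : ℂ) * a) * hy + ((-1129017 / 42115760 : ℂ) * a ^ 2 * x + (1161113 / 42115760 : ℂ) * a ^ 2 + (-626149 / 8423152 : ℂ) * a * x + (472439 / 10528940 : ℂ) * a + (292257 / 10528940 : ℂ) * x + (-79604 / 526447 : ℂ)) * hx + ((192354 / 526447 : ℂ) * x ^ 2 + (-174640 / 526447 : ℂ) * x + (-208031 / 1052894 : ℂ)) * ha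
  rw [h] at key
  norm_num at key

theorem der_b (k : Fin 11) (h3 : 3 ≤ (k : ℕ)) (h8 : (k : ℕ) ≤ 8) :
    eval (S.pt k) (pderiv 1 (V - C (S.Xs k) * S.U)) ≠ 0 := by
  rw [pderiv1_kap]
  simp only [map_add, map_mul, eval_X, eval_C]
  have key : ∀ (i : Fin 3) (e : ℂ), e ^ 2 = 1 →
      S.x i + 2 * (e * S.Xr i) * S.a * (e * S.y i) ≠ 0 := by
    intro i e he h
    have hub := S.ub_ne i
    have h1 : S.ub i * S.Xr i = S.x i * S.y i := by
      rw [Xr, mul_div_cancel₀ _ hub, vb]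
    have h2 : S.x i * ((S.x i - 4) * (S.x i - S.a) + S.a * S.y i ^ 2) = 0 := by
      have h3 : S.ub i = (S.x i - 4) * (S.x i - S.a) - S.a * S.y i ^ 2 := rfl
      linear_combination S.ub i * h - S.x i * h3 - (2 * e ^ 2 * S.a * S.y i) * h1 -
        (2 * S.a * S.x i * S.y i ^ 2) * he
    exact (mul_ne_zero (S.x_ne i) (S.der_ne i)) h2
  have kp : ∀ i : Fin 3, S.x i + 2 * S.Xr i * S.a * S.y i ≠ 0 := by
    intro i
    have := key i 1 (by norm_num)
    rwa [one_mul, one_mul] at this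
  have km : ∀ i : Fin 3, S.x i + 2 * (-S.Xr i) * S.a * (-S.y i) ≠ 0 := by
    intro i
    have := key i (-1) (by norm_num)
    rwa [neg_one_mul, neg_one_mul] at this
  fin_cases k
  · exact absurd h3 (by decide)
  · exact absurd h3 (by decide)
  · exact absurd h3 (by decide)
  · exact kp 0
  · exact km 0
  · exact kp 1
  · exact km 1
  · exact kp 2
  · exact km 2
  · exact absurd h8 (by decide)
  · exact absurd h8 (by decide)

end Data

end Pool.Agent.H92.T3
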