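import Mathlib
import Pool.Agent.H92.T3.Mul

set_option autoImplicit false

namespace Pool.Agent.H92.T3

open Pool.Agent.H13 MvPolynomial

/-- the multiplicities of the class at the eleven points -/
def AA (D : Fin 7 → ℝ) : Fin 11 → ℝ :=
  ![D 0, D 1, D 2, D 3, D 3, D 4, D 4, D 5, D 5, D 6, D 6]

namespace Data

variable (S : Data)

/-- intersection number of the class with a plane curve -/
noncomputable def II (d : ℝ) (D : Fin 7 → ℝ) (G : MvPolynomial (Fin 2) ℂ) : ℝ :=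
  d * G.totalDegree - ∑ k, AA D k * mult (S.pt k) G

theorem II_mul (d : ℝ) (D : Fin 7 → ℝ) {F G : MvPolynomial (Fin 2) ℂ} (hF : F ≠ 0) (hG : G ≠ 0) :
    S.II d D (F * G) = S.II d D F + S.II d D G := by
  have h1 : ∀ k, mult (S.pt k) (F * G) = mult (S.pt k) F + mult (S.pt k) G :=
    fun k => mult_mul hF hG
  simp only [II, h1, totalDegree_mul_of_isDomain hF hG]
  push_cast
  simp only [mul_add, Finset.sum_add_distrib]
  ring

theorem II_one (d : ℝ) (D : Fin 7 → ℝ) : S.II d D 1 = 0 := by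
  have h := S.II_mul d D (one_ne_zero : (1 : MvPolynomial (Fin 2) ℂ) ≠ 0) one_ne_zero
  rw [mul_one] at h
  linarith

theorem II_pow (d : ℝ) (D : Fin 7 → ℝ) {F : MvPolynomial (Fin 2) ℂ} (hF : F ≠ 0) (n : ℕ) :
    S.II d D (F ^ n) = n * S.II d D F := by
  induction n with
  | zero => rw [pow_zero, II_one]; simp
  | succ n ih =>
    rw [pow_succ, S.II_mul d D (pow_ne_zero n hF) hF, ih]
    push_cast
    ring

theorem II_prod (d : ℝ) (D : Fin 7 → ℝ) {ι : Type*} (s : Finset ι)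
    (F : ι → MvPolynomial (Fin 2) ℂ) (hF : ∀ i ∈ s, F i ≠ 0) :
    S.II d D (∏ i ∈ s, F i) = ∑ i ∈ s, S.II d D (F i) := by
  classical
  induction s using Finset.induction_on with
  | empty => simp [II_one]
  | insert i s hi ih =>
    rw [Finset.prod_insert hi, Finset.sum_insert hi, S.II_mul d D (hF i (by simp))
      (Finset.prod_ne_zero_iff.2 fun j hj => hF j (Finset.mem_insert_of_mem hj)),
      ih fun j hj => hF j (Finset.mem_insert_of_mem hj)]

theorem II_eq (d : ℝ) (D : Fin 7 → ℝ) (G : MvPolynomial (Fin 2) ℂ) (e : ℕ) (μ : Fin 11 → ℕ)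
    (h : G.totalDegree = e) (hμ : ∀ k, mult (S.pt k) G = μ k) :
    S.II d D G = d * e - ∑ k, AA D k * μ k := by
  rw [II, h]
  simp only [hμ]

theorem sum_AA (D : Fin 7 → ℝ) (f : Fin 11 → ℝ) : ∑ k, AA D k * f k =
    D 0 * f 0 + D 1 * f 1 + D 2 * f 2 + D 3 * (f 3 + f 4) + D 4 * (f 5 + f 6) +
      D 5 * (f 7 + f 8) + D 6 * (f 9 + f 10) := by
  simp only [Fin.sum_univ_succ, Fin.sum_univ_zero, AA]
  simp
  ring

/-! ### The multiplicities of the factors -/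

theorem mult_kap (l : Fin 11) (h3 : 3 ≤ (l : ℕ)) (h8 : (l : ℕ) ≤ 8) (k : Fin 11) :
    mult (S.pt k) (V - C (S.Xs l) * S.U) = ph k + if k = l then 1 else 0 := by
  have ht := S.Xs_ne l h3 h8
  have hane := S.a_ne
  have hl : ∀ k : Fin 11, (k : ℕ) < 3 ∨ 8 < (k : ℕ) → (if k = l then 1 else 0) = 0 := by
    intro k hk
    rw [if_neg]
    rintro rfl
    omega
  have hb : ∀ k : Fin 11, 3 ≤ (k : ℕ) → (k : ℕ) ≤ 8 → ph k = 0 →
      mult (S.pt k) (V - C (S.Xs l) * S.U) = ph k + if k = l then 1 else 0 := by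
    intro k hk3 hk8 hk
    rw [hk, zero_add]
    have he := S.eval_kap_b (S.Xs l) k hk3 hk8
    by_cases hkl : k = l
    · rw [if_pos hkl]
      refine mult_one ?_ 1 ?_
      · rw [he, hkl, sub_self, mul_zero]
      · rw [hkl]; exact S.der_b l h3 h8
    · rw [if_neg hkl]
      refine mult_ite 1 0 (Or.inr ⟨rfl, ?_⟩)
      rw [he]
      refine mul_ne_zero (S.ub_ne _) (sub_ne_zero.2 fun h => hkl (S.eq_of_Xs hk3 hk8 h3 h8 h))
  have hone : ∀ P : Fin 2 → ℂ, P 0 * P 1 = 0 → (P 0 - 4) * (P 0 - S.a) - S.a * P 1 ^ 2 = 0 →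
      P 0 + 2 * S.Xs l * S.a * P 1 ≠ 0 → mult P (V - C (S.Xs l) * S.U) = 1 := by
    intro P h1 h2 h4
    refine mult_one ?_ 1 ?_
    · rw [map_sub, map_mul, eval_V, eval_U, h1, h2, mul_zero, sub_zero]
    · rw [pderiv1_kap]
      simpa using h4
  have e2 : (2 : ℂ) * S.Xs l * S.a ≠ 0 := mul_ne_zero (mul_ne_zero two_ne_zero ht) hane
  fin_cases k
  · change mult (S.pt 0) _ = 1 + if (0 : Fin 11) = l then 1 else 0
    rw [hl 0 (Or.inl (by decide)), hone (S.pt 0)]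
    · rw [pt0]; simp
    · rw [pt0]; simp
    · rw [pt0]; simp
  · change mult (S.pt 1) _ = 1 + if (1 : Fin 11) = l then 1 else 0
    rw [hl 1 (Or.inl (by decide)), hone (S.pt 1)]
    · rw [pt1]; simp
    · rw [pt1]; simp
    · rw [pt1]; simpa using hane
  · change mult (S.pt 2) _ = 0 + if (2 : Fin 11) = l then 1 else 0
    rw [hl 2 (Or.inl (by decide)), add_zero]
    refine mult_ite 1 0 (Or.inr ⟨rfl, ?_⟩)
    rw [map_sub, map_mul, eval_V, eval_U, eval_C, pt2]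
    have hga := S.ga_ne
    have h8 : (8 : ℂ) + S.a ≠ 0 := by
      intro h
      have h1 : S.a = -8 := by linear_combination h
      have := S.ha
      rw [h1] at this
      norm_num at this
    have e : -(S.Xs l * ((8 + S.a) * (2 * (2 + S.a)))) ≠ 0 := by
      refine neg_ne_zero.2 (mul_ne_zero ht (mul_ne_zero h8 (mul_ne_zero two_ne_zero ?_)))
      intro h
      apply hga
      rw [ga]
      linear_combination 2 * h
    intro h
    apply e
    simp only [Matrix.cons_val_zero, Matrix.cons_val_one] at h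
    linear_combination h
  · exact hb 3 (by decide) (by decide) rfl
  · exact hb 4 (by decide) (by decide) rfl
  · exact hb 5 (by decide) (by decide) rfl
  · exact hb 6 (by decide) (by decide) rfl
  · exact hb 7 (by decide) (by decide) rfl
  · exact hb 8 (by decide) (by decide) rfl
  · change mult (S.pt 9) _ = 1 + if (9 : Fin 11) = l then 1 else 0
    rw [hl 9 (Or.inr (by decide)), hone (S.pt 9)]
    · rw [pt9]; simp
    · rw [pt9]; simp; ring
    · rw [pt9]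
      simpa using ⟨ht, hane⟩
  · change mult (S.pt 10) _ = 1 + if (10 : Fin 11) = l then 1 else 0
    rw [hl 10 (Or.inr (by decide)), hone (S.pt 10)]
    · rw [pt10]; simp
    · rw [pt10]; simp; ring
    · rw [pt10]
      simpa using ⟨ht, hane⟩

theorem II_kap (d : ℝ) (D : Fin 7 → ℝ) (l : Fin 11) (h3 : 3 ≤ (l : ℕ)) (h8 : (l : ℕ) ≤ 8) :
    S.II d D (V - C (S.Xs l) * S.U) = 2 * d - D 0 - D 1 - 2 * D 6 - AA D l := by
  rw [S.II_eq d D _ 2 _ (S.deg_kap _) (S.mult_kap l h3 h8)]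
  push_cast
  simp only [mul_add, Finset.sum_add_distrib]
  rw [sum_AA D (fun k => (ph k : ℝ))]
  have e : ∑ k, AA D k * (if k = l then (1 : ℝ) else 0) = AA D l := by simp
  rw [e]
  simp [ph]
  ring

theorem L7_b (k : Fin 11) (h3 : 3 ≤ (k : ℕ)) (h8 : (k : ℕ) ≤ 8) :
    eval (S.pt k) L7 ≠ 0 ∧ eval (S.pt k) L8 ≠ 0 := by
  have hw := S.w_ne_X7 (bi k)
  have hs := S.Xs_sq k h3 h8
  have key : ∀ (p : MvPolynomial (Fin 2) ℂ) (t : ℂ), p ∣ V - C t * S.U → t ^ 2 = S.X7 ^ 2 →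
      eval (S.pt k) p ≠ 0 := by
    intro p t hp ht h0
    obtain ⟨q, hq⟩ := hp
    have h1 := congrArg (eval (S.pt k)) hq
    rw [S.eval_kap_b t k h3 h8, map_mul, h0, zero_mul] at h1
    have h2 : S.Xs k = t := by
      have := (mul_eq_zero.1 h1).resolve_left (S.ub_ne _)
      linear_combination this
    apply hw
    rw [← hs, h2, ht]
  exact ⟨key L7 S.X7 S.dvd_V7 rfl, key L8 (-S.X7) S.dvd_V8 (neg_sq _)⟩

theorem eval_L7 (P : Fin 2 → ℂ) : eval P L7 = P 0 + 2 * P 1 - 4 := by simp [L7]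
theorem eval_L8 (P : Fin 2 → ℂ) : eval P L8 = P 0 - 2 * P 1 - 4 := by simp [L8]

theorem pderiv_L7 : pderiv 0 L7 = 1 := by
  rw [L7]
  simp only [map_sub, map_add, pderiv_C_mul, p01, pderiv_X_self, pderiv_C]
  ring

theorem pderiv_L8 : pderiv 0 L8 = 1 := by
  rw [L8]
  simp only [map_sub, pderiv_C_mul, p01, pderiv_X_self, pderiv_C]
  ring

theorem deg_L7 : L7.totalDegree = 1 := by
  apply le_antisymm
  · rw [L7]
    refine (totalDegree_sub _ _).trans (max_le ((totalDegree_add _ _).trans (max_le ?_ ?_)) ?_)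
    · rw [totalDegree_X]
    · refine (deg_C_mul _ _).trans ?_
      rw [totalDegree_X]
    · rw [totalDegree_C]; exact Nat.zero_le _
  · apply deg_ge_one 0
    rw [pderiv_L7]; exact one_ne_zero

theorem deg_L8 : L8.totalDegree = 1 := by
  apply le_antisymm
  · rw [L8]
    refine (totalDegree_sub _ _).trans (max_le ((totalDegree_sub _ _).trans (max_le ?_ ?_)) ?_)
    · rw [totalDegree_X]
    · refine (deg_C_mul _ _).trans ?_
      rw [totalDegree_X]
    · rw [totalDegree_C]; exact Nat.zero_le _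
  · apply deg_ge_one 0
    rw [pderiv_L8]; exact one_ne_zero

theorem a_ne4 : S.a - 4 ≠ 0 := by
  intro h
  apply S.h4a
  linear_combination -h

theorem a_ne8 : -4 - S.a - 4 ≠ 0 := by
  intro h
  have h1 : S.a = -8 := by linear_combination -h
  have := S.ha
  rw [h1] at this
  norm_num at this

theorem a_ne4' : -4 - S.a ≠ 0 := S.al_ne

theorem mult_L7 (k : Fin 11) :
    mult (S.pt k) L7 = (![1, 0, 0, 0, 0, 0, 0, 0, 0, 1, 0] : Fin 11 → ℕ) k := by
  have h1 : ∀ P : Fin 2 → ℂ, eval P (pderiv 0 L7) ≠ 0 := by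
    intro P
    rw [pderiv_L7, map_one]
    exact one_ne_zero
  have hb : ∀ k : Fin 11, 3 ≤ (k : ℕ) → (k : ℕ) ≤ 8 → mult (S.pt k) L7 = 0 := fun k h3 h8 =>
    mult_ite 0 0 (Or.inr ⟨rfl, (S.L7_b k h3 h8).1⟩)
  fin_cases k
  · refine mult_ite 0 1 (Or.inl ⟨rfl, ?_, h1 _⟩)
    change eval (S.pt 0) L7 = 0
    rw [eval_L7, pt0]; simp
  · refine mult_ite 0 0 (Or.inr ⟨rfl, ?_⟩)
    change eval (S.pt 1) L7 ≠ 0
    rw [eval_L7, pt1]
    simpa using S.a_ne4
  · refine mult_ite 0 0 (Or.inr ⟨rfl, ?_⟩)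
    change eval (S.pt 2) L7 ≠ 0
    rw [eval_L7, pt2]
    simpa using S.a_ne8
  · exact hb 3 (by decide) (by decide)
  · exact hb 4 (by decide) (by decide)
  · exact hb 5 (by decide) (by decide)
  · exact hb 6 (by decide) (by decide)
  · exact hb 7 (by decide) (by decide)
  · exact hb 8 (by decide) (by decide)
  · refine mult_ite 0 1 (Or.inl ⟨rfl, ?_, h1 _⟩)
    change eval (S.pt 9) L7 = 0
    rw [eval_L7, pt9]; simp; norm_num
  · refine mult_ite 0 0 (Or.inr ⟨rfl, ?_⟩)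
    change eval (S.pt 10) L7 ≠ 0
    rw [eval_L7, pt10]; simp; norm_num

theorem mult_L8 (k : Fin 11) :
    mult (S.pt k) L8 = (![1, 0, 0, 0, 0, 0, 0, 0, 0, 0, 1] : Fin 11 → ℕ) k := by
  have h1 : ∀ P : Fin 2 → ℂ, eval P (pderiv 0 L8) ≠ 0 := by
    intro P
    rw [pderiv_L8, map_one]
    exact one_ne_zero
  have hb : ∀ k : Fin 11, 3 ≤ (k : ℕ) → (k : ℕ) ≤ 8 → mult (S.pt k) L8 = 0 := fun k h3 h8 =>
    mult_ite 0 0 (Or.inr ⟨rfl, (S.L7_b k h3 h8).2⟩)
  fin_cases k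
  · refine mult_ite 0 1 (Or.inl ⟨rfl, ?_, h1 _⟩)
    change eval (S.pt 0) L8 = 0
    rw [eval_L8, pt0]; simp
  · refine mult_ite 0 0 (Or.inr ⟨rfl, ?_⟩)
    change eval (S.pt 1) L8 ≠ 0
    rw [eval_L8, pt1]
    simpa using S.a_ne4
  · refine mult_ite 0 0 (Or.inr ⟨rfl, ?_⟩)
    change eval (S.pt 2) L8 ≠ 0
    rw [eval_L8, pt2]
    simpa using S.a_ne8
  · exact hb 3 (by decide) (by decide)
  · exact hb 4 (by decide) (by decide)
  · exact hb 5 (by decide) (by decide)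
  · exact hb 6 (by decide) (by decide)
  · exact hb 7 (by decide) (by decide)
  · exact hb 8 (by decide) (by decide)
  · refine mult_ite 0 0 (Or.inr ⟨rfl, ?_⟩)
    change eval (S.pt 9) L8 ≠ 0
    rw [eval_L8, pt9]; simp; norm_num
  · refine mult_ite 0 1 (Or.inl ⟨rfl, ?_, h1 _⟩)
    change eval (S.pt 10) L8 = 0
    rw [eval_L8, pt10]; simp; norm_num

theorem mult_X0 (k : Fin 11) :
    mult (S.pt k) (X 0) = (![0, 0, 0, 0, 0, 0, 0, 0, 0, 1, 1] : Fin 11 → ℕ) k := by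
  have h1 : ∀ P : Fin 2 → ℂ, eval P (pderiv 0 (X 0 : MvPolynomial (Fin 2) ℂ)) ≠ 0 := by
    intro P
    rw [pderiv_X_self, map_one]
    exact one_ne_zero
  have hb : ∀ k : Fin 11, 3 ≤ (k : ℕ) → (k : ℕ) ≤ 8 →
      mult (S.pt k) (X 0 : MvPolynomial (Fin 2) ℂ) = 0 := fun k h3 h8 =>
    mult_ite 0 0 (Or.inr ⟨rfl, by rw [eval_X, (S.pt_b k h3 h8).1]; exact S.x_ne _⟩)
  fin_cases k
  · refine mult_ite 0 0 (Or.inr ⟨rfl, ?_⟩)
    change eval (S.pt 0) (X 0) ≠ 0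
    rw [eval_X, pt0]; simp
  · refine mult_ite 0 0 (Or.inr ⟨rfl, ?_⟩)
    change eval (S.pt 1) (X 0) ≠ 0
    rw [eval_X, pt1]
    simpa using S.a_ne
  · refine mult_ite 0 0 (Or.inr ⟨rfl, ?_⟩)
    change eval (S.pt 2) (X 0) ≠ 0
    rw [eval_X, pt2]
    simpa using S.a_ne4'
  · exact hb 3 (by decide) (by decide)
  · exact hb 4 (by decide) (by decide)
  · exact hb 5 (by decide) (by decide)
  · exact hb 6 (by decide) (by decide)
  · exact hb 7 (by decide) (by decide)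
  · exact hb 8 (by decide) (by decide)
  · refine mult_ite 0 1 (Or.inl ⟨rfl, ?_, h1 _⟩)
    change eval (S.pt 9) (X 0) = 0
    rw [eval_X, pt9]; simp
  · refine mult_ite 0 1 (Or.inl ⟨rfl, ?_, h1 _⟩)
    change eval (S.pt 10) (X 0) = 0
    rw [eval_X, pt10]; simp

theorem mult_X1 (k : Fin 11) :
    mult (S.pt k) (X 1) = (![1, 1, 1, 0, 0, 0, 0, 0, 0, 0, 0] : Fin 11 → ℕ) k := by
  have h1 : ∀ P : Fin 2 → ℂ, eval P (pderiv 1 (X 1 : MvPolynomial (Fin 2) ℂ)) ≠ 0 := by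
    intro P
    rw [pderiv_X_self, map_one]
    exact one_ne_zero
  have hb : ∀ k : Fin 11, 3 ≤ (k : ℕ) → (k : ℕ) ≤ 8 →
      mult (S.pt k) (X 1 : MvPolynomial (Fin 2) ℂ) = 0 := fun k h3 h8 =>
    mult_ite 0 0 (Or.inr ⟨rfl, by
      rw [eval_X]
      intro h
      have h2 := (S.pt_b k h3 h8).2
      rw [h] at h2
      exact (pow_ne_zero 2 (S.y_ne (bi k))) (by rw [← h2]; norm_num)⟩)
  fin_cases k
  · refine mult_ite 1 1 (Or.inl ⟨rfl, ?_, h1 _⟩)
    change eval (S.pt 0) (X 1) = 0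
    rw [eval_X, pt0]; simp
  · refine mult_ite 1 1 (Or.inl ⟨rfl, ?_, h1 _⟩)
    change eval (S.pt 1) (X 1) = 0
    rw [eval_X, pt1]; simp
  · refine mult_ite 1 1 (Or.inl ⟨rfl, ?_, h1 _⟩)
    change eval (S.pt 2) (X 1) = 0
    rw [eval_X, pt2]; simp
  · exact hb 3 (by decide) (by decide)
  · exact hb 4 (by decide) (by decide)
  · exact hb 5 (by decide) (by decide)
  · exact hb 6 (by decide) (by decide)
  · exact hb 7 (by decide) (by decide)
  · exact hb 8 (by decide) (by decide)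
  · refine mult_ite 1 0 (Or.inr ⟨rfl, ?_⟩)
    change eval (S.pt 9) (X 1) ≠ 0
    rw [eval_X, pt9]; simp
  · refine mult_ite 1 0 (Or.inr ⟨rfl, ?_⟩)
    change eval (S.pt 10) (X 1) ≠ 0
    rw [eval_X, pt10]; simp

theorem II_L7 (d : ℝ) (D : Fin 7 → ℝ) : S.II d D L7 = d - D 0 - D 6 := by
  rw [S.II_eq d D _ 1 _ deg_L7 S.mult_L7, sum_AA D (fun k =>
    (((![1, 0, 0, 0, 0, 0, 0, 0, 0, 1, 0] : Fin 11 → ℕ) k : ℕ) : ℝ))]
  simp
  ring

theorem II_L8 (d : ℝ) (D : Fin 7 → ℝ) : S.II d D L8 = d - D 0 - D 6 := by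
  rw [S.II_eq d D _ 1 _ deg_L8 S.mult_L8, sum_AA D (fun k =>
    (((![1, 0, 0, 0, 0, 0, 0, 0, 0, 0, 1] : Fin 11 → ℕ) k : ℕ) : ℝ))]
  simp
  ring

theorem II_X0 (d : ℝ) (D : Fin 7 → ℝ) : S.II d D (X 0) = d - 2 * D 6 := by
  rw [S.II_eq d D _ 1 _ (totalDegree_X 0) S.mult_X0, sum_AA D (fun k =>
    (((![0, 0, 0, 0, 0, 0, 0, 0, 0, 1, 1] : Fin 11 → ℕ) k : ℕ) : ℝ))]
  simp
  ring

theorem II_X1 (d : ℝ) (D : Fin 7 → ℝ) : S.II d D (X 1) = d - D 0 - D 1 - D 2 := by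
  rw [S.II_eq d D _ 1 _ (totalDegree_X 1) S.mult_X1, sum_AA D (fun k =>
    (((![1, 1, 1, 0, 0, 0, 0, 0, 0, 0, 0] : Fin 11 → ℕ) k : ℕ) : ℝ))]
  simp
  ring

end Data

end Pool.Agent.H92.T3
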