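import Mathlib
import Pool.Agent.H92.T3.Ineq

set_option autoImplicit false

namespace Pool.Agent.H92.T3

open Pool.Agent.H13 MvPolynomial

namespace Data

variable (S : Data)

noncomputable def Xd : Fin 8 → ℂ :=
  ![S.Xr 0, -S.Xr 0, S.Xr 1, -S.Xr 1, S.Xr 2, -S.Xr 2, S.X7, -S.X7]

noncomputable def Wd : Fin 8 → ℂ :=
  ![-(S.Xr 0) ^ 5 / S.be, -(-S.Xr 0) ^ 5 / S.be, -(S.Xr 1) ^ 5 / S.be, -(-S.Xr 1) ^ 5 / S.be,
    -(S.Xr 2) ^ 5 / S.be, -(-S.Xr 2) ^ 5 / S.be, S.W7, -S.W7]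

/-- the factors -/
noncomputable def pf : Fin 8 → MvPolynomial (Fin 2) ℂ :=
  ![V - C (S.Xs 3) * S.U, V - C (S.Xs 4) * S.U, V - C (S.Xs 5) * S.U, V - C (S.Xs 6) * S.U,
    V - C (S.Xs 7) * S.U, V - C (S.Xs 8) * S.U, L7, L8]

theorem pf_dvd (i : Fin 8) : S.pf i ∣ V - C (S.Xd i) * S.U ∧
    S.pf i ∣ S.N - C (S.Wd i) * (S.U ^ 4 * S.Q) := by
  have h0 := S.dvd_N (S.sextic (t := S.Xr 0) (i := 0) rfl)
  have h0' := S.dvd_N (S.sextic (t := -S.Xr 0) (i := 0) (neg_sq _))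
  have h1 := S.dvd_N (S.sextic (t := S.Xr 1) (i := 1) rfl)
  have h1' := S.dvd_N (S.sextic (t := -S.Xr 1) (i := 1) (neg_sq _))
  have h2 := S.dvd_N (S.sextic (t := S.Xr 2) (i := 2) rfl)
  have h2' := S.dvd_N (S.sextic (t := -S.Xr 2) (i := 2) (neg_sq _))
  fin_cases i
  · exact ⟨dvd_refl _, h0⟩
  · exact ⟨dvd_refl _, h0'⟩
  · exact ⟨dvd_refl _, h1⟩
  · exact ⟨dvd_refl _, h1'⟩
  · exact ⟨dvd_refl _, h2⟩
  · exact ⟨dvd_refl _, h2'⟩
  · exact ⟨S.dvd_V7, S.dvd_N7⟩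
  · exact ⟨S.dvd_V8, S.dvd_N8⟩

def pr : Fin 8 → Fin 4 := ![0, 0, 1, 1, 2, 2, 3, 3]

noncomputable def sqv : Fin 4 → ℂ := ![S.w 0, S.w 1, S.w 2, S.X7 ^ 2]

theorem Xd_sq (i : Fin 8) : S.Xd i ^ 2 = S.sqv (pr i) := by
  fin_cases i
  · rfl
  · exact neg_sq (S.Xr 0)
  · rfl
  · exact neg_sq (S.Xr 1)
  · rfl
  · exact neg_sq (S.Xr 2)
  · rfl
  · exact neg_sq S.X7

theorem sqv_inj : Function.Injective S.sqv := by
  have h := S.w_inj
  have h01 : S.w 0 ≠ S.w 1 := fun e => absurd (h e) (by decide)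
  have h02 : S.w 0 ≠ S.w 2 := fun e => absurd (h e) (by decide)
  have h12 : S.w 1 ≠ S.w 2 := fun e => absurd (h e) (by decide)
  have h0 := S.w_ne_X7 0
  have h1 := S.w_ne_X7 1
  have h2 := S.w_ne_X7 2
  intro i j hij
  fin_cases i <;> fin_cases j <;> first
    | rfl
    | exact absurd hij h01
    | exact absurd hij h02
    | exact absurd hij h12
    | exact absurd hij h0
    | exact absurd hij h1
    | exact absurd hij h2
    | exact absurd hij.symm h01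
    | exact absurd hij.symm h02
    | exact absurd hij.symm h12
    | exact absurd hij.symm h0
    | exact absurd hij.symm h1
    | exact absurd hij.symm h2

theorem Xd_ne (i : Fin 8) : S.Xd i ≠ 0 := by
  have h := S.Xr_ne
  have h7 := S.X7_ne
  fin_cases i
  · exact h 0
  · exact neg_ne_zero.2 (h 0)
  · exact h 1
  · exact neg_ne_zero.2 (h 1)
  · exact h 2
  · exact neg_ne_zero.2 (h 2)
  · exact h7
  · exact neg_ne_zero.2 h7

theorem Xd_inj : Function.Injective S.Xd := by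
  intro i j h
  have hp : pr i = pr j := by
    apply S.sqv_inj
    rw [← S.Xd_sq i, ← S.Xd_sq j, h]
  have hij : i = j ∨ (i, j) ∈ [((0 : Fin 8), (1 : Fin 8)), (1, 0), (2, 3), (3, 2), (4, 5), (5, 4),
      (6, 7), (7, 6)] := by
    clear h
    revert i j
    decide
  have hneg : ∀ t : ℂ, t ≠ 0 → t ≠ -t := by
    intro t ht he
    have : (2 : ℂ) * t = 0 := by linear_combination he
    exact ht (by simpa using this)
  have hneg' : ∀ t : ℂ, t ≠ 0 → -t ≠ t := fun t ht he => hneg t ht he.symm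
  have hX := S.Xr_ne
  have h7 := S.X7_ne
  rcases hij with h1 | h1
  · exact h1
  · exfalso
    simp only [List.mem_cons, Prod.mk.injEq, List.not_mem_nil, or_false] at h1
    rcases h1 with ⟨rfl, rfl⟩ | ⟨rfl, rfl⟩ | ⟨rfl, rfl⟩ | ⟨rfl, rfl⟩ | ⟨rfl, rfl⟩ | ⟨rfl, rfl⟩ |
      ⟨rfl, rfl⟩ | ⟨rfl, rfl⟩
    · exact hneg _ (hX 0) h
    · exact hneg' _ (hX 0) h
    · exact hneg _ (hX 1) h
    · exact hneg' _ (hX 1) h
    · exact hneg _ (hX 2) h
    · exact hneg' _ (hX 2) h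
    · exact hneg _ h7 h
    · exact hneg' _ h7 h

theorem relPrime_of {p q : MvPolynomial (Fin 2) ℂ} {t t' : ℂ} (hp : p ∣ V - C t * S.U)
    (hq : q ∣ V - C t' * S.U) (h : t ≠ t') : IsRelPrime p q := by
  intro r hrp hrq
  have h1 := hrp.trans hp
  have h2 := hrq.trans hq
  have hne : t' - t ≠ 0 := sub_ne_zero.2 (Ne.symm h)
  have hU : r ∣ S.U := by
    have h3 := (dvd_sub h1 h2).mul_left (C (t' - t)⁻¹)
    have e : C (t' - t)⁻¹ * (V - C t * S.U - (V - C t' * S.U)) = S.U := by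
      have e1 : (C (t' - t)⁻¹ : MvPolynomial (Fin 2) ℂ) * (C t' - C t) = 1 := by
        rw [← C_sub, ← C_mul, inv_mul_cancel₀ hne, C_1]
      linear_combination S.U * e1
    rwa [e] at h3
  have hV : r ∣ V := by
    have h4 := dvd_add h1 (hU.mul_left (C t))
    rwa [sub_add_cancel] at h4
  exact S.isRelPrime_UV hU hV

theorem pf_ne (i : Fin 8) : S.pf i ≠ 0 := by
  intro h
  have h1 := (S.pf_dvd i).1
  rw [h, zero_dvd_iff] at h1
  have h2 := S.deg_kap (S.Xd i)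
  rw [h1, totalDegree_zero] at h2
  exact absurd h2 (by decide)

/-- the intersection numbers of the factors -/
theorem II_pf (d : ℝ) (D : Fin 7 → ℝ) (i : Fin 8) : S.II d D (S.pf i) =
    (![2 * d - D 0 - D 1 - 2 * D 6 - D 3, 2 * d - D 0 - D 1 - 2 * D 6 - D 3,
      2 * d - D 0 - D 1 - 2 * D 6 - D 4, 2 * d - D 0 - D 1 - 2 * D 6 - D 4,
      2 * d - D 0 - D 1 - 2 * D 6 - D 5, 2 * d - D 0 - D 1 - 2 * D 6 - D 5,
      d - D 0 - D 6, d - D 0 - D 6] : Fin 8 → ℝ) i := by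
  fin_cases i
  · exact S.II_kap d D 3 (by decide) (by decide)
  · exact S.II_kap d D 4 (by decide) (by decide)
  · exact S.II_kap d D 5 (by decide) (by decide)
  · exact S.II_kap d D 6 (by decide) (by decide)
  · exact S.II_kap d D 7 (by decide) (by decide)
  · exact S.II_kap d D 8 (by decide) (by decide)
  · exact S.II_L7 d D
  · exact S.II_L8 d D

/-- **The inequality.** -/
theorem final_ineq {d : ℝ} {D : Fin 7 → ℝ} (hd : 0 ≤ d) (hD : ∀ i, 0 ≤ D i)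
    (h0 : D 0 = d - 3 * D 6) (h12 : D 1 + D 2 = 2 * D 6) (hb : D 3 + D 4 + D 5 = d)
    (hnef : ∀ G : MvPolynomial (Fin 2) ℂ, G ≠ 0 → 0 ≤ S.II d D G)
    {δ : ℕ} {m : Fin 10 → ℕ} {g g' : MvPolynomial (Fin 2) ℂ} (hg0 : g ≠ 0)
    (hreg : ∀ s ∈ g.support, s 0 + 4 * s 1 ≤ 2 * δ)
    (hmem : ∀ i : Fin 8, g ∈ Iord ![S.Xd i, S.Wd i] (m (Fin.castLE (by norm_num) i)))
    (hblow : aeval ![(X 0 : MvPolynomial (Fin 2) ℂ), X 0 * X 1] g = X 0 ^ m 9 * g')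
    (hmem' : g' ∈ Iord ![0, S.ta] (m 8)) :
    (d + D 6 - D 1 - D 3) * (m 0 + m 1) + (d + D 6 - D 1 - D 4) * (m 2 + m 3) +
      (d + D 6 - D 1 - D 5) * (m 4 + m 5) + 2 * D 6 * (m 6 + m 7) + (d - 2 * D 6) * m 8 +
      (d - D 6) * m 9 ≤ 2 * (d + D 6 - D 1) * δ := by
  have hReg : Reg 4 (2 * δ) (2 * δ) g := fun s hs => by
    have := hreg s hs
    constructor <;> omega
  set H := Hm 4 (2 * δ) (2 * δ) V S.U S.N S.Q g with hH
  have hH0 : H ≠ 0 := S.Hm_ne_zero hg0 hReg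
  -- upper bound
  have hdeg : H.totalDegree ≤ 2 * (2 * δ) + 4 * (2 * δ) :=
    totalDegree_Hm hReg deg_V S.deg_U S.deg_Q S.deg_N
  have hmu : ∀ k, ph k * (2 * δ) + ch k * (2 * δ) ≤ mult (S.pt k) H := by
    intro k
    obtain ⟨a1, a2, a3, a4⟩ := S.mem_all k
    exact (mem_Iord_iff_le_mult hH0).1 (Hm_mem_Iord hReg a1 a2 a3 a4)
  have hAA : ∀ k, 0 ≤ AA D k := by
    intro k
    fin_cases k
    · exact hD 0
    · exact hD 1
    · exact hD 2
    · exact hD 3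
    · exact hD 3
    · exact hD 4
    · exact hD 4
    · exact hD 5
    · exact hD 5
    · exact hD 6
    · exact hD 6
  have hupper : S.II d D H ≤ 2 * (d + D 6 - D 1) * δ := by
    have e1 : d * (H.totalDegree : ℝ) ≤ d * (12 * δ) := by
      apply mul_le_mul_of_nonneg_left _ hd
      have : H.totalDegree ≤ 12 * δ := by omega
      exact_mod_cast this
    have e2 : ∑ k, AA D k * ((ph k : ℝ) * (2 * δ) + (ch k : ℝ) * (2 * δ)) ≤
        ∑ k, AA D k * (mult (S.pt k) H : ℝ) := by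
      refine Finset.sum_le_sum fun k _ => mul_le_mul_of_nonneg_left ?_ (hAA k)
      exact_mod_cast hmu k
    rw [sum_AA D (fun k => (ph k : ℝ) * (2 * δ) + (ch k : ℝ) * (2 * δ))] at e2
    simp [ph, ch] at e2
    rw [II]
    nlinarith
  -- divisibility
  have hdvd : ∀ i : Fin 8, S.pf i ^ m (Fin.castLE (by norm_num) i) ∣ H := fun i =>
    dvd_Hm_of_mem S.U_ne S.Q_ne hReg (S.Xd i) (S.Wd i) (S.pf_dvd i).1 (S.pf_dvd i).2 (hmem i)
  have hprod : ∏ i : Fin 8, S.pf i ^ m (Fin.castLE (by norm_num) i) ∣ H := by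
    refine Fintype.prod_dvd_of_isRelPrime ?_ hdvd
    intro i j hij
    refine IsRelPrime.pow (S.relPrime_of (S.pf_dvd i).1 (S.pf_dvd j).1 ?_)
    exact fun h => hij (S.Xd_inj h)
  obtain ⟨hreg', hblow'⟩ := Hm_blow (q := 3) (V := V) (N := S.N') S.U_ne S.Q_ne hReg hblow
  have hR : V ^ m 9 * X 0 ^ m 8 ∣ H := by
    have h1 : H = V ^ m 9 * Hm 3 (2 * δ - m 9) (2 * δ) V S.U S.N' S.Q g' := hblow'
    rw [h1]
    refine mul_dvd_mul_left _ ?_
    refine dvd_Hm_of_mem S.U_ne S.Q_ne hreg' 0 S.ta ?_ S.dvd_N0 hmem'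
    rw [C_0, zero_mul, sub_zero]
    exact dvd_V0
  have hrel : IsRelPrime (∏ i : Fin 8, S.pf i ^ m (Fin.castLE (by norm_num) i))
      (V ^ m 9 * X 0 ^ m 8) := by
    refine IsRelPrime.prod_left fun i _ => ?_
    have hV0 : V ∣ V - C 0 * S.U := by rw [C_0, zero_mul, sub_zero]
    have hX0 : (X 0 : MvPolynomial (Fin 2) ℂ) ∣ V - C 0 * S.U := dvd_V0.trans hV0
    exact (IsRelPrime.pow (S.relPrime_of (S.pf_dvd i).1 hV0 (S.Xd_ne i))).mul_right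
      (IsRelPrime.pow (S.relPrime_of (S.pf_dvd i).1 hX0 (S.Xd_ne i)))
  obtain ⟨G, hG⟩ := hrel.mul_dvd hprod hR
  have hG0 : G ≠ 0 := by
    rintro rfl
    rw [mul_zero] at hG
    exact hH0 hG
  have hp0 : ∏ i : Fin 8, S.pf i ^ m (Fin.castLE (by norm_num) i) ≠ 0 :=
    Finset.prod_ne_zero_iff.2 fun i _ => pow_ne_zero _ (S.pf_ne i)
  have hX0 : (X 0 : MvPolynomial (Fin 2) ℂ) ≠ 0 := X_ne_zero 0
  have hX1 : (X 1 : MvPolynomial (Fin 2) ℂ) ≠ 0 := X_ne_zero 1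
  have hR0 : V ^ m 9 * (X 0 : MvPolynomial (Fin 2) ℂ) ^ m 8 ≠ 0 :=
    mul_ne_zero (pow_ne_zero _ V_ne) (pow_ne_zero _ hX0)
  have hI : S.II d D H = (∑ i : Fin 8, (m (Fin.castLE (by norm_num) i) : ℝ) *
      S.II d D (S.pf i)) + (m 9 * (S.II d D (X 0) + S.II d D (X 1)) +
      m 8 * S.II d D (X 0)) + S.II d D G := by
    rw [hG, S.II_mul d D (mul_ne_zero hp0 hR0) hG0, S.II_mul d D hp0 hR0,
      S.II_prod d D _ _ (fun i _ => pow_ne_zero _ (S.pf_ne i)),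
      S.II_mul d D (pow_ne_zero _ V_ne) (pow_ne_zero _ hX0), S.II_pow d D V_ne,
      S.II_pow d D hX0]
    have e : S.II d D V = S.II d D (X 0) + S.II d D (X 1) := S.II_mul d D hX0 hX1
    rw [e]
    congr 2
    exact Finset.sum_congr rfl fun i _ => S.II_pow d D (S.pf_ne i) _
  have hGn := hnef G hG0
  rw [S.II_X0, S.II_X1] at hI
  have hsum : (∑ i : Fin 8, (m (Fin.castLE (by norm_num) i) : ℝ) * S.II d D (S.pf i)) =
      (2 * d - D 0 - D 1 - 2 * D 6 - D 3) * (m 0 + m 1) +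
      (2 * d - D 0 - D 1 - 2 * D 6 - D 4) * (m 2 + m 3) +
      (2 * d - D 0 - D 1 - 2 * D 6 - D 5) * (m 4 + m 5) + (d - D 0 - D 6) * (m 6 + m 7) := by
    simp only [S.II_pf]
    simp only [Fin.sum_univ_succ, Fin.sum_univ_zero]
    simp
    ring
  rw [hsum] at hI
  have hfin : (2 * d - D 0 - D 1 - 2 * D 6 - D 3) * (m 0 + m 1) +
      (2 * d - D 0 - D 1 - 2 * D 6 - D 4) * (m 2 + m 3) +
      (2 * d - D 0 - D 1 - 2 * D 6 - D 5) * (m 4 + m 5) + (d - D 0 - D 6) * (m 6 + m 7) +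
      ((m 9 : ℝ) * ((d - 2 * D 6) + (d - D 0 - D 1 - D 2)) + m 8 * (d - 2 * D 6)) =
      (d + D 6 - D 1 - D 3) * (m 0 + m 1) + (d + D 6 - D 1 - D 4) * (m 2 + m 3) +
      (d + D 6 - D 1 - D 5) * (m 4 + m 5) + 2 * D 6 * (m 6 + m 7) + (d - 2 * D 6) * m 8 +
      (d - D 6) * m 9 := by
    rw [h0]
    linear_combination (-(m 9 : ℝ)) * h12
  linarith

end Data

end Pool.Agent.H92.T3
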