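import Mathlib
import Pool.Agent.H92.T3.Defs

/-!
# Nefness on the special plane

`nonempty_data` : the special configuration exists; `curve3` : the classes of `Cond3` are
nonnegative on all curves of the plane with multiplicities at the eleven special points.
-/

set_option autoImplicit false

namespace Pool.Agent.H92.T3

open Module MvPolynomial Pool.Agent.H13

/-! ### Existence of the special numbers -/

theorem cubic_mod7 : ∀ m c : ZMod 7, 4 * m ^ 3 - 5 * m * c ^ 2 + 4 * c ^ 3 = 0 → m = 0 ∧ c = 0 := by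
  decide

theorem cubic_descent (n : ℕ) : ∀ m c : ℤ, c.natAbs ≤ n → 4 * m ^ 3 - 5 * m * c ^ 2 + 4 * c ^ 3 = 0 →
    c = 0 := by
  induction n with
  | zero => intro m c hc _; exact Int.natAbs_eq_zero.1 (by omega)
  | succ n ih =>
    intro m c hc h
    have h1 : (4 * (m : ZMod 7) ^ 3 - 5 * (m : ZMod 7) * (c : ZMod 7) ^ 2 + 4 * (c : ZMod 7) ^ 3) = 0 := by
      have := congrArg (Int.cast : ℤ → ZMod 7) h
      push_cast at this
      exact this
    obtain ⟨hm, hc'⟩ := cubic_mod7 _ _ h1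
    obtain ⟨m1, rfl⟩ := (ZMod.intCast_zmod_eq_zero_iff_dvd m 7).1 hm
    obtain ⟨c1, rfl⟩ := (ZMod.intCast_zmod_eq_zero_iff_dvd c 7).1 hc'
    by_cases hc0 : c1 = 0
    · rw [hc0]; norm_num
    · have h2 : 4 * m1 ^ 3 - 5 * m1 * c1 ^ 2 + 4 * c1 ^ 3 = 0 := by
        have h3 : (343 : ℤ) * (4 * m1 ^ 3 - 5 * m1 * c1 ^ 2 + 4 * c1 ^ 3) = 0 := by
          rw [← h]; push_cast; ring
        rcases mul_eq_zero.1 h3 with h4 | h4
        · norm_num at h4
        · exact h4
      have h3 := ih m1 c1 (by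
        push_cast at hc
        rw [Int.natAbs_mul] at hc
        have : 0 < c1.natAbs := Int.natAbs_pos.2 hc0
        have h7 : Int.natAbs 7 = 7 := rfl
        rw [h7] at hc
        omega) h2
      exact absurd h3 hc0

theorem cubic_int {m c : ℤ} (h : 4 * m ^ 3 - 5 * m * c ^ 2 + 4 * c ^ 3 = 0) : c = 0 :=
  cubic_descent _ m c le_rfl h

/-- rational and irrational parts -/
theorem sqrt2_parts {a b : ℤ} (h : (a : ℝ) + b * Real.sqrt 2 = 0) : a = 0 ∧ b = 0 := by
  have hb : b = 0 := by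
    by_contra hb
    have hb' : (b : ℝ) ≠ 0 := by exact_mod_cast hb
    have h2 : Real.sqrt 2 = ((-a / b : ℚ) : ℝ) := by
      push_cast
      field_simp
      linarith
    exact irrational_sqrt_two ⟨_, h2.symm⟩
  rw [hb] at h
  simp at h
  exact ⟨h, hb⟩

/-- the main arithmetic statement behind `indep` -/
theorem cubic_indep {x : ℝ} (hx : 4 * x ^ 3 - 5 * x + 4 = 0) {A B c : ℤ}
    (h : 2 * (c : ℝ) * x = 2 * (A : ℝ) + B * Real.sqrt 2) : c = 0 := by
  have hs : Real.sqrt 2 ^ 2 = 2 := Real.sq_sqrt (by norm_num)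
  set s := Real.sqrt 2 with hsdef
  have hX : (2 * (c : ℝ) * x) ^ 3 - 5 * (c : ℝ) ^ 2 * (2 * (c : ℝ) * x) + 8 * (c : ℝ) ^ 3 = 0 := by
    linear_combination 2 * (c : ℝ) ^ 3 * hx
  rw [h] at hX
  have hparts : (((8 * A ^ 3 + 12 * A * B ^ 2 - 10 * c ^ 2 * A + 8 * c ^ 3 : ℤ)) : ℝ) +
      ((12 * A ^ 2 * B + 2 * B ^ 3 - 5 * c ^ 2 * B : ℤ) : ℝ) * s = 0 := by
    push_cast
    linear_combination hX - (6 * (A : ℝ) * B ^ 2 + (B : ℝ) ^ 3 * s) * hs
  obtain ⟨h1, h2⟩ := sqrt2_parts hparts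
  have h3 : B * (12 * A ^ 2 + 2 * B ^ 2 - 5 * c ^ 2) = 0 := by rw [← h2]; ring
  rcases mul_eq_zero.1 h3 with hB | hB
  · rw [hB] at h1
    apply cubic_int (m := A)
    linarith
  · apply cubic_int (m := -2 * A)
    have e : 2 * B ^ 2 = 5 * c ^ 2 - 12 * A ^ 2 := by linarith
    have e2 : 8 * A ^ 3 + 6 * A * (5 * c ^ 2 - 12 * A ^ 2) - 10 * c ^ 2 * A + 8 * c ^ 3 = 0 := by
      rw [← e]; linarith
    linarith

theorem nonempty_data : Nonempty Data := by
  -- the real root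
  have hcont : Continuous (fun t : ℝ => 4 * t ^ 3 - 5 * t + 4) := by fun_prop
  have hivt := intermediate_value_Icc (a := (-3 / 2 : ℝ)) (b := -7 / 5) (by norm_num)
    hcont.continuousOn
  obtain ⟨x0, ⟨hx1, hx2⟩, hx0⟩ : (0 : ℝ) ∈ (fun t : ℝ => 4 * t ^ 3 - 5 * t + 4) '' Set.Icc (-3 / 2) (-7 / 5) := by
    apply hivt
    constructor <;> norm_num
  simp only at hx0
  have hth0 : 0 < 3 * x0 ^ 2 - 5 := by nlinarith
  set th : ℝ := Real.sqrt (3 * x0 ^ 2 - 5) with hth
  have hthp : 0 < th := Real.sqrt_pos.2 hth0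
  have hth2 : th ^ 2 = 3 * x0 ^ 2 - 5 := Real.sq_sqrt hth0.le
  have hs : Real.sqrt 2 ^ 2 = 2 := Real.sq_sqrt (by norm_num)
  have hsC : ((Real.sqrt 2 : ℝ) : ℂ) ^ 2 = 2 := by exact_mod_cast hs
  have hthC : ((th : ℝ) : ℂ) ^ 2 = 3 * (x0 : ℂ) ^ 2 - 5 := by exact_mod_cast hth2
  have hx0C : 4 * (x0 : ℂ) ^ 3 - 5 * (x0 : ℂ) + 4 = 0 := by exact_mod_cast hx0
  have hsq : ∀ z : ℂ, ∃ w : ℂ, w ^ 2 = z := fun z => IsAlgClosed.exists_pow_nat_eq z (by norm_num)
  choose sq hsq' using hsq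
  set X : Fin 3 → ℂ := ![(x0 : ℂ), (-(x0 : ℂ) + Complex.I * th) / 2, (-(x0 : ℂ) - Complex.I * th) / 2]
    with hX
  have hXroot : ∀ i, 4 * X i ^ 3 - 5 * X i + 4 = 0 := by
    have hI := Complex.I_sq
    intro i
    fin_cases i
    · exact hx0C
    · change 4 * ((-(x0 : ℂ) + Complex.I * th) / 2) ^ 3 - 5 * ((-(x0 : ℂ) + Complex.I * th) / 2) + 4 = 0
      have e : 4 * ((-(x0 : ℂ) + Complex.I * th) / 2) ^ 3 - 5 * ((-(x0 : ℂ) + Complex.I * th) / 2) + 4 =
          (4 * (x0 : ℂ) ^ 3 - 5 * (x0 : ℂ) + 4) +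
          ((-3 * (x0 : ℂ) / 2 + Complex.I * th / 2) * th ^ 2) * (Complex.I ^ 2 + 1) +
          (3 * (x0 : ℂ) / 2 - Complex.I * th / 2) * ((th : ℂ) ^ 2 - (3 * (x0 : ℂ) ^ 2 - 5)) := by
        ring
      rw [e, hx0C, hI, hthC]; ring
    · change 4 * ((-(x0 : ℂ) - Complex.I * th) / 2) ^ 3 - 5 * ((-(x0 : ℂ) - Complex.I * th) / 2) + 4 = 0
      have e : 4 * ((-(x0 : ℂ) - Complex.I * th) / 2) ^ 3 - 5 * ((-(x0 : ℂ) - Complex.I * th) / 2) + 4 =
          (4 * (x0 : ℂ) ^ 3 - 5 * (x0 : ℂ) + 4) +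
          ((-3 * (x0 : ℂ) / 2 - Complex.I * th / 2) * th ^ 2) * (Complex.I ^ 2 + 1) +
          (3 * (x0 : ℂ) / 2 + Complex.I * th / 2) * ((th : ℂ) ^ 2 - (3 * (x0 : ℂ) ^ 2 - 5)) := by
        ring
      rw [e, hx0C, hI, hthC]; ring
  have i0 : (X 0).im = 0 := Complex.ofReal_im x0
  have i1 : (X 1).im = th / 2 := by
    change ((-(x0 : ℂ) + Complex.I * th) / 2).im = th / 2
    simp
  have i2 : (X 2).im = -(th / 2) := by
    change ((-(x0 : ℂ) - Complex.I * th) / 2).im = -(th / 2)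
    simp
    ring
  refine ⟨{
    a := (Real.sqrt 2 : ℝ) - 2
    x := X
    y := fun i => sq (8 - 3 * X i ^ 2)
    ha := by linear_combination hsC
    hx := hXroot
    hy := fun i => hsq' _
    x_inj := ?_
    indep := ?_ }⟩
  · intro i j hij
    have him : (X i).im = (X j).im := by rw [hij]
    fin_cases i <;> fin_cases j <;> first
      | rfl
      | (exfalso
         simp only [Fin.zero_eta, Fin.mk_one, Fin.reduceFinMk, i0, i1, i2] at him
         linarith)
  · intro C h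
    have e0 : X 0 = (x0 : ℂ) := rfl
    have e1 : X 1 = (-(x0 : ℂ) + Complex.I * th) / 2 := rfl
    have e2 : X 2 = (-(x0 : ℂ) - Complex.I * th) / 2 := rfl
    rw [e0, e1, e2] at h
    have h' : (((4 * (C 0 : ℝ) + (Real.sqrt 2 - 2) * C 1 + (-4 - (Real.sqrt 2 - 2)) * C 2 + 2 * x0 * C 3 -
        x0 * C 4 - x0 * C 5 - 2 * C 6 : ℝ)) : ℂ) + ((th * (C 4 - C 5) : ℝ) : ℂ) * Complex.I = 0 := by
      rw [← h]
      push_cast
      ring
    have hre := congrArg Complex.re h'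
    have him := congrArg Complex.im h'
    simp only [Complex.add_re, Complex.add_im, Complex.mul_re, Complex.mul_im, Complex.ofReal_re,
      Complex.ofReal_im, Complex.I_re, Complex.I_im, Complex.zero_re, Complex.zero_im, mul_zero,
      mul_one, zero_mul, sub_zero, add_zero, zero_add] at hre him
    have h45 : (C 4 : ℝ) = C 5 := by
      rcases mul_eq_zero.1 him with h1 | h1
      · exact absurd h1 hthp.ne'
      · linarith
    have h45' : C 4 = C 5 := by exact_mod_cast h45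
    have h34 : C 3 - C 4 = 0 := by
      apply cubic_indep hx0 (A := -(2 * C 0 - C 1 - C 2 - C 6)) (B := -(C 1 - C 2))
      push_cast
      rw [← h45] at hre
      linear_combination hre
    have h34' : (C 3 : ℝ) = C 4 := by
      have : C 3 = C 4 := by linarith
      exact_mod_cast this
    have h0 : ((4 * C 0 - 2 * C 1 - 2 * C 2 - 2 * C 6 : ℤ) : ℝ) + ((C 1 - C 2 : ℤ) : ℝ) * Real.sqrt 2 = 0 := by
      push_cast
      rw [← h45, h34'] at hre
      linear_combination hre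
    obtain ⟨p1, p2⟩ := sqrt2_parts h0
    refine ⟨by linarith, by linarith, h45', ?_⟩
    have : C 1 = C 2 := by linarith
    omega

/-! ### The configuration -/

noncomputable def U3 : Polynomial ℂ :=
  Polynomial.C (1 / 6) * (Polynomial.X ^ 3 - Polynomial.C 8 * Polynomial.X - Polynomial.C 8)

theorem U3_eval (t : ℂ) : U3.eval t = (t ^ 3 - 8 * t - 8) / 6 := by
  simp [U3]
  ring

theorem YY3_eval (t : ℂ) : (YY U3 (-1) 0).eval t = (t ^ 3 - 14 * t - 8) / 6 := by
  simp [YY, U3]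
  ring

theorem U3_Qd : Qd 1 U3 := by
  constructor
  · rw [U3]
    compute_degree
  · intro i hi
    have : i = 2 := by omega
    subst this
    simp [U3, Polynomial.coeff_X, Polynomial.coeff_C]

theorem Y3_Qd : Qd 1 (YY U3 (-1) 0) := by
  constructor
  · rw [YY, U3]
    compute_degree
  · intro i hi
    have : i = 2 := by omega
    subst this
    simp [YY, U3, Polynomial.coeff_X, Polynomial.coeff_C]

section

variable (S : Data)

/-- parameters of the special points on the cuspidal cubic -/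
noncomputable def r3 : Fin 10 → ℂ :=
  ![4, S.a, -4 - S.a, S.x 0 - S.y 0, S.x 0 + S.y 0, S.x 1 - S.y 1, S.x 1 + S.y 1, S.x 2 - S.y 2,
    S.x 2 + S.y 2, -2]

/-- first coordinates -/
noncomputable def u3 : Fin 10 → ℂ :=
  ![4, S.a, -4 - S.a, S.x 0, S.x 0, S.x 1, S.x 1, S.x 2, S.x 2, 0]

/-- second coordinates -/
noncomputable def z3 : Fin 10 → ℂ :=
  ![0, 0, 0, S.y 0, -S.y 0, S.y 1, -S.y 1, S.y 2, -S.y 2, 2]

theorem par_minus {x y : ℂ} (hx : 4 * x ^ 3 - 5 * x + 4 = 0) (hy : y ^ 2 = 8 - 3 * x ^ 2) :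
    ((x - y) ^ 3 - 8 * (x - y) - 8) / 6 = x := by
  linear_combination (-1 / 3 : ℂ) * hx + (x / 2 - y / 6) * hy

theorem par_plus {x y : ℂ} (hx : 4 * x ^ 3 - 5 * x + 4 = 0) (hy : y ^ 2 = 8 - 3 * x ^ 2) :
    ((x + y) ^ 3 - 8 * (x + y) - 8) / 6 = x := by
  linear_combination (-1 / 3 : ℂ) * hx + (x / 2 + y / 6) * hy

theorem U3_r3 (i : Fin 10) : U3.eval (r3 S i) = u3 S i := by
  rw [U3_eval]
  fin_cases i
  · simp [r3, u3]; norm_num
  · change (S.a ^ 3 - 8 * S.a - 8) / 6 = S.a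
    linear_combination (S.a / 6 - 4 / 6) * S.ha
  · change ((-4 - S.a) ^ 3 - 8 * (-4 - S.a) - 8) / 6 = -4 - S.a
    linear_combination (-S.a / 6 - 8 / 6) * S.ha
  · exact par_minus (S.hx 0) (S.hy 0)
  · exact par_plus (S.hx 0) (S.hy 0)
  · exact par_minus (S.hx 1) (S.hy 1)
  · exact par_plus (S.hx 1) (S.hy 1)
  · exact par_minus (S.hx 2) (S.hy 2)
  · exact par_plus (S.hx 2) (S.hy 2)
  · simp [r3, u3]; norm_num

theorem YY3_r3 (i : Fin 10) : (YY U3 (-1) 0).eval (r3 S i) = z3 S i := by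
  have h : (YY U3 (-1) 0).eval (r3 S i) = U3.eval (r3 S i) - r3 S i := by
    rw [YY3_eval, U3_eval]; ring
  rw [h, U3_r3]
  fin_cases i
  · simp [r3, u3, z3]
  · simp [r3, u3, z3]
  · simp [r3, u3, z3]
  · simp [r3, u3, z3]
  · simp [r3, u3, z3]
  · simp [r3, u3, z3]
  · simp [r3, u3, z3]
  · simp [r3, u3, z3]
  · simp [r3, u3, z3]
  · simp [r3, u3, z3]

theorem x_ne (i : Fin 3) : S.x i ≠ 0 := by
  intro h
  have := S.hx i
  rw [h] at this
  norm_num at this

theorem y_ne (i : Fin 3) : S.y i ≠ 0 := by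
  intro h
  have h1 := S.hy i
  rw [h] at h1
  have h2 := S.hx i
  have h3 : 3 * S.x i ^ 2 = 8 := by linear_combination h1
  have h4 : 17 * S.x i = -12 := by linear_combination 3 * h2 - 4 * S.x i * h3
  have h5 : (17 * S.x i) ^ 2 = 144 := by rw [h4]; norm_num
  have h6 : (432 : ℂ) = 2312 := by linear_combination 289 * h3 - 3 * h5
  norm_num at h6

theorem a_ne4 : S.a ≠ 4 := by
  intro h
  have := S.ha
  rw [h] at this
  norm_num at this

theorem a_ne4' : -4 - S.a ≠ 4 := by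
  intro h
  have h1 : S.a = -8 := by linear_combination -h
  have := S.ha
  rw [h1] at this
  norm_num at this

theorem a_ne2 : S.a ≠ -4 - S.a := by
  intro h
  have h1 : S.a = -2 := by linear_combination h / 2
  have := S.ha
  rw [h1] at this
  norm_num at this

theorem neg_ne_self' {y : ℂ} (hy : y ≠ 0) : y ≠ -y := by
  intro h
  apply hy
  linear_combination h / 2

/-- a natural number attached to each parameter index: axis points `0,1,2`, `(x_i, y_i)`, ... -/
theorem r3_inj : Function.Injective (r3 S) := by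
  intro i j h
  have hu : u3 S i = u3 S j := by rw [← U3_r3, ← U3_r3, h]
  have hz : z3 S i = z3 S j := by rw [← YY3_r3, ← YY3_r3, h]
  have n0 := y_ne S 0
  have n1 := y_ne S 1
  have n2 := y_ne S 2
  have m0 := neg_ne_self' n0
  have m1 := neg_ne_self' n1
  have m2 := neg_ne_self' n2
  have x0 := x_ne S 0
  have x1 := x_ne S 1
  have x2 := x_ne S 2
  have x01 : S.x 0 ≠ S.x 1 := fun h => absurd (S.x_inj h) (by decide)
  have x02 : S.x 0 ≠ S.x 2 := fun h => absurd (S.x_inj h) (by decide)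
  have x12 : S.x 1 ≠ S.x 2 := fun h => absurd (S.x_inj h) (by decide)
  have a1 := a_ne4 S
  have a2 := a_ne4' S
  have a3 := a_ne2 S
  have k0 : -S.y 0 ≠ 0 := neg_ne_zero.2 n0
  have k1 : -S.y 1 ≠ 0 := neg_ne_zero.2 n1
  have k2 : -S.y 2 ≠ 0 := neg_ne_zero.2 n2
  have k3 : (2 : ℂ) ≠ 0 := two_ne_zero
  fin_cases i <;> fin_cases j <;> first
    | rfl
    | (exfalso
       first
         | (change (_ : ℂ) = _ at hu
            simp only [u3, Fin.zero_eta, Fin.mk_one, Fin.reduceFinMk, Matrix.cons_val_zero,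
              Matrix.cons_val_one, Matrix.cons_val] at hu
            first
              | exact x0 hu | exact x1 hu | exact x2 hu | exact x01 hu | exact x02 hu | exact x12 hu
              | exact x0 hu.symm | exact x1 hu.symm | exact x2 hu.symm | exact x01 hu.symm
              | exact x02 hu.symm | exact x12 hu.symm | exact a1 hu | exact a2 hu | exact a3 hu
              | exact a1 hu.symm | exact a2 hu.symm | exact a3 hu.symm)
         | (simp only [z3, Fin.zero_eta, Fin.mk_one, Fin.reduceFinMk, Matrix.cons_val_zero,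
              Matrix.cons_val_one, Matrix.cons_val] at hz
            first
              | exact m0 hz | exact m1 hz | exact m2 hz | exact n0 hz | exact n1 hz | exact n2 hz
              | exact k0 hz | exact k1 hz | exact k2 hz | exact k3 hz
              | exact m0 hz.symm | exact m1 hz.symm | exact m2 hz.symm | exact n0 hz.symm
              | exact n1 hz.symm | exact n2 hz.symm | exact k0 hz.symm | exact k1 hz.symm
              | exact k2 hz.symm | exact k3 hz.symm))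

theorem rep_one (i : Fin 7) : (S.rep i 1 = 0 ↔ (i : ℕ) < 3) := by
  fin_cases i
  · simp [Data.rep]
  · simp [Data.rep]
  · simp [Data.rep]
  · simp [Data.rep, y_ne S 0]
  · simp [Data.rep, y_ne S 1]
  · simp [Data.rep, y_ne S 2]
  · simp [Data.rep]

theorem rep_dwn : Pairwise fun i j => dwn (S.rep i) ≠ dwn (S.rep j) := by
  intro i j hij h
  have hu : S.rep i 0 = S.rep j 0 := congrFun h 0
  have hz : S.rep i 1 ^ 2 = S.rep j 1 ^ 2 := congrFun h 1
  have hz' : (S.rep i 1 = 0 ↔ S.rep j 1 = 0) := by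
    constructor
    · intro h1
      rw [h1] at hz
      exact pow_eq_zero_iff (two_ne_zero) |>.1 (by rw [← hz]; norm_num)
    · intro h1
      rw [h1] at hz
      exact pow_eq_zero_iff (two_ne_zero) |>.1 (by rw [hz]; norm_num)
  rw [rep_one, rep_one] at hz'
  have x0 := x_ne S 0
  have x1 := x_ne S 1
  have x2 := x_ne S 2
  have x01 : S.x 0 ≠ S.x 1 := fun h => absurd (S.x_inj h) (by decide)
  have x02 : S.x 0 ≠ S.x 2 := fun h => absurd (S.x_inj h) (by decide)
  have x12 : S.x 1 ≠ S.x 2 := fun h => absurd (S.x_inj h) (by decide)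
  have a1 := a_ne4 S
  have a2 := a_ne4' S
  have a3 := a_ne2 S
  apply hij
  fin_cases i <;> fin_cases j <;> first
    | rfl
    | (exfalso
       first
         | (revert hz'; decide)
         | (simp only [Data.rep, Fin.zero_eta, Fin.mk_one, Fin.reduceFinMk, Matrix.cons_val_zero,
              Matrix.cons_val_one, Matrix.cons_val] at hu
            first
              | exact x0 hu | exact x1 hu | exact x2 hu | exact x01 hu | exact x02 hu | exact x12 hu
              | exact x0 hu.symm | exact x1 hu.symm | exact x2 hu.symm | exact x01 hu.symm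
              | exact x02 hu.symm | exact x12 hu.symm | exact a1 hu | exact a2 hu | exact a3 hu
              | exact a1 hu.symm | exact a2 hu.symm | exact a3 hu.symm))

theorem dvd3 {φ : MvPolynomial (Fin 2) ℂ} (C : Fin 7 → ℕ)
    (hC : ∀ i, psi ℂ φ ∈ Iord (S.rep i) (C i)) (i : Fin 10) :
    (Polynomial.X - Polynomial.C (r3 S i)) ^ (mm2 C i) ∣ th U3 (YY U3 (-1) 0) (psi ℂ φ) := by
  have hrefl : ∀ j, psi ℂ φ ∈ Iord (refl (S.rep j)) (C j) := by
    intro j
    have h : psi ℂ φ ∈ Iord (refl (refl (S.rep j))) (C j) := by rw [refl_refl]; exact hC j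
    have h2 := tau_mem_Iord h
    rwa [tau_psi] at h2
  have hx := U3_r3 S i
  have hy := YY3_r3 S i
  fin_cases i
  · exact th_dvd (P := S.rep 0) hx hy (hC 0)
  · exact th_dvd (P := S.rep 1) hx hy (hC 1)
  · exact th_dvd (P := S.rep 2) hx hy (hC 2)
  · exact th_dvd (P := S.rep 3) hx hy (hC 3)
  · exact th_dvd (P := refl (S.rep 3)) hx hy (hrefl 3)
  · exact th_dvd (P := S.rep 4) hx hy (hC 4)
  · exact th_dvd (P := refl (S.rep 4)) hx hy (hrefl 4)
  · exact th_dvd (P := S.rep 5) hx hy (hC 5)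
  · exact th_dvd (P := refl (S.rep 5)) hx hy (hrefl 5)
  · exact th_dvd (P := S.rep 6) hx hy (hC 6)

end

/-! ### The conic `w = 8 - 3 υ²` -/

noncomputable def f3 : Polynomial ℂ := Polynomial.C 8 - Polynomial.C 3 * Polynomial.X ^ 2

theorem psi_HC_f3 : psi ℂ (HC f3) = X 1 ^ 2 - (C 8 - C 3 * X 0 ^ 2) := by
  rw [HC, f3]
  simp [algebraMap_eq]

theorem wd_HC_f3 : wd (HC f3) ≤ 2 := by
  rw [wd, psi_HC_f3]
  refine (totalDegree_sub _ _).trans (max_le ?_ ?_)
  · rw [totalDegree_X_pow]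
  · refine (totalDegree_sub _ _).trans (max_le ?_ ?_)
    · rw [totalDegree_C]; omega
    · refine (totalDegree_mul _ _).trans ?_
      rw [totalDegree_C, totalDegree_X_pow]

theorem two_le_wd_HC_f3 : 2 ≤ wd (HC f3) := by
  have h1 := th_natDegree (x := (0 : Polynomial ℂ)) (y := Polynomial.X) (e := 1) (by simp)
    (by simp) (psi ℂ (HC f3))
  rw [one_mul] at h1
  refine le_trans ?_ h1
  rw [psi_HC_f3]
  simp only [map_sub, map_mul, map_pow, th_X0, th_X1, th_C]
  have : (Polynomial.X ^ 2 - (Polynomial.C 8 - Polynomial.C 3 * 0 ^ 2) : Polynomial ℂ) =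
      Polynomial.X ^ 2 - Polynomial.C 8 := by
    rw [zero_pow two_ne_zero, mul_zero, sub_zero]
  rw [this, Polynomial.natDegree_X_pow_sub_C]

theorem eval_psi_HC_f3 (Q : Fin 2 → ℂ) :
    eval Q (psi ℂ (HC f3)) = Q 1 ^ 2 - (8 - 3 * Q 0 ^ 2) := by
  rw [psi_HC_f3]
  simp

theorem mult_HC_f3_le {Q : Fin 2 → ℂ} (hQ : Q 1 ≠ 0) : mult Q (psi ℂ (HC f3)) ≤ 1 := by
  have hne := psi_ne_zero (k := ℂ) (prime_HC f3).ne_zero
  by_contra hcon
  have h1 : psi ℂ (HC f3) ∈ Iord Q 2 := (mem_Iord_iff_le_mult hne).2 (by omega)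
  have h2 := pderiv_mem_Iord 1 h1
  have h3 : pderiv 1 (psi ℂ (HC f3)) = C 2 * X 1 := by
    rw [psi_HC_f3]
    have h01 : pderiv (1 : Fin 2) (X 0 : MvPolynomial (Fin 2) ℂ) = 0 :=
      pderiv_X_of_ne (by decide)
    simp only [map_sub, pderiv_C, Derivation.leibniz, Derivation.leibniz_pow, h01, pderiv_X_self]
    simp
    exact (map_ofNat C 2).symm
  rw [h3, mem_Iord_one, map_mul, eval_C, eval_X] at h2
  rcases mul_eq_zero.1 h2 with h | h
  · exact two_ne_zero h
  · exact hQ h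

section

variable (S : Data)

/-- the three pairs of points on the conic -/
noncomputable def R3 : Fin 3 → Fin 2 → ℂ := ![S.rep 3, S.rep 4, S.rep 5]

theorem HC_f3_b (i : Fin 3) : HC f3 ∈ Jord (R3 S i) 1 := by
  rw [mem_Jord, mem_Iord_one, eval_psi_HC_f3]
  fin_cases i
  · change (S.y 0) ^ 2 - (8 - 3 * (S.x 0) ^ 2) = 0
    rw [S.hy]; ring
  · change (S.y 1) ^ 2 - (8 - 3 * (S.x 1) ^ 2) = 0
    rw [S.hy]; ring
  · change (S.y 2) ^ 2 - (8 - 3 * (S.x 2) ^ 2) = 0
    rw [S.hy]; ring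

theorem R3_one (i : Fin 3) : R3 S i 1 ≠ 0 := by
  fin_cases i
  · exact fun h => absurd ((rep_one S 3).1 h) (by decide)
  · exact fun h => absurd ((rep_one S 4).1 h) (by decide)
  · exact fun h => absurd ((rep_one S 5).1 h) (by decide)

theorem R3_dwn : Pairwise fun i j => dwn (R3 S i) ≠ dwn (R3 S j) := by
  intro i j hij
  fin_cases i <;> fin_cases j <;> first
    | exact absurd rfl hij
    | exact rep_dwn S (i := 3) (j := 4) (by decide)
    | exact rep_dwn S (i := 3) (j := 5) (by decide)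
    | exact rep_dwn S (i := 4) (j := 3) (by decide)
    | exact rep_dwn S (i := 4) (j := 5) (by decide)
    | exact rep_dwn S (i := 5) (j := 3) (by decide)
    | exact rep_dwn S (i := 5) (j := 4) (by decide)

theorem conic_axis {a : ℂ} (ha : a ^ 2 + 4 * a + 2 = 0) : (0 : ℂ) ^ 2 - (8 - 3 * a ^ 2) ≠ 0 := by
  intro h
  have h1 : 3 * a ^ 2 = 8 := by linear_combination h
  have h2 : 12 * a = -14 := by linear_combination 3 * ha - h1
  have h3 : (12 * a) ^ 2 = 196 := by rw [h2]; norm_num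
  have h4 : (196 : ℂ) = 384 := by linear_combination 48 * h1 - h3
  norm_num at h4

/-- values of the conic at the other points -/
theorem HC_f3_ne (i : Fin 7) (h3 : i ≠ 3) (h4 : i ≠ 4) (h5 : i ≠ 5) :
    eval (S.rep i) (psi ℂ (HC f3)) ≠ 0 := by
  rw [eval_psi_HC_f3]
  fin_cases i
  · simp [Data.rep]; norm_num
  · exact conic_axis S.ha
  · exact conic_axis (a := -4 - S.a) (by linear_combination S.ha)
  · exact absurd rfl h3
  · exact absurd rfl h4
  · exact absurd rfl h5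
  · simp [Data.rep]; norm_num

theorem GC_U3_q : eval (refl (S.rep 6)) (GC U3 (-1) 0) ≠ 0 := by
  rw [eval_GC, U3_eval]
  have e0 : refl (S.rep 6) 0 = 0 := rfl
  have e1 : refl (S.rep 6) 1 = -2 := rfl
  rw [e0, e1]
  norm_num

theorem GC_U3_q0 : eval (S.rep 6) (GC U3 (-1) 0) = 0 := by
  rw [eval_GC, U3_eval]
  have e0 : S.rep 6 0 = 0 := rfl
  have e1 : S.rep 6 1 = 2 := rfl
  rw [e0, e1]
  norm_num

end

/-! ### Numerical part -/

theorem T3_num {d : ℝ} {D : Fin 7 → ℝ} (hD : Cond3 d D) (E : ℤ) (C : Fin 7 → ℤ) (hE : 0 < E)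
    (hC0 : 0 ≤ C 0) (hC6 : 0 ≤ C 6)
    (hJ : C 0 * (C 0 - 2) + C 1 * (C 1 - 2) + C 2 * (C 2 - 2) + 2 * (C 3 * (C 3 - 1)) +
      2 * (C 4 * (C 4 - 1)) + 2 * (C 5 * (C 5 - 1)) + 2 * (C 6 * (C 6 - 1)) ≤ (E - 2) ^ 2)
    (hg : C 0 + C 1 + C 2 + 2 * (C 3 + C 4 + C 5) + C 6 ≤ 3 * E)
    (hr : C 3 + C 4 + C 5 ≤ E)
    (heq : C 0 + C 1 + C 2 + 2 * (C 3 + C 4 + C 5) + C 6 = 3 * E →
      C 1 = C 2 ∧ C 3 = C 4 ∧ C 4 = C 5 ∧ C 6 = 2 * (C 0 - C 1)) :
    D 0 * C 0 + D 1 * C 1 + D 2 * C 2 + 2 * (D 3 * C 3) + 2 * (D 4 * C 4) + 2 * (D 5 * C 5) +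
      2 * (D 6 * C 6) ≤ d * E := by
  by_cases hg0 : C 0 + C 1 + C 2 + 2 * (C 3 + C 4 + C 5) + C 6 = 3 * E
  · obtain ⟨ρ, hρ⟩ : ∃ ρ : ℤ, ρ = E - (C 3 + C 4 + C 5) := ⟨_, rfl⟩
    have hid2 : (E - 2) ^ 2 - (C 0 * (C 0 - 2) + C 1 * (C 1 - 2) + C 2 * (C 2 - 2) +
        2 * (C 3 * (C 3 - 1)) + 2 * (C 4 * (C 4 - 1)) + 2 * (C 5 * (C 5 - 1)) +
        2 * (C 6 * (C 6 - 1))) = E ^ 2 - (C 0 ^ 2 + C 1 ^ 2 + C 2 ^ 2 + 2 * C 3 ^ 2 +
        2 * C 4 ^ 2 + 2 * C 5 ^ 2 + 2 * C 6 ^ 2) + 2 * ρ + 4 := by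
      rw [hρ]
      linear_combination 2 * hg0
    by_cases hρ2 : 2 ≤ ρ
    · -- as in `T2_num`
      have key : C 0 ^ 2 + C 1 ^ 2 + C 2 ^ 2 + 2 * (C 3 + ρ) ^ 2 + 2 * (C 4 + ρ) ^ 2 +
          2 * (C 5 + ρ) ^ 2 + 2 * C 6 ^ 2 ≤ (E + 2 * ρ) ^ 2 := by
        have hid : (E + 2 * ρ) ^ 2 - (C 0 ^ 2 + C 1 ^ 2 + C 2 ^ 2 + 2 * (C 3 + ρ) ^ 2 +
            2 * (C 4 + ρ) ^ 2 + 2 * (C 5 + ρ) ^ 2 + 2 * C 6 ^ 2) =
            (E ^ 2 - (C 0 ^ 2 + C 1 ^ 2 + C 2 ^ 2 + 2 * C 3 ^ 2 +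
            2 * C 4 ^ 2 + 2 * C 5 ^ 2 + 2 * C 6 ^ 2)) + 2 * ρ ^ 2 := by
          linear_combination (-4 * ρ) * hρ
        have h1 := aux_r ρ hρ2
        linarith
      have keyR : ((C 0 : ℝ)) ^ 2 + (C 1) ^ 2 + (C 2) ^ 2 + 2 * (C 3 + ρ) ^ 2 +
          2 * (C 4 + ρ) ^ 2 + 2 * (C 5 + ρ) ^ 2 + 2 * (C 6) ^ 2 ≤ (E + 2 * ρ) ^ 2 := by
        exact_mod_cast key
      have h := hD.cond2.cs ((E : ℝ) + 2 * ρ)
        ![(C 0 : ℝ), C 1, C 2, C 3 + ρ, C 4 + ρ, C 5 + ρ, C 6] (by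
          have : (0 : ℤ) ≤ E + 2 * ρ := by linarith
          exact_mod_cast this) (by simpa using keyR)
      simp at h
      obtain ⟨hd, hb, -⟩ := hD
      have e1 : D 0 * C 0 + D 1 * C 1 + D 2 * C 2 +
          2 * (D 3 * (C 3 + ρ)) + 2 * (D 4 * (C 4 + ρ)) +
          2 * (D 5 * (C 5 + ρ)) + 2 * (D 6 * C 6) =
          D 0 * C 0 + D 1 * C 1 + D 2 * C 2 + 2 * (D 3 * C 3) + 2 * (D 4 * C 4) +
          2 * (D 5 * C 5) + 2 * (D 6 * C 6) + 2 * ρ * (D 3 + D 4 + D 5) := by ring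
      rw [hb] at e1
      linarith
    · -- the remaining classes
      obtain ⟨h12, h34, h45, h6⟩ := heq hg0
      have hρ0 : 0 ≤ ρ := by rw [hρ]; linarith
      have hρρ : ρ ^ 2 = ρ := by
        have : ρ = 0 ∨ ρ = 1 := by omega
        rcases this with h | h <;> rw [h] <;> norm_num
      obtain ⟨h, hh⟩ : ∃ h : ℤ, h = C 0 - C 1 := ⟨_, rfl⟩
      obtain ⟨b, hb⟩ : ∃ b : ℤ, b = C 5 := ⟨_, rfl⟩
      have e1 : C 1 = C 0 - h := by rw [hh]; ring
      have e2 : C 2 = C 0 - h := by rw [← h12, e1]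
      have e5 : C 5 = b := hb.symm
      have e4 : C 4 = b := by rw [h45, e5]
      have e3 : C 3 = b := by rw [h34, e4]
      have e6 : C 6 = 2 * h := by rw [h6, hh]
      have eE : E = C 0 + 2 * b := by
        rw [e1, e2, e3, e4, e5, e6] at hg0
        linarith
      have eρ : ρ = C 0 - b := by rw [hρ, e3, e4, e5, eE]; ring
      have hM : E ^ 2 - (C 0 ^ 2 + C 1 ^ 2 + C 2 ^ 2 + 2 * C 3 ^ 2 +
        2 * C 4 ^ 2 + 2 * C 5 ^ 2 + 2 * C 6 ^ 2) = 4 * C 0 * h - 10 * h ^ 2 - 2 * ρ ^ 2 := by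
        rw [eρ, e1, e2, e3, e4, e5, e6, eE]; ring
      have hineq : 0 ≤ 4 * C 0 * h - 10 * h ^ 2 + 4 := by
        rw [hM, hρρ] at hid2
        linarith
      have hh0 : 0 ≤ h := by rw [e6] at hC6; linarith
      have hfin : 2 * h ≤ C 0 := by
        by_contra hcon
        have h1 : C 0 ≤ 2 * h - 1 := by omega
        have h2 : 1 ≤ h := by omega
        have h3 : C 0 * h ≤ (2 * h - 1) * h := mul_le_mul_of_nonneg_right h1 hh0
        nlinarith
      have hD6 := hD.cond2.nonneg 6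
      obtain ⟨hd, hb', ha0, ha12, -⟩ := hD
      have hfinR : (0 : ℝ) ≤ (C 0 : ℝ) - 2 * h := by
        have : (2 * h : ℤ) ≤ C 0 := hfin
        have h4 : ((2 * h : ℤ) : ℝ) ≤ (C 0 : ℝ) := by exact_mod_cast this
        push_cast at h4
        linarith
      have hprod := mul_nonneg hD6 hfinR
      have r1 : (C 1 : ℝ) = C 0 - h := by rw [e1]; push_cast; ring
      have r2 : (C 2 : ℝ) = C 0 - h := by rw [e2]; push_cast; ring
      have r3 : (C 3 : ℝ) = b := by rw [e3]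
      have r4 : (C 4 : ℝ) = b := by rw [e4]
      have r5 : (C 5 : ℝ) = b := by rw [e5]
      have r6 : (C 6 : ℝ) = 2 * h := by rw [e6]; push_cast; ring
      have rE : (E : ℝ) = C 0 + 2 * b := by rw [eE]; push_cast; ring
      rw [r1, r2, r3, r4, r5, r6, rE]
      have key : d * ((C 0 : ℝ) + 2 * b) - (D 0 * C 0 + D 1 * (C 0 - h) + D 2 * (C 0 - h) +
          2 * (D 3 * b) + 2 * (D 4 * b) + 2 * (D 5 * b) + 2 * (D 6 * (2 * h))) =
          D 6 * ((C 0 : ℝ) - 2 * h) := by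
        linear_combination (-(C 0 : ℝ)) * ha0 - ((C 0 : ℝ) - h) * ha12 - 2 * (b : ℝ) * hb'
      linarith
  · have h3 : C 0 + C 1 + C 2 + 2 * (C 3 + C 4 + C 5) + C 6 = 3 * E →
        C 6 = 0 ∧ 3 * C 0 + 7 * C 1 - 10 * C 2 - C 3 - 14 * C 4 + 15 * C 5 = 0 :=
      fun h => absurd h hg0
    exact T2_num hD.cond2 E C hE hJ hg hr h3

/-- Prime curves downstairs are nonnegative on the classes of `Cond3`. -/
theorem prime3 (S : Data) (d : ℝ) (D : Fin 7 → ℝ) (hD : Cond3 d D) (φ : MvPolynomial (Fin 2) ℂ)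
    (hφ : Prime φ) :
    ∑ i, w2 i * D i * (mult (S.rep i) (psi ℂ φ) : ℝ) ≤ d * (wd φ : ℝ) := by
  have h2 : (-1 : ℂ) ≠ 0 := by norm_num
  have h2' : (2 : ℂ) ≠ 0 := two_ne_zero
  have hψ := psi_ne_zero hφ.ne_zero
  have hE1 := one_le_wd hφ
  have hnn := hD.cond2.nonneg
  obtain ⟨hd, hb, ha, -⟩ := id hD.cond2
  set C : Fin 7 → ℕ := fun i => mult (S.rep i) (psi ℂ φ) with hC
  have hsum : ∑ i, w2 i * D i * (mult (S.rep i) (psi ℂ φ) : ℝ) =
      D 0 * C 0 + D 1 * C 1 + D 2 * C 2 + 2 * (D 3 * C 3) + 2 * (D 4 * C 4) + 2 * (D 5 * C 5) +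
      2 * (D 6 * C 6) := by
    have h := sum_w2 (fun i => D i * (C i : ℝ))
    rw [← h]
    refine Finset.sum_congr rfl fun i _ => ?_
    rw [mul_assoc]
  rw [hsum]
  by_cases h0 : th U3 (YY U3 (-1) 0) (psi ℂ φ) = 0
  · -- the cuspidal cubic
    have hne := (prime_GC U3 h2 0).ne_zero
    obtain ⟨k1, k2⟩ := kernel_case h2' U3 h2 0 (S.rep 6) (GC_U3_q0 S) (GC_U3_q S) hφ h0
    have hdeg : U3.natDegree = 3 := by
      rw [U3]
      compute_degree!
    rw [hdeg] at k1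
    have hm1 : ∀ i, mult (S.rep i) (GC U3 (-1) 0) ≤ 1 := fun i => mult_GC_le _ _ _ _
    have hm2 : ∀ i, mult (refl (S.rep i)) (GC U3 (-1) 0) ≤ 1 := fun i => mult_GC_le _ _ _ _
    have hm3 : mult (refl (S.rep 6)) (GC U3 (-1) 0) = 0 := mult_eq_zero hne (GC_U3_q S)
    have cc : ∀ i, (C i : ℝ) ≤ 2 := by
      intro i
      have h3 : C i ≤ 2 := by
        have := k2 (S.rep i); have := hm1 i; have := hm2 i; simp only [hC]; omega
      exact_mod_cast h3
    have c6 : (C 6 : ℝ) ≤ 1 := by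
      have h3 : C 6 ≤ 1 := by
        have := k2 (S.rep 6); have := hm1 6; simp only [hC]; omega
      exact_mod_cast h3
    have hE : (6 : ℝ) ≤ wd φ := by
      have : 6 ≤ wd φ := by omega
      exact_mod_cast this
    have hE2 : d * 6 ≤ d * (wd φ : ℝ) := mul_le_mul_of_nonneg_left hE hd
    have m0 := mul_le_mul_of_nonneg_left (cc 0) (hnn 0)
    have m1 := mul_le_mul_of_nonneg_left (cc 1) (hnn 1)
    have m2 := mul_le_mul_of_nonneg_left (cc 2) (hnn 2)
    have m3 := mul_le_mul_of_nonneg_left (cc 3) (hnn 3)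
    have m4 := mul_le_mul_of_nonneg_left (cc 4) (hnn 4)
    have m5 := mul_le_mul_of_nonneg_left (cc 5) (hnn 5)
    have m6 := mul_le_mul_of_nonneg_left c6 (hnn 6)
    linarith
  · by_cases hH : HC f3 ∣ φ
    · -- the conic
      obtain ⟨χ, hχ⟩ := hH
      have hHp := prime_HC f3
      have hχu : IsUnit χ :=
        (hφ.irreducible.isUnit_or_isUnit hχ).resolve_left hHp.not_isUnit
      have hψu := hχu.map (psi ℂ)
      have hmu : ∀ i, C i = mult (S.rep i) (psi ℂ (HC f3)) := by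
        intro i
        simp only [hC]
        rw [hχ, map_mul, mult_mul (psi_ne_zero hHp.ne_zero) hψu.ne_zero, (mult_unit hψu).1,
          add_zero]
      have hz : ∀ i : Fin 7, i ≠ 3 → i ≠ 4 → i ≠ 5 → C i = 0 := by
        intro i h3 h4 h5
        rw [hmu]
        exact mult_eq_zero (psi_ne_zero hHp.ne_zero) (HC_f3_ne S i h3 h4 h5)
      have hb1 : ∀ i : Fin 7, 3 ≤ (i : ℕ) → (C i : ℝ) ≤ 1 := by
        intro i hi
        have : C i ≤ 1 := by
          rw [hmu]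
          apply mult_HC_f3_le
          intro h
          have := (rep_one S i).1 h
          omega
        exact_mod_cast this
      have hE : (2 : ℝ) ≤ wd φ := by
        have : 2 ≤ wd φ := by
          rw [hχ, wd_mul hHp.ne_zero hχu.ne_zero]
          have := two_le_wd_HC_f3
          omega
        exact_mod_cast this
      have hE2 : d * 2 ≤ d * (wd φ : ℝ) := mul_le_mul_of_nonneg_left hE hd
      rw [hz 0 (by decide) (by decide) (by decide), hz 1 (by decide) (by decide) (by decide),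
        hz 2 (by decide) (by decide) (by decide), hz 6 (by decide) (by decide) (by decide)]
      have m3 := mul_le_mul_of_nonneg_left (hb1 3 (by decide)) (hnn 3)
      have m4 := mul_le_mul_of_nonneg_left (hb1 4 (by decide)) (hnn 4)
      have m5 := mul_le_mul_of_nonneg_left (hb1 5 (by decide)) (hnn 5)
      push_cast
      linarith
    · -- the general case
      set Φ := th U3 (YY U3 (-1) 0) (psi ℂ φ) with hΦ
      have hdeg : Φ.natDegree ≤ 3 * wd φ := th_natDegree U3_Qd.1 Y3_Qd.1 (psi ℂ φ)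
      have hdvd : ∀ i, (Polynomial.X - Polynomial.C (r3 S i)) ^ mm2 C i ∣ Φ :=
        fun i => dvd3 S C (fun j => mem_mult hψ) i
      have hI := sum_mult_le (r3 S) (r3_inj S) (mm2 C) Φ h0 hdvd
      rw [sum_mm2] at hI
      -- the conic
      have hR := bezout_w h2' (HC f3) φ (wd (HC f3)) (wd φ) (prime_HC f3) rfl le_rfl hH (R3 S)
        (R3_dwn S)
        (fun i => 2 * (1 * (![C 3, C 4, C 5] : Fin 3 → ℕ) i)) (fun i =>
          LocW.b h2' (R3_one S i) (HC_f3_b S i) (by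
            rw [mem_Jord]
            fin_cases i
            · exact mem_mult hψ
            · exact mem_mult hψ
            · exact mem_mult hψ))
      have hR' : C 3 + C 4 + C 5 ≤ wd φ := by
        have h3 := wd_HC_f3
        have h4 : wd (HC f3) * wd φ ≤ 2 * wd φ := Nat.mul_le_mul_right _ h3
        simp only [Fin.sum_univ_three] at hR
        simp at hR
        omega
      have hJ := genus_w' S.rep (rep_dwn S) φ hφ C (fun i => by
        rw [mem_Jord]; exact mem_mult hψ)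
      have hJ2 : (C 0 : ℤ) * (C 0 - 2) + C 1 * (C 1 - 2) + C 2 * (C 2 - 2) +
          2 * (C 3 * (C 3 - 1)) + 2 * (C 4 * (C 4 - 1)) + 2 * (C 5 * (C 5 - 1)) +
          2 * (C 6 * (C 6 - 1)) ≤ ((wd φ : ℤ) - 2) ^ 2 := by
        refine le_trans (le_of_eq ?_) hJ
        simp only [Fin.sum_univ_succ, Fin.sum_univ_zero, gw]
        have g0 : S.rep 0 1 = 0 := (rep_one S 0).2 (by decide)
        have g1 : S.rep 1 1 = 0 := (rep_one S 1).2 (by decide)
        have g2 : S.rep 2 1 = 0 := (rep_one S 2).2 (by decide)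
        have g3 : S.rep 3 1 ≠ 0 := fun h => absurd ((rep_one S 3).1 h) (by decide)
        have g4 : S.rep 4 1 ≠ 0 := fun h => absurd ((rep_one S 4).1 h) (by decide)
        have g5 : S.rep 5 1 ≠ 0 := fun h => absurd ((rep_one S 5).1 h) (by decide)
        have g6 : S.rep 6 1 ≠ 0 := fun h => absurd ((rep_one S 6).1 h) (by decide)
        have s1 : Fin.succ (0 : Fin 6) = 1 := rfl
        have s2 : Fin.succ (Fin.succ (0 : Fin 5)) = 2 := rfl
        have s3 : Fin.succ (Fin.succ (Fin.succ (0 : Fin 4))) = 3 := rfl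
        have s4 : Fin.succ (Fin.succ (Fin.succ (Fin.succ (0 : Fin 3)))) = 4 := rfl
        have s5 : Fin.succ (Fin.succ (Fin.succ (Fin.succ (Fin.succ (0 : Fin 2))))) = 5 := rfl
        have s6 : Fin.succ (Fin.succ (Fin.succ (Fin.succ (Fin.succ (Fin.succ (0 : Fin 1)))))) =
          6 := rfl
        rw [s1, s2, s3, s4, s5, s6, if_pos g0, if_pos g1, if_pos g2, if_neg g3, if_neg g4,
          if_neg g5, if_neg g6]
        ring
      have hfin := T3_num hD (wd φ) (fun i => (C i : ℤ)) (by exact_mod_cast hE1)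
        (by positivity) (by positivity) hJ2
        (by
          have : C 0 + C 1 + C 2 + 2 * (C 3 + C 4 + C 5) + C 6 ≤ 3 * wd φ := by omega
          exact_mod_cast this)
        (by exact_mod_cast hR')
        (by
          intro heq
          have heq' : C 0 + C 1 + C 2 + 2 * (C 3 + C 4 + C 5) + C 6 = 3 * wd φ := by
            exact_mod_cast heq
          have hmm : ∑ i, mm2 C i = 3 * wd φ := by rw [sum_mm2]; exact heq'
          obtain ⟨c, hc, hprod⟩ := eq_prod_of_degree (r3 S) (r3_inj S) (mm2 C) Φ h0 hdvd (by omega)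
          have hQ : Qd (wd φ) Φ := th_Qd U3_Qd Y3_Qd (psi ℂ φ)
          rw [hprod] at hQ
          have hs := sum_roots_zero (r3 S) (mm2 C) c hc (wd φ) (by omega) hmm hQ
          apply S.indep (fun i => (C i : ℤ))
          rw [← hs]
          simp only [Fin.sum_univ_succ, Fin.sum_univ_zero, mm2, r3]
          simp
          ring)
      have hfin' := hfin
      push_cast at hfin'
      exact hfin'

theorem curve3 (S : Data) (d : ℝ) (D : Fin 7 → ℝ) (hD : Cond3 d D) (dl : ℕ) (m : Fin 11 → ℕ)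
    (hc : HasCurve S.pt dl m) :
    D 0 * m 0 + D 1 * m 1 + D 2 * m 2 + D 3 * (m 3 + m 4) + D 4 * (m 5 + m 6) +
      D 5 * (m 7 + m 8) + D 6 * (m 9 + m 10) ≤ d * dl := by
  obtain ⟨F, hF0, hFd, hF⟩ := hc
  have hnn := hD.cond2.nonneg
  have z0 : S.rep 0 1 = 0 := (rep_one S 0).2 (by decide)
  have z1 : S.rep 1 1 = 0 := (rep_one S 1).2 (by decide)
  have z2 : S.rep 2 1 = 0 := (rep_one S 2).2 (by decide)
  have r0 : refl (S.rep 0) = S.rep 0 := refl_eq_self z0
  have r1 : refl (S.rep 1) = S.rep 1 := refl_eq_self z1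
  have r2 : refl (S.rep 2) = S.rep 2 := refl_eq_self z2
  have h := upstairs_ineq (k := ℂ) two_ne_zero S.rep (fun i => w2 i * D i)
    (fun i => mul_nonneg (w2_nonneg i) (hnn i)) d hD.1 (fun φ hφ => prime3 S d D hD φ hφ)
    hF0 dl hFd ![m 0, m 1, m 2, m 3, m 5, m 7, m 9]
    ![m 0, m 1, m 2, m 4, m 6, m 8, m 10] (by
      intro i
      fin_cases i
      · exact hF 0
      · exact hF 1
      · exact hF 2
      · exact hF 3
      · exact hF 5
      · exact hF 7
      · exact hF 9) (by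
      intro i
      fin_cases i
      · change F ∈ Iord (refl (S.rep 0)) (m 0); rw [r0]; exact hF 0
      · change F ∈ Iord (refl (S.rep 1)) (m 1); rw [r1]; exact hF 1
      · change F ∈ Iord (refl (S.rep 2)) (m 2); rw [r2]; exact hF 2
      · exact hF 4
      · exact hF 6
      · exact hF 8
      · exact hF 10)
  have h' := sum_w2 (fun i => D i * (((![m 0, m 1, m 2, m 3, m 5, m 7, m 9] : Fin 7 → ℕ) i : ℝ) +
    ((![m 0, m 1, m 2, m 4, m 6, m 8, m 10] : Fin 7 → ℕ) i : ℝ)))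
  have h2 : ∑ i, w2 i * (D i * (((![m 0, m 1, m 2, m 3, m 5, m 7, m 9] : Fin 7 → ℕ) i : ℝ) +
    ((![m 0, m 1, m 2, m 4, m 6, m 8, m 10] : Fin 7 → ℕ) i : ℝ))) ≤ 2 * (d * dl) := by
    refine le_trans (le_of_eq ?_) h
    exact Finset.sum_congr rfl fun i _ => by ring
  rw [h'] at h2
  simp at h2
  linarith

end Pool.Agent.H92.T3
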