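import Mathlib
import Pool.Agent.H92.T3.Final
import Pool.Agent.H92.T3.Degen
import Pool.Agent.H92.T3.Nef
import Pool.Agent.H92.T3.Asm

set_option autoImplicit false

namespace Pool.Agent.H92.T3

open Pool.Agent.H13 MvPolynomial

namespace Data

variable (S : Data)

/-- The class of `Cond3` is nonnegative on all plane curves. -/
theorem II_nonneg {d : ℝ} {D : Fin 7 → ℝ} (hD : Cond3 d D) (G : MvPolynomial (Fin 2) ℂ)
    (hG : G ≠ 0) : 0 ≤ S.II d D G := by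
  have h := curve3 S d D hD G.totalDegree (fun k => mult (S.pt k) G)
    ⟨G, hG, le_rfl, fun i => mem_mult hG⟩
  rw [II, sum_AA D (fun k => (mult (S.pt k) G : ℝ))]
  linarith

/-- The ten special points over the function field. -/
noncomputable def P10 : Fin 10 → Fin 2 → KK := degPt S.Xd S.Wd S.ta

theorem ineq10 : Ineq10 S.P10 := by
  intro F c₁ c₂ c₃ s hC dl m hcurve
  obtain ⟨g, g', hg0, hreg, hmem, hblow, hmem'⟩ := degen S.Xd S.Wd S.ta dl m hcurve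
  have h2 := hC.cond2
  have h := S.final_ineq (δ := dl) (m := m) hC.1 h2.nonneg hC.2.2.1 hC.2.2.2.1 hC.2.1
    (fun G hG => S.II_nonneg hC G hG) hg0 hreg hmem hblow hmem'
  simp [D7] at h
  refine le_trans (le_of_eq ?_) (h.trans (le_of_eq ?_))
  · ring
  · ring

end Data

/-- The canonical degree of a class of the space. -/
theorem class10_K {n : ℕ} (hn : 10 ≤ n) (F c₁ c₂ c₃ s : ℝ) :
    -3 * (class10 n F c₁ c₂ c₃ s).1 + ∑ i, (class10 n F c₁ c₂ c₃ s).2 i = s := by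
  have e := sum_class10 hn F c₁ c₂ c₃ s (fun _ x => x) (fun _ => rfl)
  rw [e, class10_fst]
  simp only [Fin.sum_univ_succ, Fin.sum_univ_zero]
  simp
  ring

/-- The space is `K`-positive on the positive cone. -/
theorem class10_K_pos {n : ℕ} (hn : 10 ≤ n) (F c₁ c₂ c₃ s : ℝ)
    (h : class10 n F c₁ c₂ c₃ s ∈ Pos n) (h0 : class10 n F c₁ c₂ c₃ s ≠ 0) :
    0 < -3 * (class10 n F c₁ c₂ c₃ s).1 + ∑ i, (class10 n F c₁ c₂ c₃ s).2 i := by
  have hC := cond3_of_pos hn _ _ _ _ _ h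
  obtain ⟨nF, n1, n2, n3, ns, n0⟩ := nonneg_of_cond3 hC
  rw [class10_K hn]
  rcases ns.lt_or_eq with h1 | h1
  · exact h1
  · exfalso
    apply h0
    obtain ⟨-, h2⟩ := h
    rw [class10_sq hn, class10_fst, ← h1] at h2
    have e1 : (c₁ + c₂ + c₃) ^ 2 ≤ 3 * (c₁ ^ 2 + c₂ ^ 2 + c₃ ^ 2) := by
      nlinarith [sq_nonneg (c₁ - c₂), sq_nonneg (c₁ - c₃), sq_nonneg (c₂ - c₃)]
    have e2 : F ^ 2 ≤ 0 := by
      nlinarith [sq_nonneg (4 * (3 * F - c₁ - c₂ - c₃) - 3 * F)]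
    have hF : F = 0 := by
      have := le_antisymm e2 (sq_nonneg F)
      exact pow_eq_zero_iff (two_ne_zero) |>.1 this
    rw [hF] at h2
    have e3 : c₁ = 0 := by
      have : c₁ ^ 2 ≤ 0 := by
        nlinarith [sq_nonneg c₂, sq_nonneg c₃, sq_nonneg (c₁ + c₂ + c₃)]
      exact pow_eq_zero_iff (two_ne_zero) |>.1 (le_antisymm this (sq_nonneg _))
    have e4 : c₂ = 0 := by
      have : c₂ ^ 2 ≤ 0 := by
        nlinarith [sq_nonneg c₁, sq_nonneg c₃, sq_nonneg (c₁ + c₂ + c₃)]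
      exact pow_eq_zero_iff (two_ne_zero) |>.1 (le_antisymm this (sq_nonneg _))
    have e5 : c₃ = 0 := by
      have : c₃ ^ 2 ≤ 0 := by
        nlinarith [sq_nonneg c₁, sq_nonneg c₂, sq_nonneg (c₁ + c₂ + c₃)]
      exact pow_eq_zero_iff (two_ne_zero) |>.1 (le_antisymm this (sq_nonneg _))
    rw [hF, e3, e4, e5, ← h1]
    have h := class10_smul n 0 0 0 0 0 0
    rw [zero_smul] at h
    rw [h]
    simp

/-- **Theorem T3.** -/
theorem thm3 (n : ℕ) (hn : 10 ≤ n) :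
    VeryGeneral n (fun p => ∀ F c₁ c₂ c₃ s : ℝ, ∀ y : ℝ × (Fin n → ℝ),
      y = class10 n F c₁ c₂ c₃ s →
      ((y ∈ moriCone p ↔ y ∈ expectedCone p) ∧
        (y ∈ moriCone p ↔ 0 ≤ y.1 ∧ ∑ i, y.2 i ^ 2 ≤ y.1 ^ 2) ∧
        (y ∈ moriCone p ↔ ∀ v ∈ moriCone p, 0 ≤ y.1 * v.1 - ∑ i, y.2 i * v.2 i))) := by
  obtain ⟨S⟩ := nonempty_data
  exact thm3_of_special S.P10 S.ineq10 n hn

/-- Theorem T3 with the position of the space relative to the canonical class. -/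
theorem thm3' (n : ℕ) (hn : 10 ≤ n) :
    VeryGeneral n (fun p => ∀ F c₁ c₂ c₃ s : ℝ, ∀ y : ℝ × (Fin n → ℝ),
      y = class10 n F c₁ c₂ c₃ s →
      ((y ∈ moriCone p ↔ y ∈ expectedCone p) ∧
        (y ∈ moriCone p ↔ 0 ≤ y.1 ∧ ∑ i, y.2 i ^ 2 ≤ y.1 ^ 2) ∧
        (y ∈ moriCone p ↔ ∀ v ∈ moriCone p, 0 ≤ y.1 * v.1 - ∑ i, y.2 i * v.2 i) ∧
        (y ∈ moriCone p → y ≠ 0 → 0 < -3 * y.1 + ∑ i, y.2 i))) := by
  obtain ⟨f, hf0, hf⟩ := thm3 n hn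
  refine ⟨f, hf0, fun p hp F c₁ c₂ c₃ s y hy => ?_⟩
  obtain ⟨h1, h2, h3⟩ := hf p hp F c₁ c₂ c₃ s y hy
  refine ⟨h1, h2, h3, fun hm h0 => ?_⟩
  rw [hy] at h0 hm h2 ⊢
  exact class10_K_pos hn _ _ _ _ _ (h2.1 hm) h0

end Pool.Agent.H92.T3
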